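import Pool.Agent.W786.Dir4

/-!
# Orthonormal frames and the stretching term
-/

open MeasureTheory Set Filter
open scoped ENNReal NNReal Topology

namespace Pool.Agent.Zk61.EU

open Pool.Agent.H708R2.EulerSign Pool.Agent.H708R2.EulerTypeI Pool.Agent.W786.Dir
  Pool.Agent.W786.Sv

/-- Orthonormal frames. -/
structure Fr (e f g : V) : Prop where
  ee : e ⬝ᵥ e = 1
  ff : f ⬝ᵥ f = 1
  gg : g ⬝ᵥ g = 1
  ef : e ⬝ᵥ f = 0
  eg : e ⬝ᵥ g = 0
  fg : f ⬝ᵥ g = 0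

variable {e f g : V}

lemma Fr.cols (h : Fr e f g) (i j : Fin 3) :
    e i * e j + f i * f j + g i * g j = if i = j then 1 else 0 := by
  set O : Matrix (Fin 3) (Fin 3) ℝ := Matrix.of ![e, f, g] with hO
  have h1 : O * O.transpose = 1 := by
    have a1 := h.ee
    have a2 := h.ff
    have a3 := h.gg
    have a4 := h.ef
    have a5 := h.eg
    have a6 := h.fg
    simp only [dotProduct, Fin.sum_univ_three] at a1 a2 a3 a4 a5 a6
    ext i j
    rw [Matrix.mul_apply]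
    fin_cases i <;> fin_cases j <;>
      simp [hO, Fin.sum_univ_three, Matrix.one_apply] <;> linarith
  have h2 : O.transpose * O = 1 := mul_eq_one_comm.1 h1
  have h3 := congrFun (congrFun h2 i) j
  rw [Matrix.mul_apply, Fin.sum_univ_three, Matrix.one_apply] at h3
  simpa [hO] using h3

lemma Fr.trace (h : Fr e f g) (A : Matrix (Fin 3) (Fin 3) ℝ) :
    A.trace = e ⬝ᵥ A.mulVec e + f ⬝ᵥ A.mulVec f + g ⬝ᵥ A.mulVec g := by
  have c := h.cols
  have c00 := c 0 0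
  have c01 := c 0 1
  have c02 := c 0 2
  have c11 := c 1 1
  have c12 := c 1 2
  have c22 := c 2 2
  simp at c00 c01 c02 c11 c12 c22
  simp only [Matrix.trace, Matrix.diag, Matrix.mulVec, dotProduct, Fin.sum_univ_three]
  linear_combination -(A 0 0 * c00 + (A 0 1 + A 1 0) * c01 + (A 0 2 + A 2 0) * c02 + A 1 1 * c11
    + (A 1 2 + A 2 1) * c12 + A 2 2 * c22)

lemma Fr.expand (h : Fr e f g) (w : V) : w = (w ⬝ᵥ e) • e + (w ⬝ᵥ f) • f + (w ⬝ᵥ g) • g := by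
  have c := h.cols
  ext i
  have c0 := c i 0
  have c1 := c i 1
  have c2 := c i 2
  simp only [Pi.add_apply, Pi.smul_apply, smul_eq_mul, dotProduct, Fin.sum_univ_three]
  fin_cases i
  · simp at c0 c1 c2 ⊢
    linear_combination -(w 0 * c0 + w 1 * c1 + w 2 * c2)
  · simp at c0 c1 c2 ⊢
    linear_combination -(w 0 * c0 + w 1 * c1 + w 2 * c2)
  · simp at c0 c1 c2 ⊢
    linear_combination -(w 0 * c0 + w 1 * c1 + w 2 * c2)

lemma cross_self_dot (a b : V) : a ⬝ᵥ cross a b = 0 := by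
  simp only [cross, dotProduct, Fin.sum_univ_three, Matrix.cons_val_zero,
    Matrix.cons_val_one, Matrix.cons_val]
  ring

lemma cross_dot_cross (a b : V) :
    cross a b ⬝ᵥ cross a b = (a ⬝ᵥ a) * (b ⬝ᵥ b) - (a ⬝ᵥ b) ^ 2 := by
  simp only [cross, dotProduct, Fin.sum_univ_three, Matrix.cons_val_zero,
    Matrix.cons_val_one, Matrix.cons_val]
  ring

lemma cross_cross (a b : V) : cross a (cross b a) = (a ⬝ᵥ a) • b - (a ⬝ᵥ b) • a := by
  ext i
  fin_cases i <;> simp [cross, dotProduct, Fin.sum_univ_three] <;> ring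

/-- The frame of two orthonormal vectors. -/
lemma fr_cross (he : e ⬝ᵥ e = 1) (hf : f ⬝ᵥ f = 1) (hef : e ⬝ᵥ f = 0) : Fr e f (cross e f) where
  ee := he
  ff := hf
  gg := by rw [cross_dot_cross, he, hf, hef]; norm_num
  ef := hef
  eg := cross_self_dot e f
  fg := by rw [cross_orth]

/-- A frame adapted to a unit vector and a second vector. -/
lemma exists_frame (he : e ⬝ᵥ e = 1) (w : V) :
    ∃ f, f ⬝ᵥ f = 1 ∧ e ⬝ᵥ f = 0 ∧ w = (w ⬝ᵥ f) • f + (w ⬝ᵥ e) • e := by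
  obtain ⟨g, hg, hwg, heg⟩ := exists_orth w e
  have hge : g ⬝ᵥ e = 0 := by rw [dotProduct_comm]; exact heg
  have hff : cross g e ⬝ᵥ cross g e = 1 := by rw [cross_dot_cross, hg, he, hge]; norm_num
  have hef : e ⬝ᵥ cross g e = 0 := cross_orth g e
  refine ⟨cross g e, hff, hef, ?_⟩
  have hcc : cross e (cross g e) = g := by
    rw [cross_cross, he, heg]
    simp
  have hF := fr_cross he hff hef
  rw [hcc] at hF
  have h1 := hF.expand w
  rw [hwg, zero_smul, add_zero, add_comm] at h1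
  exact h1

/-- The normal component of the vorticity of a matrix in a frame. -/
lemma cv_frame (he : e ⬝ᵥ e = 1) (hf : f ⬝ᵥ f = 1) (hef : e ⬝ᵥ f = 0)
    (A : Matrix (Fin 3) (Fin 3) ℝ) :
    cross e f ⬝ᵥ A.mulVec f - f ⬝ᵥ A.mulVec (cross e f) = cv A ⬝ᵥ e := by
  have h1 : ∀ a b : V, b ⬝ᵥ A.mulVec a - a ⬝ᵥ A.mulVec b = cv A ⬝ᵥ cross a b := by
    intro a b
    simp only [cv, cross, dotProduct, Matrix.mulVec, Fin.sum_univ_three, Matrix.cons_val_zero,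
      Matrix.cons_val_one, Matrix.cons_val]
    ring
  rw [h1]
  have hfe : f ⬝ᵥ e = 0 := by rw [dotProduct_comm]; exact hef
  rw [cross_cross, hf, hfe]
  simp

/-- The mixed term of a quadratic form. -/
lemma mixed_le (hf : f ⬝ᵥ f = 1) (he : e ⬝ᵥ e = 1) (hef : e ⬝ᵥ f = 0)
    {A : Matrix (Fin 3) (Fin 3) ℝ} {σ : ℝ} (hσ : ∀ h : V, h ⬝ᵥ h = 1 → |h ⬝ᵥ A.mulVec h| ≤ σ) :
    |f ⬝ᵥ A.mulVec e + e ⬝ᵥ A.mulVec f| ≤ 2 * σ := by
  have hfe : f ⬝ᵥ e = 0 := by rw [dotProduct_comm]; exact hef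
  set c : ℝ := (Real.sqrt 2)⁻¹ with hc
  have hc2 : c * c = 1 / 2 := by
    rw [hc, ← mul_inv, Real.mul_self_sqrt (by norm_num)]
    norm_num
  have h1 := hσ (c • (f + e)) (by
    rw [smul_dotProduct, dotProduct_smul, add_dotProduct, dotProduct_add, dotProduct_add, hf, he,
      hef, hfe, smul_eq_mul, smul_eq_mul, ← mul_assoc, hc2]
    norm_num)
  have h2 := hσ (c • (f - e)) (by
    rw [smul_dotProduct, dotProduct_smul, sub_dotProduct, dotProduct_sub, dotProduct_sub, hf, he,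
      hef, hfe, smul_eq_mul, smul_eq_mul, ← mul_assoc, hc2]
    norm_num)
  have e1 : (c • (f + e)) ⬝ᵥ A.mulVec (c • (f + e)) = 1 / 2 * (f ⬝ᵥ A.mulVec f
      + e ⬝ᵥ A.mulVec e + (f ⬝ᵥ A.mulVec e + e ⬝ᵥ A.mulVec f)) := by
    rw [Matrix.mulVec_smul, smul_dotProduct, dotProduct_smul, smul_eq_mul, smul_eq_mul,
      ← mul_assoc, hc2, Matrix.mulVec_add, add_dotProduct, dotProduct_add, dotProduct_add]
    ring
  have e2 : (c • (f - e)) ⬝ᵥ A.mulVec (c • (f - e)) = 1 / 2 * (f ⬝ᵥ A.mulVec f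
      + e ⬝ᵥ A.mulVec e - (f ⬝ᵥ A.mulVec e + e ⬝ᵥ A.mulVec f)) := by
    rw [Matrix.mulVec_smul, smul_dotProduct, dotProduct_smul, smul_eq_mul, smul_eq_mul,
      ← mul_assoc, hc2, Matrix.mulVec_sub, sub_dotProduct, dotProduct_sub, dotProduct_sub]
    ring
  rw [e1] at h1
  rw [e2] at h2
  rw [abs_le] at h1 h2 ⊢
  constructor <;> linarith [h1.1, h1.2, h2.1, h2.2]

/-- The stretching term in an adapted frame. -/
theorem stretch_frame {A : Matrix (Fin 3) (Fin 3) ℝ} (htr : A.trace = 0) (he : e ⬝ᵥ e = 1)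
    {w : V} {β S σ : ℝ} (hS0 : 0 ≤ S) (hb : |w ⬝ᵥ e| ≤ β) (hd : |e ⬝ᵥ A.mulVec e| ≤ β)
    (hs : ∀ f, f ⬝ᵥ f = 1 → e ⬝ᵥ f = 0 →
      |f ⬝ᵥ A.mulVec f - cross e f ⬝ᵥ A.mulVec (cross e f)| ≤ S)
    (hσ : ∀ h : V, h ⬝ᵥ h = 1 → |h ⬝ᵥ A.mulVec h| ≤ σ) :
    w ⬝ᵥ A.mulVec w ≤ (w ⬝ᵥ w) * ((3 * β + S) / 2) + 2 * σ * β * nrm w := by
  obtain ⟨f, hf, hef, hw⟩ := exists_frame he w
  have hfe : f ⬝ᵥ e = 0 := by rw [dotProduct_comm]; exact hef
  have hβ : 0 ≤ β := (abs_nonneg _).trans hb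
  have hσ0 : 0 ≤ σ := (abs_nonneg _).trans (hσ e he)
  set a := w ⬝ᵥ f with ha
  set b := w ⬝ᵥ e with hb'
  have hww : w ⬝ᵥ w = a ^ 2 + b ^ 2 := by
    conv_lhs => rw [hw]
    rw [add_dotProduct, dotProduct_add, dotProduct_add, smul_dotProduct, smul_dotProduct,
      dotProduct_smul, dotProduct_smul, smul_dotProduct, smul_dotProduct, dotProduct_smul,
      dotProduct_smul, hf, he, hef, hfe]
    simp only [smul_eq_mul]
    ring
  have hA : w ⬝ᵥ A.mulVec w = a ^ 2 * (f ⬝ᵥ A.mulVec f)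
      + a * b * (f ⬝ᵥ A.mulVec e + e ⬝ᵥ A.mulVec f) + b ^ 2 * (e ⬝ᵥ A.mulVec e) := by
    conv_lhs => rw [hw]
    rw [Matrix.mulVec_add, Matrix.mulVec_smul, Matrix.mulVec_smul, add_dotProduct,
      dotProduct_add, dotProduct_add, smul_dotProduct, smul_dotProduct,
      dotProduct_smul, dotProduct_smul, smul_dotProduct, smul_dotProduct, dotProduct_smul,
      dotProduct_smul]
    simp only [smul_eq_mul]
    ring
  have htr2 := (fr_cross he hf hef).trace A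
  rw [htr] at htr2
  have hs1 := (abs_le.1 (hs f hf hef)).2
  have hd1 := abs_le.1 hd
  have hff : f ⬝ᵥ A.mulVec f ≤ (β + S) / 2 := by linarith [hd1.1]
  have hm := mixed_le hf he hef hσ
  have hab : |a| ≤ nrm w := by
    have h1 : a ^ 2 ≤ nrm w ^ 2 := by rw [nrm_sq, hww]; nlinarith [sq_nonneg b]
    exact abs_le_of_sq_le_sq h1 (nrm_nonneg _)
  have t1 : a ^ 2 * (f ⬝ᵥ A.mulVec f) ≤ (w ⬝ᵥ w) * ((β + S) / 2) := by
    have h0 : 0 ≤ (β + S) / 2 := by positivity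
    calc a ^ 2 * (f ⬝ᵥ A.mulVec f) ≤ a ^ 2 * ((β + S) / 2) :=
          mul_le_mul_of_nonneg_left hff (sq_nonneg a)
      _ ≤ (w ⬝ᵥ w) * ((β + S) / 2) := by
          refine mul_le_mul_of_nonneg_right ?_ h0
          rw [hww]; nlinarith [sq_nonneg b]
  have t2 : a * b * (f ⬝ᵥ A.mulVec e + e ⬝ᵥ A.mulVec f) ≤ 2 * σ * β * nrm w := by
    refine (le_abs_self _).trans ?_
    rw [abs_mul, abs_mul]
    have := nrm_nonneg w
    calc |a| * |b| * |f ⬝ᵥ A.mulVec e + e ⬝ᵥ A.mulVec f| ≤ nrm w * β * (2 * σ) := by gcongr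
      _ = _ := by ring
  have t3 : b ^ 2 * (e ⬝ᵥ A.mulVec e) ≤ (w ⬝ᵥ w) * β := by
    calc b ^ 2 * (e ⬝ᵥ A.mulVec e) ≤ b ^ 2 * β :=
          mul_le_mul_of_nonneg_left hd1.2 (sq_nonneg b)
      _ ≤ (w ⬝ᵥ w) * β := by
          refine mul_le_mul_of_nonneg_right ?_ hβ
          rw [hww]; nlinarith [sq_nonneg a]
  rw [hA]
  linarith

end Pool.Agent.Zk61.EU
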