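import Mathlib

/-!
# Integrability of the primitive of `a(s) / (T - s)`
-/

open MeasureTheory Set Filter
open scoped ENNReal NNReal Topology

namespace Pool.Agent.Zk61.EU

variable {T t₀ : ℝ}

lemma ton_meas {a : ℝ → ℝ} (ha : IntegrableOn a (Ioo t₀ T)) :
    AEStronglyMeasurable (fun s => a s / (T - s)) (volume.restrict (Ioo t₀ T)) := by
  have h1 : Measurable fun s : ℝ => (T - s)⁻¹ := by fun_prop
  have h2 : AEStronglyMeasurable (fun s => a s * (T - s)⁻¹) (volume.restrict (Ioo t₀ T)) :=
    ha.aestronglyMeasurable.mul h1.aestronglyMeasurable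
  simpa only [div_eq_mul_inv] using h2

lemma ton_local {a : ℝ → ℝ} (ha : IntegrableOn a (Ioo t₀ T)) {t : ℝ} (ht : t < T) :
    IntegrableOn (fun s => a s / (T - s)) (Ioo t₀ t) := by
  have hsub : Ioo t₀ t ⊆ Ioo t₀ T := Ioo_subset_Ioo_right ht.le
  have h1 : IntegrableOn a (Ioo t₀ t) := ha.mono_set hsub
  refine Integrable.mono' (h1.norm.mul_const ((T - t)⁻¹)) ((ton_meas ha).mono_set hsub) ?_
  refine (ae_restrict_iff' measurableSet_Ioo).2 (Eventually.of_forall fun s hs => ?_)
  have h2 : 0 < T - t := by linarith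
  have h3 : T - t ≤ T - s := by linarith [hs.2]
  rw [norm_div, div_eq_mul_inv, Real.norm_of_nonneg (h2.le.trans h3)]
  gcongr

/-- Integrability of `∫_{t₀}^t a(s) / (T - s) ds`. -/
lemma ton {a : ℝ → ℝ} (ha : IntegrableOn a (Ioo t₀ T)) :
    IntegrableOn (fun t => ∫ s in Ioo t₀ t, a s / (T - s)) (Ioo t₀ T) := by
  set μ : Measure ℝ := volume.restrict (Ioo t₀ T) with hμ
  set g : ℝ → ℝ := fun s => a s / (T - s) with hg
  set f : ℝ × ℝ → ℝ := ({z : ℝ × ℝ | z.2 < z.1}).indicator (fun z => g z.2) with hf
  have hmeas : MeasurableSet {z : ℝ × ℝ | z.2 < z.1} := measurableSet_lt measurable_snd measurable_fst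
  have hfm : AEStronglyMeasurable f (μ.prod μ) := ((ton_meas ha).comp_snd).indicator hmeas
  have hsec : ∀ y : ℝ, ∀ x : ℝ, f (x, y) = (Ioi y).indicator (fun _ => g y) x := by
    intro y x
    simp only [hf, indicator, mem_ofPred_eq, mem_Ioi]
  have hfi : Integrable f (μ.prod μ) := by
    rw [integrable_prod_iff' hfm]
    constructor
    · refine Eventually.of_forall fun y => ?_
      simp only [hsec]
      exact (integrable_const (g y)).indicator measurableSet_Ioi
    · have key : ∀ y ∈ Ioo t₀ T, ∫ x, ‖f (x, y)‖ ∂μ = ‖a y‖ := by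
        intro y hy
        have h1 : ∀ x, ‖f (x, y)‖ = (Ioi y).indicator (fun _ => ‖g y‖) x := by
          intro x
          rw [hsec, norm_indicator_eq_indicator_norm]
        simp only [h1]
        rw [integral_indicator measurableSet_Ioi, hμ, Measure.restrict_restrict measurableSet_Ioi]
        have h2 : Ioi y ∩ Ioo t₀ T = Ioo y T := by
          ext x
          simp only [mem_inter_iff, mem_Ioi, mem_Ioo]
          constructor
          · rintro ⟨h3, -, h4⟩
            exact ⟨h3, h4⟩
          · rintro ⟨h3, h4⟩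
            exact ⟨h3, hy.1.trans h3, h4⟩
        rw [h2, setIntegral_const, measureReal_def, Real.volume_Ioo, smul_eq_mul]
        have h3 : 0 < T - y := by linarith [hy.2]
        rw [ENNReal.toReal_ofReal h3.le, hg]
        simp only
        rw [norm_div, Real.norm_of_nonneg h3.le]
        field_simp
      refine (integrable_congr ?_).2 ha.norm
      exact (ae_restrict_iff' measurableSet_Ioo).2 (Eventually.of_forall key)
  have h1 := hfi.integral_prod_left
  refine (integrable_congr ?_).1 h1
  refine (ae_restrict_iff' measurableSet_Ioo).2 (Eventually.of_forall fun t ht => ?_)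
  have h2 : ∀ y, f (t, y) = (Iio t).indicator g y := by
    intro y
    simp only [hf, indicator, mem_ofPred_eq, mem_Iio]
  simp only [h2]
  rw [integral_indicator measurableSet_Iio, hμ, Measure.restrict_restrict measurableSet_Iio]
  have h3 : Iio t ∩ Ioo t₀ T = Ioo t₀ t := by
    ext x
    simp only [mem_inter_iff, mem_Iio, mem_Ioo]
    constructor
    · rintro ⟨h3, h4, -⟩
      exact ⟨h4, h3⟩
    · rintro ⟨h3, h4⟩
      exact ⟨h4, h3, h4.trans ht.2⟩
  rw [h3]

end Pool.Agent.Zk61.EU
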