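import Pool.Agent.Zk61.EU.GradB
import Pool.Agent.Zk61.EU.Ton

/-!
# Evolution of one component of the vorticity
-/

open MeasureTheory Set Filter
open scoped ENNReal NNReal Topology

namespace Pool.Agent.Zk61.EU

open Pool.Agent.H708R2.EulerSign Pool.Agent.H708R2.EulerTypeI Pool.Agent.W786.Dir
  Pool.Agent.W786.Sv Pool.Agent.W786.Max

variable {T : ℝ} {u : ℝ → V → V} {p : ℝ → V → ℝ}

/-- The gradient of `e · v` controls `e · ∇v w`. -/
lemma comp_grad_le {A : Matrix (Fin 3) (Fin 3) ℝ} {e : V} {a : ℝ}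
    (h : ∀ j, |∑ i, e i * A i j| ≤ a) (w : V) : |e ⬝ᵥ A.mulVec w| ≤ 2 * a * nrm w := by
  have ha : 0 ≤ a := (abs_nonneg _).trans (h 0)
  set q : V := fun j => ∑ i, e i * A i j with hq
  have e1 : e ⬝ᵥ A.mulVec w = q ⬝ᵥ w := by
    simp only [hq, dotProduct, Matrix.mulVec, Fin.sum_univ_three]
    ring
  have h1 : nrm q ≤ 2 * a := by
    have h2 : nrm q ^ 2 ≤ (2 * a) ^ 2 := by
      rw [nrm_sq, dotProduct, Fin.sum_univ_three]
      have k : ∀ j, q j * q j ≤ a ^ 2 := fun j => by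
        rw [← sq, ← sq_abs]
        have := h j
        gcongr
      nlinarith [k 0, k 1, k 2, sq_nonneg a]
    exact (le_abs_self _).trans (abs_le_of_sq_le_sq h2 (by positivity))
  rw [e1]
  refine (dot_le _ _).trans ?_
  have := nrm_nonneg w
  gcongr

/-- The component `ω · e(t)` along a trajectory. -/
theorem comp_traj (h : IsC2Solution T u p) {X : ℝ → V} {s t : ℝ} (hs : 0 < s) (hst : s ≤ t)
    (ht : t < T) (hX : IsTraj u X s t) {e : ℝ → V} (he : ContDiffOn ℝ 1 e (Ioo 0 T)) {g : ℝ → ℝ}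
    (hgi : IntegrableOn g (Ioo s t))
    (hg : ∀ r ∈ Ioo s t, |e r ⬝ᵥ (grad (u r) (X r)).mulVec (vort (u r) (X r))|
      + |vort (u r) (X r) ⬝ᵥ deriv e r| ≤ g r) :
    |vort (u t) (X t) ⬝ᵥ e t| ≤ |vort (u s) (X s) ⬝ᵥ e s| + ∫ r in Ioo s t, g r := by
  have hsub : Icc s t ⊆ Ioo 0 T := fun r hr => ⟨hs.trans_le hr.1, hr.2.trans_lt ht⟩
  have hed : ∀ r ∈ Ioo 0 T, HasDerivAt e (deriv e r) r := fun r hr =>
    ((he.differentiableOn one_ne_zero).differentiableAt (isOpen_Ioo.mem_nhds hr)).hasDerivAt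
  have hec : ContinuousOn (deriv e) (Ioo 0 T) :=
    he.continuousOn_deriv_of_isOpen isOpen_Ioo le_rfl
  set φ : ℝ → ℝ := fun r => vort (u r) (X r) ⬝ᵥ e r with hφ
  set φ' : ℝ → ℝ := fun r => (grad (u r) (X r)).mulVec (vort (u r) (X r)) ⬝ᵥ e r
    + vort (u r) (X r) ⬝ᵥ deriv e r with hφ'
  have hd : ∀ r ∈ Icc s t, HasDerivWithinAt φ (φ' r) (Icc s t) r := by
    intro r hr
    have h1 := vort_deriv h hX hsub hr
    have h2 : HasDerivWithinAt (fun r => ∑ i, vort (u r) (X r) i * e r i)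
        (∑ i, ((grad (u r) (X r)).mulVec (vort (u r) (X r)) i * e r i
          + vort (u r) (X r) i * deriv e r i)) (Icc s t) r :=
      HasDerivWithinAt.fun_sum fun i _ => (hasDerivWithinAt_pi.1 h1 i).mul
        (hasDerivWithinAt_pi.1 (hed r (hsub hr)).hasDerivWithinAt i)
    refine h2.congr_deriv ?_
    simp only [hφ', dotProduct, Finset.sum_add_distrib]
  have hφc : ContinuousOn φ (Icc s t) := fun r hr => (hd r hr).continuousWithinAt
  have hAc : ∀ i j, ContinuousOn (fun r => grad (u r) (X r) i j) (Icc s t) := fun i j =>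
    vort_traj_cont h.sol hs.le ht hX i j
  have hvc : ∀ i, ContinuousOn (fun r => vort (u r) (X r) i) (Icc s t) := fun i =>
    cv_cont hAc i
  have hei : ∀ i, ContinuousOn (fun r => e r i) (Icc s t) := fun i =>
    ((continuous_apply i).comp_continuousOn he.continuousOn).mono hsub
  have hdi : ∀ i, ContinuousOn (fun r => deriv e r i) (Icc s t) := fun i =>
    ((continuous_apply i).comp_continuousOn hec).mono hsub
  have hφ'c : ContinuousOn φ' (Icc s t) := by
    simp only [hφ', dotProduct, Matrix.mulVec]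
    refine (continuousOn_finsetSum _ fun i _ => ?_).add (continuousOn_finsetSum _ fun i _ => ?_)
    · exact (continuousOn_finsetSum _ fun j _ => (hAc i j).mul (hvc j)).mul (hei i)
    · exact (hvc i).mul (hdi i)
  have h1 := intervalIntegral.integral_eq_sub_of_hasDerivAt_of_le hst hφc
    (fun r hr => (hd r (Ioo_subset_Icc_self hr)).hasDerivAt (Icc_mem_nhds hr.1 hr.2))
    (hφ'c.intervalIntegrable_of_Icc hst)
  have h2 : |∫ r in s..t, φ' r| ≤ ∫ r in Ioo s t, g r := by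
    rw [intervalIntegral.integral_of_le hst, integral_Ioc_eq_integral_Ioo, ← Real.norm_eq_abs]
    refine norm_integral_le_of_norm_le hgi ?_
    refine (ae_restrict_iff' measurableSet_Ioo).2 (Eventually.of_forall fun r hr => ?_)
    refine le_trans ?_ (hg r hr)
    rw [Real.norm_eq_abs, hφ']
    simp only
    rw [dotProduct_comm ((grad (u r) (X r)).mulVec (vort (u r) (X r)))]
    exact abs_add_le _ _
  rw [h1] at h2
  have h3 := abs_sub_abs_le_abs_sub (φ t) (φ s)
  show |φ t| ≤ |φ s| + _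
  linarith

/-- **Growth of one component of the vorticity.** Only the points where the vorticity is larger
than `lam` matter. -/
theorem comp_growth (h : IsC2Solution T u p) {t₀ : ℝ} (ht₀ : t₀ ∈ Ioo 0 T)
    {e : ℝ → V} (he : ContDiffOn ℝ 1 e (Ioo 0 T)) (he1 : ∀ t ∈ Ioo 0 T, nrm (e t) = 1)
    {a M : ℝ → ℝ} {lam : ℝ}
    (hea : ∀ t ∈ Ioo 0 T, nrm (deriv e t) ≤ a t)
    (hga : ∀ t ∈ Ioo 0 T, ∀ x, lam < nrm (vort (u t) x) →
      |e t ⬝ᵥ (grad (u t) x).mulVec (vort (u t) x)| ≤ a t * nrm (vort (u t) x))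
    (hM : ∀ t ∈ Ioo 0 T, ∀ x, nrm (vort (u t) x) ≤ M t)
    (hi : ∀ t ∈ Ioo t₀ T, IntegrableOn (fun s => a s * M s) (Ioo t₀ t)) :
    ∀ t ∈ Ioo t₀ T, ∀ x,
      |vort (u t) x ⬝ᵥ e t| ≤ M t₀ + |lam| + 2 * ∫ s in Ioo t₀ t, a s * M s := by
  intro t ht x
  obtain ⟨X, hX, hXx⟩ := exists_traj h.sol ht₀.1.le ht.1.le ht.2 x
  have ha0 : ∀ r ∈ Ioo 0 T, 0 ≤ a r := fun r hr => (nrm_nonneg _).trans (hea r hr)
  have hM0 : ∀ r ∈ Ioo 0 T, 0 ≤ M r := fun r hr => (nrm_nonneg _).trans (hM r hr 0)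
  have hcomp : ∀ r ∈ Ioo 0 T, ∀ y, |vort (u r) y ⬝ᵥ e r| ≤ nrm (vort (u r) y) := by
    intro r hr y
    refine (dot_le _ _).trans ?_
    rw [he1 r hr, mul_one]
  -- the growth from a time `s` on
  have main : ∀ s ∈ Icc t₀ t, (∀ r ∈ Ioo s t, lam < nrm (vort (u r) (X r))) →
      |vort (u t) (X t) ⬝ᵥ e t| ≤ |vort (u s) (X s) ⬝ᵥ e s|
        + 2 * ∫ r in Ioo t₀ t, a r * M r := by
    intro s hs hr
    have hsub : Ioo s t ⊆ Ioo t₀ t := Ioo_subset_Ioo_left hs.1
    have hgi : IntegrableOn (fun s => 2 * (a s * M s)) (Ioo s t) :=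
      ((hi t ht).mono_set hsub).const_mul _
    have hs0 : 0 < s := ht₀.1.trans_le hs.1
    have key := comp_traj h hs0 hs.2 ht.2 (Pool.Agent.W786.Sv.IsTraj.mono hX (Icc_subset_Icc_left hs.1)) he hgi (by
      intro r hrI
      have hrT : r ∈ Ioo 0 T := ⟨hs0.trans hrI.1, hrI.2.trans ht.2⟩
      have h1 := hM r hrT (X r)
      have h0 := ha0 r hrT
      have h2 := hga r hrT (X r) (hr r hrI)
      have h3 : |vort (u r) (X r) ⬝ᵥ deriv e r| ≤ nrm (vort (u r) (X r)) * a r :=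
        (dot_le _ _).trans (mul_le_mul_of_nonneg_left (hea r hrT) (nrm_nonneg _))
      calc _ ≤ a r * nrm (vort (u r) (X r)) + nrm (vort (u r) (X r)) * a r := add_le_add h2 h3
        _ = 2 * (a r * nrm (vort (u r) (X r))) := by ring
        _ ≤ 2 * (a r * M r) := by gcongr)
    rw [integral_const_mul] at key
    refine key.trans (add_le_add le_rfl ?_)
    refine mul_le_mul_of_nonneg_left ?_ (by norm_num)
    refine setIntegral_mono_set (hi t ht) ?_ hsub.eventuallyLE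
    refine (ae_restrict_iff' measurableSet_Ioo).2 (Eventually.of_forall fun r hr => ?_)
    have hrT : r ∈ Ioo 0 T := ⟨ht₀.1.trans hr.1, hr.2.trans ht.2⟩
    exact mul_nonneg (ha0 r hrT) (hM0 r hrT)
  rw [← hXx]
  -- the last time at which the vorticity is at most `lam`
  set S : Set ℝ := {r ∈ Icc t₀ t | nrm (vort (u r) (X r)) ≤ lam} with hS
  have hAc : ∀ i j, ContinuousOn (fun r => grad (u r) (X r) i j) (Icc t₀ t) := fun i j =>
    vort_traj_cont h.sol ht₀.1.le ht.2 hX i j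
  have hvc : ∀ i, ContinuousOn (fun r => vort (u r) (X r) i) (Icc t₀ t) := fun i => cv_cont hAc i
  have hnc : ContinuousOn (fun r => nrm (vort (u r) (X r))) (Icc t₀ t) := by
    simp only [nrm, dotProduct]
    exact (continuousOn_finsetSum _ fun i _ => (hvc i).mul (hvc i)).sqrt
  have hSc : IsCompact S := by
    have h1 := hnc.preimage_isClosed_of_isClosed isClosed_Icc (isClosed_Iic (a := lam))
    refine isCompact_Icc.of_isClosed_subset ?_ fun r hr => hr.1
    exact h1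
  rcases S.eq_empty_or_nonempty with hSe | hSne
  · have h1 := main t₀ ⟨le_rfl, ht.1.le⟩ (fun r hr => by
      by_contra hcon
      push Not at hcon
      have : r ∈ S := ⟨⟨hr.1.le, hr.2.le⟩, hcon⟩
      rw [hSe] at this
      exact this)
    have h2 := (hcomp t₀ ht₀ (X t₀)).trans (hM t₀ ht₀ (X t₀))
    have h3 := abs_nonneg lam
    linarith
  · obtain ⟨hsI, hsl⟩ := hSc.sSup_mem hSne
    set s := sSup S with hs
    have h1 := main s hsI (fun r hr => by
      by_contra hcon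
      push Not at hcon
      have : r ∈ S := ⟨⟨hsI.1.trans hr.1.le, hr.2.le⟩, hcon⟩
      exact absurd (le_csSup hSc.bddAbove this) (not_le.2 hr.1))
    have hsT : s ∈ Ioo 0 T := ⟨ht₀.1.trans_le hsI.1, hsI.2.trans_lt ht.2⟩
    have h2 := (hcomp s hsT (X s)).trans hsl
    have h3 := le_abs_self lam
    have h4 := hM0 t₀ ht₀
    linarith

end Pool.Agent.Zk61.EU
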