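import Pool.Agent.Zk61.EU.Comp

/-!
# The maximum of one component of the vorticity
-/

open MeasureTheory Set Filter
open scoped ENNReal NNReal Topology

namespace Pool.Agent.Zk61.EU

open Pool.Agent.H708R2.EulerSign Pool.Agent.H708R2.EulerTypeI Pool.Agent.W786.Dir
  Pool.Agent.W786.Sv Pool.Agent.W786.Max

variable {T : ℝ} {u : ℝ → V → V} {p : ℝ → V → ℝ} {e : ℝ → V}

/-- A point where the component `ω · e` of the vorticity has its greatest absolute value. -/
def IsCompMax (u : ℝ → V → V) (e : ℝ → V) (t : ℝ) (z : V) : Prop :=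
  ∀ y, |vort (u t) y ⬝ᵥ e t| ≤ |vort (u t) z ⬝ᵥ e t|

/-- The maximum of the component `ω · e`. -/
noncomputable def Cx (u : ℝ → V → V) (e : ℝ → V) (t : ℝ) : ℝ := ⨆ x, |vort (u t) x ⬝ᵥ e t|

lemma comp_le (he1 : ∀ t ∈ Ioo 0 T, nrm (e t) = 1) {t : ℝ} (ht : t ∈ Ioo 0 T) (y : V) :
    |vort (u t) y ⬝ᵥ e t| ≤ nrm (vort (u t) y) := by
  refine (dot_le _ _).trans ?_
  rw [he1 t ht, mul_one]

lemma cx_bdd (h : IsClassicalSolution (Ico 0 T) u p) (he1 : ∀ t ∈ Ioo 0 T, nrm (e t) = 1) {t : ℝ}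
    (ht : t ∈ Ioo 0 T) : BddAbove (range fun x => |vort (u t) x ⬝ᵥ e t|) := by
  obtain ⟨C, hC0, hC⟩ := vort_bound h ht.2
  refine ⟨C, ?_⟩
  rintro _ ⟨x, rfl⟩
  exact (comp_le he1 ht x).trans (hC t ⟨ht.1.le, le_rfl⟩ x).1

lemma le_cx (h : IsClassicalSolution (Ico 0 T) u p) (he1 : ∀ t ∈ Ioo 0 T, nrm (e t) = 1) {t : ℝ}
    (ht : t ∈ Ioo 0 T) (x : V) : |vort (u t) x ⬝ᵥ e t| ≤ Cx u e t :=
  le_ciSup (cx_bdd h he1 ht) x

lemma cx_eq (h : IsClassicalSolution (Ico 0 T) u p) (he1 : ∀ t ∈ Ioo 0 T, nrm (e t) = 1) {t : ℝ}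
    (ht : t ∈ Ioo 0 T) {z : V} (hz : IsCompMax u e t z) : Cx u e t = |vort (u t) z ⬝ᵥ e t| :=
  le_antisymm (ciSup_le fun y => hz y) (le_cx h he1 ht z)

/-- The derivative of the component along a trajectory. -/
lemma comp_deriv (h : IsC2Solution T u p) {X : ℝ → V} {s t : ℝ} (hs : 0 < s)
    (ht : t < T) (hX : IsTraj u X s t) (he : ContDiffOn ℝ 1 e (Ioo 0 T)) {r : ℝ}
    (hr : r ∈ Icc s t) :
    HasDerivWithinAt (fun r => vort (u r) (X r) ⬝ᵥ e r)
      ((grad (u r) (X r)).mulVec (vort (u r) (X r)) ⬝ᵥ e r + vort (u r) (X r) ⬝ᵥ deriv e r)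
      (Icc s t) r := by
  have hsub : Icc s t ⊆ Ioo 0 T := fun r hr => ⟨hs.trans_le hr.1, hr.2.trans_lt ht⟩
  have hed : ∀ r ∈ Ioo 0 T, HasDerivAt e (deriv e r) r := fun r hr =>
    ((he.differentiableOn one_ne_zero).differentiableAt (isOpen_Ioo.mem_nhds hr)).hasDerivAt
  have h1 := vort_deriv h hX hsub hr
  have h2 : HasDerivWithinAt (fun r => ∑ i, vort (u r) (X r) i * e r i)
      (∑ i, ((grad (u r) (X r)).mulVec (vort (u r) (X r)) i * e r i
        + vort (u r) (X r) i * deriv e r i)) (Icc s t) r :=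
    HasDerivWithinAt.fun_sum fun i _ => (hasDerivWithinAt_pi.1 h1 i).mul
      (hasDerivWithinAt_pi.1 (hed r (hsub hr)).hasDerivWithinAt i)
  refine h2.congr_deriv ?_
  simp only [dotProduct, Finset.sum_add_distrib]

/-- A priori bound of the growth of the component. -/
lemma cx_incr (h : IsC2Solution T u p) (he : ContDiffOn ℝ 1 e (Ioo 0 T))
    (he1 : ∀ t ∈ Ioo 0 T, nrm (e t) = 1) {a b : ℝ} (ha : 0 < a) (hb : b < T) :
    ∃ C : ℝ, 0 ≤ C ∧ ∀ s ∈ Icc a b, ∀ t ∈ Icc a b, s ≤ t →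
      Cx u e t - Cx u e s ≤ C * (t - s) := by
  obtain ⟨C, hC0, hC⟩ := vort_bound h.sol hb
  have hsub : Icc a b ⊆ Ioo 0 T := fun r hr => ⟨ha.trans_le hr.1, hr.2.trans_lt hb⟩
  have hec : ContinuousOn (fun r => nrm (deriv e r)) (Icc a b) := by
    have h1 := (he.continuousOn_deriv_of_isOpen isOpen_Ioo le_rfl).mono hsub
    have h2 : ∀ i, ContinuousOn (fun r => deriv e r i) (Icc a b) := fun i =>
      (continuous_apply i).comp_continuousOn h1
    simp only [nrm, dotProduct]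
    exact (continuousOn_finsetSum _ fun i _ => (h2 i).mul (h2 i)).sqrt
  obtain ⟨D, hD⟩ := isCompact_Icc.bddAbove_image hec
  refine ⟨C + C * |D|, by positivity, fun s hs t ht hst => ?_⟩
  have htT := hsub ht
  have hsT := hsub hs
  have key : Cx u e t ≤ Cx u e s + (C + C * |D|) * (t - s) := by
    refine ciSup_le fun x => ?_
    obtain ⟨X, hX, hXx⟩ := exists_traj h.sol hsT.1.le hst htT.2 x
    have hcI : IntegrableOn (fun _ : ℝ => C + C * |D|) (Ioo s t) := integrableOn_const (by simp)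
    have h1 := comp_traj h hsT.1 hst htT.2 hX he hcI (by
      intro r hr
      have hrI : r ∈ Icc 0 b := ⟨hsT.1.le.trans hr.1.le, hr.2.le.trans ht.2⟩
      have hrab : r ∈ Icc a b := ⟨hs.1.trans hr.1.le, hr.2.le.trans ht.2⟩
      obtain ⟨c1, c2, -⟩ := hC r hrI (X r)
      refine add_le_add ?_ ?_
      · refine (dot_le _ _).trans ?_
        rw [he1 r (hsub hrab), one_mul]
        exact c2
      · refine (dot_le _ _).trans ?_
        have h2 : nrm (deriv e r) ≤ |D| := (hD ⟨r, hrab, rfl⟩).trans (le_abs_self D)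
        have h3 := nrm_nonneg (deriv e r)
        gcongr)
    rw [hXx] at h1
    refine h1.trans (add_le_add (le_cx h.sol he1 hsT _) (le_of_eq ?_))
    rw [setIntegral_const, measureReal_def, Real.volume_Ioo,
      ENNReal.toReal_ofReal (by linarith), smul_eq_mul, mul_comm]
  linarith

/-- The derivative of the maximum of the component at a maximum point. -/
lemma cx_deriv (h : IsC2Solution T u p) (he : ContDiffOn ℝ 1 e (Ioo 0 T))
    (he1 : ∀ t ∈ Ioo 0 T, nrm (e t) = 1) {t : ℝ} (ht : t ∈ Ioo 0 T) {z : V}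
    (hz : IsCompMax u e t z) {d : ℝ} (hd : HasDerivAt (Cx u e) d t) :
    d ≤ |e t ⬝ᵥ (grad (u t) z).mulVec (vort (u t) z)| + |vort (u t) z ⬝ᵥ deriv e t| := by
  obtain ⟨a', ha1, ha2⟩ := exists_between ht.1
  obtain ⟨X, hX, hXx⟩ := exists_traj h.sol ha1.le ha2.le ht.2 z
  have htI : t ∈ Icc a' t := ⟨ha2.le, le_rfl⟩
  set φ : ℝ → ℝ := fun r => vort (u r) (X r) ⬝ᵥ e r with hφ
  obtain ⟨σ, hσ1, hσ⟩ : ∃ σ : ℝ, |σ| = 1 ∧ |φ t| = σ * φ t := by
    rcases le_total 0 (φ t) with h0 | h0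
    · exact ⟨1, by simp, by rw [abs_of_nonneg h0, one_mul]⟩
    · exact ⟨-1, by simp, by rw [abs_of_nonpos h0]; ring⟩
  have h5 := (comp_deriv h ha1 ht.2 hX he htI).const_mul σ
  have h6 : HasDerivWithinAt (Cx u e) d (Icc a' t) t := hd.hasDerivWithinAt
  rw [hasDerivWithinAt_iff_tendsto_slope] at h5 h6
  have hne : (𝓝[Icc a' t \ {t}] t).NeBot := by
    have : Icc a' t \ {t} = Ico a' t := by
      ext s
      simp only [Set.mem_sdiff, mem_Icc, mem_singleton_iff, mem_Ico]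
      constructor
      · rintro ⟨⟨h1, h2⟩, h3⟩
        exact ⟨h1, lt_of_le_of_ne h2 h3⟩
      · rintro ⟨h1, h2⟩
        exact ⟨⟨h1, h2.le⟩, h2.ne⟩
    rw [this]
    exact right_nhdsWithin_Ico_neBot ha2
  have hle : d ≤ σ * ((grad (u t) (X t)).mulVec (vort (u t) (X t)) ⬝ᵥ e t
      + vort (u t) (X t) ⬝ᵥ deriv e t) := by
    refine le_of_tendsto_of_tendsto h6 h5 ?_
    filter_upwards [self_mem_nhdsWithin] with s hs
    have hst : s < t := lt_of_le_of_ne hs.1.2 hs.2
    have hsI : s ∈ Ioo 0 T := ⟨ha1.trans_le hs.1.1, hst.trans ht.2⟩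
    have e1 : Cx u e t = σ * φ t := by
      rw [← hσ, cx_eq h.sol he1 ht hz]
      simp only [hφ, hXx]
    have e2 : σ * φ s ≤ Cx u e s := by
      refine le_trans ?_ (le_cx h.sol he1 hsI (X s))
      calc σ * φ s ≤ |σ * φ s| := le_abs_self _
        _ = |φ s| := by rw [abs_mul, hσ1, one_mul]
    rw [slope_def_field, slope_def_field, e1]
    have hneg : s - t < 0 := by linarith
    rw [div_le_div_right_of_neg hneg]
    have e3 : σ * (vort (u s) (X s) ⬝ᵥ e s) = σ * φ s := rfl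
    have e4 : σ * (vort (u t) (X t) ⬝ᵥ e t) = σ * φ t := rfl
    linarith
  refine hle.trans ((le_abs_self _).trans ?_)
  rw [abs_mul, hσ1, one_mul, hXx, dotProduct_comm (e t)]
  exact abs_add_le _ _

/-- **Growth of the maximum of one component**, with the condition at one point. -/
theorem cx_growth (h : IsC2Solution T u p) (he : ContDiffOn ℝ 1 e (Ioo 0 T))
    (he1 : ∀ t ∈ Ioo 0 T, nrm (e t) = 1) {a b lam : ℝ} (ha : 0 < a) (hab : a ≤ b) (hb : b < T)
    {g : ℝ → ℝ} (hg0 : ∀ᵐ t, t ∈ Ioo a b → 0 ≤ g t) (hgi : IntegrableOn g (Icc a b))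
    (hyp : ∀ᵐ t, t ∈ Ioo a b → ∃ z, IsCompMax u e t z ∧ (lam < |vort (u t) z ⬝ᵥ e t| →
      |e t ⬝ᵥ (grad (u t) z).mulVec (vort (u t) z)| + |vort (u t) z ⬝ᵥ deriv e t| ≤ g t)) :
    Cx u e b ≤ max (Cx u e a) lam + ∫ t in a..b, g t := by
  have hin : ∀ r ∈ Icc a b, r ∈ Ioo 0 T := fun r hr => ⟨ha.trans_le hr.1, hr.2.trans_lt hb⟩
  have hg00 : ∀ s ∈ Icc a b, ∫ t in s..b, g t ≤ ∫ t in a..b, g t := by
    intro s hs
    rw [intervalIntegral.integral_of_le hs.2, intervalIntegral.integral_of_le hab,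
      integral_Ioc_eq_integral_Ioo, integral_Ioc_eq_integral_Ioo]
    refine setIntegral_mono_set (hgi.mono_set Ioo_subset_Icc_self)
      ((ae_restrict_iff' measurableSet_Ioo).2 hg0) (Ioo_subset_Ioo_left hs.1).eventuallyLE
  have hg01 : 0 ≤ ∫ t in a..b, g t := by
    rw [intervalIntegral.integral_of_le hab, integral_Ioc_eq_integral_Ioo]
    exact setIntegral_nonneg_ae measurableSet_Ioo hg0
  obtain ⟨C, hC0, hC⟩ := cx_incr h he he1 ha hb
  -- growth while above `lam`
  have main : ∀ s ∈ Icc a b, (∀ t ∈ Ioo s b, lam < Cx u e t) →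
      Cx u e b ≤ Cx u e s + ∫ t in a..b, g t := by
    intro s hs hlt
    have hsub : Icc s b ⊆ Icc a b := Icc_subset_Icc_left hs.1
    have h1 := growth_of_ae (L := Cx u e) (r := g) (a := s) (b := b) (C := C) hs.2
      (fun r hr t ht hrt => hC r (hsub hr) t (hsub ht) hrt)
      ((intervalIntegrable_iff_integrableOn_Icc_of_le hs.2).2 (hgi.mono_set hsub)) (by
        filter_upwards [hyp] with t ht htI d hd
        have htab : t ∈ Ioo a b := ⟨hs.1.trans_lt htI.1, htI.2⟩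
        have htT := hin t (Ioo_subset_Icc_self htab)
        obtain ⟨z, hz, hz2⟩ := ht htab
        refine (cx_deriv h he he1 htT hz hd).trans (hz2 ?_)
        rw [← cx_eq h.sol he1 htT hz]
        exact hlt t htI)
    have h2 := hg00 s hs
    linarith
  -- the last time below `lam`
  have hnc : ∀ y, ContinuousOn (fun t => |vort (u t) y ⬝ᵥ e t|) (Icc a b) := by
    intro y
    have hA : ∀ i j, ContinuousOn (fun t => grad (u t) y i j) (Icc a b) := by
      intro i j
      have h1 := grad_continuousOn h.sol i j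
      have h2 : Continuous fun t : ℝ => ((t, y) : ℝ × V) := by fun_prop
      exact h1.comp (s := Icc a b) h2.continuousOn
        fun t ht => ⟨⟨(hin t ht).1.le, (hin t ht).2⟩, mem_univ _⟩
    have hv : ∀ i, ContinuousOn (fun t => vort (u t) y i) (Icc a b) := fun i => cv_cont hA i
    have hei : ∀ i, ContinuousOn (fun r => e r i) (Icc a b) := fun i =>
      ((continuous_apply i).comp_continuousOn he.continuousOn).mono hin
    simp only [dotProduct]
    exact (continuousOn_finsetSum _ fun i _ => (hv i).mul (hei i)).abs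
  set S : Set ℝ := {t ∈ Icc a b | Cx u e t ≤ lam} with hS
  have hSc : IsCompact S := by
    have : IsClosed S := by
      have h1 : S = Icc a b ∩ ⋂ y, (Icc a b ∩ (fun t => |vort (u t) y ⬝ᵥ e t|) ⁻¹' Iic lam) := by
        ext t
        simp only [hS, mem_inter_iff, mem_iInter, mem_preimage, mem_Iic]
        constructor
        · rintro ⟨h1, h2⟩
          exact ⟨h1, fun y => ⟨h1, (le_cx h.sol he1 (hin t h1) y).trans h2⟩⟩
        · rintro ⟨h1, h2⟩
          exact ⟨h1, ciSup_le fun y => (h2 y).2⟩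
      rw [h1]
      exact isClosed_Icc.inter (isClosed_iInter fun y =>
        (hnc y).preimage_isClosed_of_isClosed isClosed_Icc isClosed_Iic)
    exact isCompact_Icc.of_isClosed_subset this fun t ht => ht.1
  rcases S.eq_empty_or_nonempty with hSe | hSne
  · have h1 := main a ⟨le_rfl, hab⟩ (fun t ht => by
      by_contra hcon
      push Not at hcon
      have : t ∈ S := ⟨⟨ht.1.le, ht.2.le⟩, hcon⟩
      rw [hSe] at this
      exact this)
    exact h1.trans (add_le_add (le_max_left _ _) le_rfl)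
  · obtain ⟨hsI, hsl⟩ := hSc.sSup_mem hSne
    set s := sSup S with hs
    have h1 := main s hsI (fun t ht => by
      by_contra hcon
      push Not at hcon
      have : t ∈ S := ⟨⟨hsI.1.trans ht.1.le, ht.2.le⟩, hcon⟩
      exact absurd (le_csSup hSc.bddAbove this) (not_le.2 ht.1))
    exact h1.trans (add_le_add (hsl.trans (le_max_right _ _)) le_rfl)

end Pool.Agent.Zk61.EU
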