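import Pool.Agent.Zk61.EU.Sup
import Pool.Agent.Zk61.EU.Comp

/-!
# From `1`-periodic smooth solutions to `2π`-periodic ones
-/

open MeasureTheory Set Filter
open scoped ContDiff Topology

namespace Pool.Agent.Zk61.EU

open Pool.Agent.H708R2.EulerSign Pool.Agent.H708R2.EulerTypeI Pool.Agent.W786.Dir
  Pool.Agent.W786.Max

/-- The rescaled velocity. -/
noncomputable def scU (s : ℝ) (u : ℝ → V → V) (t : ℝ) (x : V) : V :=
  (2 * Real.pi) • u (t + s) ((2 * Real.pi)⁻¹ • x)

/-- The rescaled pressure. -/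
noncomputable def scP (s : ℝ) (p : ℝ → V → ℝ) (t : ℝ) (x : V) : ℝ :=
  (2 * Real.pi) ^ 2 * p (t + s) ((2 * Real.pi)⁻¹ • x)

variable {T s : ℝ} {u : ℝ → V → V} {p : ℝ → V → ℝ}

lemma pi2_pos : 0 < 2 * Real.pi := by positivity

lemma scale_single (x : V) (i : Fin 3) :
    (2 * Real.pi)⁻¹ • (x + Pi.single i (2 * Real.pi)) = (2 * Real.pi)⁻¹ • x + Pi.single i 1 := by
  have := pi2_pos
  ext k
  by_cases hk : k = i
  · subst hk
    simp only [Pi.smul_apply, Pi.add_apply, Pi.single_eq_same, smul_eq_mul]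
    field_simp
  · simp [hk]

/-- The gradient of a rescaled field. -/
lemma grad_sc {v : V → V} (hv : Differentiable ℝ v) (x : V) :
    grad (fun x => (2 * Real.pi) • v ((2 * Real.pi)⁻¹ • x)) x = grad v ((2 * Real.pi)⁻¹ • x) := by
  have hp := pi2_pos
  have h1 : HasFDerivAt (fun x : V => (2 * Real.pi)⁻¹ • x)
      ((2 * Real.pi)⁻¹ • ContinuousLinearMap.id ℝ V) x :=
    ((2 * Real.pi)⁻¹ • ContinuousLinearMap.id ℝ V).hasFDerivAt
  have h2 := ((hv ((2 * Real.pi)⁻¹ • x)).hasFDerivAt.comp x h1).const_smul (2 * Real.pi)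
  have h3 : fderiv ℝ (fun x => (2 * Real.pi) • v ((2 * Real.pi)⁻¹ • x)) x
      = fderiv ℝ v ((2 * Real.pi)⁻¹ • x) := by
    have h4 : fderiv ℝ (fun x => (2 * Real.pi) • v ((2 * Real.pi)⁻¹ • x)) x = _ := h2.fderiv
    rw [h4]
    ext w
    simp only [ContinuousLinearMap.comp_smul, ContinuousLinearMap.comp_id, FunLike.coe_smul,
      Pi.smul_apply, smul_eq_mul]
    field_simp
  ext i j
  simp only [grad, Matrix.of_apply, h3]

lemma sol_diff (h : H459R3.NS.IsSol 0 T u p) {t : ℝ} (ht : t ∈ Ico 0 T) :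
    Differentiable ℝ (u t) :=
  differentiable_pi.2 fun i => (h.sp ht i).smooth.differentiable (by simp)

/-- The entries of the gradient. -/
lemma grad_pd {v : V → V} (hv : Differentiable ℝ v) (x : V) (i j : Fin 3) :
    grad v x i j = H459R3.NS.pd j (fun y => v y i) x := by
  have h2 := (hasFDerivAt_pi'.1 (hv x).hasFDerivAt i).fderiv
  unfold H459R3.NS.pd
  rw [h2]
  rfl

/-- The rescaled solution. -/
theorem sc_sol (h : H459R3.NS.IsSol 0 T u p) (hs : 0 < s) :
    IsC2Solution (T - s) (scU s u) (scP s p) := by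
  have hp := pi2_pos
  have hmap : ContDiff ℝ ∞ (fun z : ℝ × V => ((z.1 + s, (2 * Real.pi)⁻¹ • z.2) : ℝ × V)) := by
    fun_prop
  have hin : ∀ z ∈ Ico 0 (T - s) ×ˢ (univ : Set V),
      ((z.1 + s, (2 * Real.pi)⁻¹ • z.2) : ℝ × V) ∈ Ico 0 T ×ˢ (univ : Set V) := fun z hz =>
    ⟨⟨by linarith [hz.1.1], by linarith [hz.1.2]⟩, mem_univ _⟩
  have hU : ContDiffOn ℝ ∞ (fun z : ℝ × V => scU s u z.1 z.2) (Ico 0 (T - s) ×ˢ univ) :=
    (h.smooth_u.comp hmap.contDiffOn hin).const_smul (2 * Real.pi)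
  have hQ : ContDiffOn ℝ ∞ (fun z : ℝ × V => scP s p z.1 z.2) (Ico 0 (T - s) ×ˢ univ) :=
    contDiffOn_const.mul (h.smooth_p.comp hmap.contDiffOn hin)
  have hsub : Ioo 0 (T - s) ×ˢ (univ : Set V) ⊆ Ico 0 (T - s) ×ˢ univ :=
    prod_mono Ioo_subset_Ico_self subset_rfl
  refine ⟨⟨hU.of_le (by norm_cast), hQ.of_le (by norm_cast), ?_, ?_, ?_, ?_⟩,
    (hU.mono hsub).of_le (by norm_cast), (hQ.mono hsub).of_le (by norm_cast)⟩
  · intro t ht i x
    simp only [scU]
    rw [scale_single, h.per_u (t + s) ⟨by linarith [ht.1], by linarith [ht.2]⟩]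
  · intro t ht i x
    simp only [scP]
    rw [scale_single, h.per_p (t + s) ⟨by linarith [ht.1], by linarith [ht.2]⟩]
  · intro t ht x
    have hI : t + s ∈ Ico 0 T := ⟨by linarith [ht.1], by linarith [ht.2]⟩
    have h1 := h.divfree (t + s) hI ((2 * Real.pi)⁻¹ • x)
    unfold divergence
    have h2 : grad (scU s u t) x = grad (u (t + s)) ((2 * Real.pi)⁻¹ • x) :=
      grad_sc (sol_diff h hI) x
    rw [h2, Matrix.trace]
    simp only [Matrix.diag, grad_pd (sol_diff h hI)]
    exact h1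
  · intro t ht x i
    have hI : t + s ∈ Ico 0 T := ⟨by linarith [ht.1], by linarith [ht.2]⟩
    have hI' : t + s ∈ Ioo 0 T := ⟨by linarith [ht.1], by linarith [ht.2]⟩
    set y := (2 * Real.pi)⁻¹ • x with hy
    have hmom := h.momentum (t + s) hI' y i
    -- time derivative
    have hu1 : HasDerivAt (fun r => u r y i) (deriv (fun r => u r y i) (t + s)) (t + s) := by
      have hd := H459R3.NS.hasDerivAt_slice (F := fun r y => u r y i)
        (H459R3.NS.mono_Ioo (f := fun r y => u r y i) (h.smooth_c i) (by norm_cast)) hI' y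
      exact hd.differentiableAt.hasDerivAt
    have ht1 : HasDerivAt (fun r => scU s u r x i)
        ((2 * Real.pi) * deriv (fun r => u r y i) (t + s)) t := by
      have h1 : HasDerivAt (fun r : ℝ => r + s) 1 t := (hasDerivAt_id t).add_const s
      have h2 := (hu1.comp t h1).const_mul (2 * Real.pi)
      rw [mul_one] at h2
      exact h2
    have htd : derivWithin (fun r => scU s u r x i) (Ico 0 (T - s)) t
        = (2 * Real.pi) * deriv (fun r => u r y i) (t + s) :=
      ht1.hasDerivWithinAt.derivWithin ((uniqueDiffOn_Ico 0 (T - s)) t ht)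
    -- space derivatives
    have hg : ∀ j, fderiv ℝ (scU s u t) x (Pi.single j 1) i
        = H459R3.NS.pd j (fun z => u (t + s) z i) y := by
      intro j
      have h2 : grad (scU s u t) x = grad (u (t + s)) y := grad_sc (sol_diff h hI) x
      have h3 := congrFun (congrFun h2 i) j
      rw [grad_pd (sol_diff h hI)] at h3
      exact h3
    have hpr : fderiv ℝ (scP s p t) x (Pi.single i 1)
        = (2 * Real.pi) * H459R3.NS.pd i (p (t + s)) y := by
      have hpd : HasFDerivAt (p (t + s)) (fderiv ℝ (p (t + s)) y) y :=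
        ((h.sp_p hI).smooth.differentiable (by simp) y).hasFDerivAt
      have h1 : HasFDerivAt (fun x : V => (2 * Real.pi)⁻¹ • x)
          ((2 * Real.pi)⁻¹ • ContinuousLinearMap.id ℝ V) x :=
        ((2 * Real.pi)⁻¹ • ContinuousLinearMap.id ℝ V).hasFDerivAt
      have h2 := (hpd.comp x h1).const_mul ((2 * Real.pi) ^ 2)
      have h3 : fderiv ℝ (scP s p t) x = _ := h2.fderiv
      rw [h3]
      simp only [ContinuousLinearMap.comp_smul, ContinuousLinearMap.comp_id, FunLike.coe_smul,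
        Pi.smul_apply, smul_eq_mul, H459R3.NS.pd]
      field_simp
    rw [htd, hpr]
    simp only [hg]
    have hU0 : ∀ j, scU s u t x j = (2 * Real.pi) * u (t + s) y j := fun j => rfl
    simp only [hU0]
    rw [zero_mul, zero_sub] at hmom
    have e : ∑ j, 2 * Real.pi * u (t + s) y j * H459R3.NS.pd j (fun z => u (t + s) z i) y
        = 2 * Real.pi * ∑ j, u (t + s) y j * H459R3.NS.pd j (fun z => u (t + s) z i) y := by
      rw [Finset.mul_sum]
      exact Finset.sum_congr rfl fun j _ => by ring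
    rw [e, ← mul_add, hmom]
    ring

/-- The gradient of the rescaled solution. -/
lemma sc_grad (h : H459R3.NS.IsSol 0 T u p) {t : ℝ} (ht : t + s ∈ Ico 0 T) (x : V) :
    grad (scU s u t) x = grad (u (t + s)) ((2 * Real.pi)⁻¹ • x) :=
  grad_sc (sol_diff h ht) x

lemma sc_vort (h : H459R3.NS.IsSol 0 T u p) {t : ℝ} (ht : t + s ∈ Ico 0 T) (x : V) :
    vort (scU s u t) x = vort (u (t + s)) ((2 * Real.pi)⁻¹ • x) := by
  rw [vort_eq, vort_eq, sc_grad h ht]

end Pool.Agent.Zk61.EU
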