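import Pool.Agent.Zk61.EU.Hol

/-!
# The general criterion for smooth solutions
-/

open MeasureTheory Set Filter
open scoped ContDiff Topology

namespace Pool.Agent.Zk61.EU

open Pool.Agent.H708R2.EulerSign Pool.Agent.H708R2.EulerTypeI Pool.Agent.W786.Dir
  Pool.Agent.W786.Max

variable {T s : ℝ} {u : ℝ → V → V} {p : ℝ → V → ℝ}

lemma unscale (x : V) : (2 * Real.pi)⁻¹ • ((2 * Real.pi) • x) = x := by
  rw [smul_smul, inv_mul_cancel₀ pi2_pos.ne', one_smul]

lemma scale_max (h : H459R3.NS.IsSol 0 T u p) {t : ℝ} (ht : t + s ∈ Ico 0 T) {x : V}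
    (hx : IsMaxPt u (t + s) x) : IsMaxPt (scU s u) t ((2 * Real.pi) • x) := by
  intro y
  rw [sc_vort h ht, sc_vort h ht, unscale]
  exact hx _

/-- Integrability of negative powers. -/
lemma pow_int {a μ : ℝ} (ha : a ≤ T) (hμ : μ < 1) :
    IntegrableOn (fun t => (T - t) ^ (-μ)) (Ioo a T) := by
  have h1 : IntervalIntegrable (fun x : ℝ => x ^ (-μ)) volume 0 (T - a) :=
    intervalIntegral.intervalIntegrable_rpow' (by linarith)
  have h2 := h1.comp_sub_left T
  rw [sub_zero, sub_sub_cancel] at h2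
  have h3 := (intervalIntegrable_iff_integrableOn_Ioc_of_le ha).1 h2.symm
  exact h3.mono_set Ioo_subset_Ioc_self

/-! ## The criterion of Beale, Kato and Majda -/

/-- The velocity gradient is controlled by the vorticity. -/
lemma gb_of_vort (h : H459R3.NS.IsSol 0 T u p) {t : ℝ} (ht : t ∈ Ioo 0 T) {Ω : ℝ}
    (hΩ : ∀ x, nrm (vort (u t) x) ≤ Ω) :
    Kt.GB (u t) (Cr * (1 + Ω * ell (1 / 4) (Nh (u t))) + Ω) := by
  set s := t / 2 with hs
  have hs0 : 0 < s := by have := ht.1; positivity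
  have hsol := sc_sol h hs0
  have e1 : t - s + s = t := by ring
  have hI : t - s + s ∈ Ico 0 T := ⟨by rw [e1]; exact ht.1.le, by rw [e1]; exact ht.2⟩
  have hts : t - s ∈ Ioo 0 (T - s) := ⟨by rw [hs]; linarith [ht.1], by linarith [ht.2]⟩
  have hts' : t - s ∈ Ico 0 (T - s) := ⟨hts.1.le, hts.2⟩
  intro x i j
  have hσ : ∀ e : V, e ⬝ᵥ e = 1 → |e ⬝ᵥ (grad (u t) x).mulVec e|
      ≤ Cr * (1 + Ω * ell (1 / 4) (Nh (u t))) := by
    intro e he
    have key := EU.rate_le (v := scU s u (t - s)) (N := Nh (u (t - s + s))) (γ := 1 / 4) (Ω := Ω)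
      (e := e) (slice_two hsol hts) (hsol.sol.periodic_u _ hts') (hsol.sol.div_free _ hts')
      (one_le_Nh _) (by norm_num) (by norm_num) (hg_sc h hI) (fun y => by
        rw [sc_vort h hI, e1]
        exact hΩ _) he ((2 * Real.pi) • x)
    rw [sc_grad h hI, unscale, e1] at key
    exact key
  have key := entry_le hσ (hΩ x) i j
  rw [grad_pd (sol_diff h ⟨ht.1.le, ht.2⟩)] at key
  exact key

/-- **The criterion of Beale, Kato and Majda.** -/
theorem bkm (h : H459R3.NS.IsSol 0 T u p) {t₀ : ℝ} (ht₀ : t₀ ∈ Ico 0 T) {Ω : ℝ → ℝ}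
    (hΩi : IntegrableOn Ω (Ioo t₀ T)) (hΩ : ∀ t ∈ Ioo t₀ T, ∀ x, nrm (vort (u t) x) ≤ Ω t) :
    ∃ M, ∀ t ∈ Ico 0 T, H459R3.EU.dsq (u t) ≤ M := by
  have hC7 := Real.sqrt_nonneg Pool.Agent.TH340.PS.C7
  set c7 := Real.log (1 + 18 * Real.sqrt Pool.Agent.TH340.PS.C7) with hc7
  have hc70 : 0 ≤ c7 := Real.log_nonneg (by linarith)
  have hCr := Cr_pos
  set B := 54432 * (Cr + (5 * Cr * (c7 + 1) + 1)) with hB
  have hB0 : 0 < B := by positivity
  -- the logarithm of the norm of the third derivatives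
  set z : ℝ → ℝ := fun t => 1 + Real.log (1 + H459R3.EU.dsq (u t)) with hz
  have hd0 : ∀ t, 0 ≤ H459R3.EU.dsq (u t) := fun t => H459R3.EU.dsq_nonneg _
  have hz1 : ∀ t, 1 ≤ z t := fun t => by
    have := Real.log_nonneg (show (1 : ℝ) ≤ 1 + H459R3.EU.dsq (u t) by linarith [hd0 t])
    simp only [hz]
    linarith
  have hell : ∀ t, ell (1 / 4) (Nh (u t)) ≤ 5 * (c7 + 1) * z t := by
    intro t
    have h1 : Nh (u t) ≤ (1 + 18 * Real.sqrt Pool.Agent.TH340.PS.C7)
        * (1 + H459R3.EU.dsq (u t)) := by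
      have h2 : Real.sqrt (H459R3.EU.dsq (u t)) ≤ 1 + H459R3.EU.dsq (u t) := by
        have h3 := Real.sq_sqrt (hd0 t)
        nlinarith [sq_nonneg (Real.sqrt (H459R3.EU.dsq (u t)) - 1), Real.sqrt_nonneg (H459R3.EU.dsq (u t))]
      unfold Nh
      have h4 : 18 * Real.sqrt Pool.Agent.TH340.PS.C7 * Real.sqrt (H459R3.EU.dsq (u t))
          ≤ 18 * Real.sqrt Pool.Agent.TH340.PS.C7 * (1 + H459R3.EU.dsq (u t)) := by gcongr
      have := hd0 t
      nlinarith
    have h5 : Real.log (Nh (u t)) ≤ c7 + Real.log (1 + H459R3.EU.dsq (u t)) := by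
      have := Real.log_le_log (by linarith [one_le_Nh (u t)]) h1
      rwa [Real.log_mul (by positivity) (by linarith [hd0 t])] at this
    have h6 := hz1 t
    have h7 : Real.log (1 + H459R3.EU.dsq (u t)) = z t - 1 := by simp only [hz]; ring
    unfold ell
    norm_num
    rw [h7] at h5
    nlinarith [mul_nonneg hc70 (by linarith : (0 : ℝ) ≤ z t - 1)]
  have hzc : ContinuousOn z (Ico 0 T) := by
    have h1 := H459R3.EU.dsq_continuousOn h
    refine continuousOn_const.add ((continuousOn_const.add h1).log fun t _ => ?_)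
    have h2 : 0 < 1 + H459R3.EU.dsq (u t) := by linarith [hd0 t]
    exact h2.ne'
  -- the initial time
  obtain ⟨Z, hZ⟩ := isCompact_Icc.bddAbove_image (hzc.mono (Icc_subset_Ico_right ht₀.2))
  have hmain : ∀ t ∈ Ioo t₀ T, z t ≤ z t₀ * Real.exp (B * ∫ r in Ioo t₀ T, (1 + |Ω r|)) := by
    intro t ht
    set y : ℝ → ℝ := fun r => z (r + t₀) with hy
    have hin : ∀ r ∈ Ioo 0 (t - t₀), r + t₀ ∈ Ioo 0 T ∧ r + t₀ ∈ Ioo t₀ T := fun r hr =>
      ⟨⟨by linarith [hr.1, ht₀.1], by linarith [hr.2, ht.2]⟩,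
        ⟨by linarith [hr.1], by linarith [hr.2, ht.2]⟩⟩
    set D : ℝ → ℝ := fun r => deriv (fun q => H459R3.EU.dsq (u q)) (r + t₀)
      / (1 + H459R3.EU.dsq (u (r + t₀))) with hD
    have hyc : ContinuousOn y (Icc 0 (t - t₀)) := by
      refine hzc.comp (by fun_prop) fun r hr => ⟨?_, ?_⟩
      · linarith [hr.1, ht₀.1]
      · linarith [hr.2, ht.2]
    have hyd : ∀ r ∈ Ioo 0 (t - t₀), HasDerivAt y (D r) r := by
      intro r hr
      have h1 := H459R3.EU.dsq_hasDerivAt h (hin r hr).1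
      have h2 : HasDerivAt (fun q => z q) (deriv (fun q => H459R3.EU.dsq (u q)) (r + t₀)
          / (1 + H459R3.EU.dsq (u (r + t₀)))) (r + t₀) := by
        have h3 := (h1.differentiableAt.hasDerivAt.const_add 1).log (by
          have := hd0 (r + t₀)
          linarith)
        exact h3.const_add 1
      have h4 : HasDerivAt (fun r : ℝ => r + t₀) 1 r := (hasDerivAt_id r).add_const t₀
      have h5 := h2.comp r h4
      rw [mul_one] at h5
      exact h5
    set g : ℝ → ℝ := fun r => B * (1 + |Ω (r + t₀)|) with hg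
    have hgT : IntegrableOn (fun r => B * (1 + |Ω r|)) (Ioo t₀ T) :=
      ((integrableOn_const (C := (1 : ℝ)) (by simp)).add hΩi.abs).const_mul B
    have hmp : MeasurePreserving (fun r : ℝ => r + t₀) volume volume :=
      measurePreserving_add_right volume t₀
    have hpre : (fun r : ℝ => r + t₀) ⁻¹' Ioo t₀ t = Ioo 0 (t - t₀) := by
      ext r
      simp only [mem_preimage, mem_Ioo]
      constructor
      · rintro ⟨h1, h2⟩
        exact ⟨by linarith, by linarith⟩
      · rintro ⟨h1, h2⟩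
        exact ⟨by linarith, by linarith⟩
    have hgi : IntegrableOn g (Ioo 0 (t - t₀)) := by
      rw [← hpre]
      exact (hmp.integrableOn_comp_preimage (measurableEmbedding_addRight t₀)).2
        (hgT.mono_set (Ioo_subset_Ioo_right ht.2.le))
    have htt : 0 ≤ t - t₀ := by linarith [ht.1]
    have hgB : ∫ r in (0 : ℝ)..(t - t₀), g r ≤ B * ∫ r in Ioo t₀ T, (1 + |Ω r|) := by
      rw [intervalIntegral.integral_of_le htt, integral_Ioc_eq_integral_Ioo, ← hpre,
        ← integral_const_mul]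
      have h1 := hmp.setIntegral_preimage_emb (measurableEmbedding_addRight t₀)
        (fun r => B * (1 + |Ω r|)) (Ioo t₀ t)
      simp only [hg]
      rw [h1]
      refine setIntegral_mono_set hgT ?_ (Ioo_subset_Ioo_right ht.2.le).eventuallyLE
      exact Eventually.of_forall fun r => by
        simp only [Pi.zero_apply]
        positivity
    have key := H459R3.EU.gron (y := y) (D := D) (g := g) htt
      (fun r => by have := hz1 (r + t₀); simp only [hy]; linarith) hyc hyd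
      (fun r _ => by simp only [hg]; positivity)
      (by rwa [integrableOn_Icc_iff_integrableOn_Ioo]) hgB (by
        intro r hr
        obtain ⟨hr1, hr2⟩ := hin r hr
        have hrI : r + t₀ ∈ Ico 0 T := ⟨hr1.1.le, hr1.2⟩
        set q := r + t₀ with hq
        have hΩ0 : 0 ≤ Ω q := (nrm_nonneg _).trans (hΩ q hr2 0)
        have hGB := gb_of_vort h hr1 (hΩ q hr2)
        have h1 := H459R3.EU.dsq_hasDerivAt h hr1
        have hcmp := Kt.cmp_zero hGB
        have k := hcmp.prod_le zero_le_one (fun i => h.sp hrI i) (h.divfree q hrI)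
        rw [H459R3.EU.prod_eq] at k
        have hdd : deriv (fun q => H459R3.EU.dsq (u q)) q
            ≤ 54432 * (Cr * (1 + Ω q * ell (1 / 4) (Nh (u q))) + Ω q)
              * H459R3.EU.dsq (u q) := by
          rw [h1.deriv]
          nlinarith
        have hdpos : 0 < 1 + H459R3.EU.dsq (u q) := by linarith [hd0 q]
        simp only [hD, hg, hy]
        rw [div_le_iff₀ hdpos]
        refine hdd.trans ?_
        have hz1q := hz1 q
        have hellq := hell q
        have e2 : Cr * (1 + Ω q * ell (1 / 4) (Nh (u q))) + Ω q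
            ≤ (Cr + (5 * Cr * (c7 + 1) + 1)) * (1 + |Ω q|) * z q := by
          rw [abs_of_nonneg hΩ0]
          have a1 : Ω q * ell (1 / 4) (Nh (u q)) ≤ Ω q * (5 * (c7 + 1) * z q) := by gcongr
          have a2 : Cr * (1 + Ω q * ell (1 / 4) (Nh (u q)))
              ≤ Cr * (1 + Ω q * (5 * (c7 + 1) * z q)) := by gcongr
          refine (add_le_add a2 le_rfl).trans ?_
          have b1 : 0 ≤ Cr * Ω q * z q := by positivity
          have b2 : Cr ≤ Cr * z q := le_mul_of_one_le_right hCr.le hz1q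
          have b3 : Ω q ≤ Ω q * z q := le_mul_of_one_le_right hΩ0 hz1q
          have b4 : 0 ≤ (5 * Cr * (c7 + 1) + 1) * z q := by positivity
          nlinarith
        have e3 : 0 ≤ (Cr + (5 * Cr * (c7 + 1) + 1)) * (1 + |Ω q|) * z q := by positivity
        calc 54432 * (Cr * (1 + Ω q * ell (1 / 4) (Nh (u q))) + Ω q) * H459R3.EU.dsq (u q)
            ≤ 54432 * ((Cr + (5 * Cr * (c7 + 1) + 1)) * (1 + |Ω q|) * z q)
              * (1 + H459R3.EU.dsq (u q)) := by
              have := hd0 q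
              have h5 : H459R3.EU.dsq (u q) ≤ 1 + H459R3.EU.dsq (u q) := by linarith
              gcongr
          _ = B * (1 + |Ω q|) * z q * (1 + H459R3.EU.dsq (u q)) := by rw [hB]; ring)
    simp only [hy, zero_add, sub_add_cancel] at key
    exact key
  refine ⟨Real.exp (max Z (z t₀ * Real.exp (B * ∫ r in Ioo t₀ T, (1 + |Ω r|)))), fun t ht => ?_⟩
  have hzt : z t ≤ max Z (z t₀ * Real.exp (B * ∫ r in Ioo t₀ T, (1 + |Ω r|))) := by
    rcases le_or_gt t t₀ with h1 | h1
    · exact (hZ ⟨t, ⟨ht.1, h1⟩, rfl⟩).trans (le_max_left _ _)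
    · exact (hmain t ⟨h1, ht.2⟩).trans (le_max_right _ _)
  have h2 : Real.log (1 + H459R3.EU.dsq (u t)) ≤ z t := by simp only [hz]; linarith
  have h3 : 1 + H459R3.EU.dsq (u t) ≤ Real.exp (z t) := by
    have := Real.exp_le_exp.2 h2
    rwa [Real.exp_log (by linarith [hd0 t])] at this
  have h4 := Real.exp_le_exp.2 hzt
  linarith

/-! ## The criterion with a rate -/

/-- The condition at one point for a smooth field. -/
def GoodR (v : V → V) (x : V) (ρ : ℝ) : Prop :=
  ∃ (e : V) (b m : ℝ), e ⬝ᵥ e = 1 ∧ |vort v x ⬝ᵥ e| ≤ b ∧ |e ⬝ᵥ (grad v x).mulVec e| ≤ b ∧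
    0 ≤ m ∧ (∀ f, f ⬝ᵥ f = 1 → e ⬝ᵥ f = 0 →
      |f ⬝ᵥ (grad v x).mulVec f - cross e f ⬝ᵥ (grad v x).mulVec (cross e f)|
        ≤ Cp * (1 + m + b * (1 + ell (1 / 4) (Nh v)))) ∧
    Cg * (1 + m + b * (1 + ell (1 / 4) (Nh v))) ≤ ρ

lemma GoodR.mono {v : V → V} {x : V} {ρ ρ' : ℝ} (h : GoodR v x ρ) (hρ : ρ ≤ ρ') : GoodR v x ρ' := by
  obtain ⟨e, b, m, h1, h2, h3, h4, h5, h6⟩ := h
  exact ⟨e, b, m, h1, h2, h3, h4, h5, h6.trans hρ⟩

lemma GoodR.good (h : H459R3.NS.IsSol 0 T u p) {t : ℝ} (ht : t + s ∈ Ico 0 T) {x : V} {ρ : ℝ}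
    (hg : GoodR (u (t + s)) x ρ) : Good (1 / 4) (scU s u t) ((2 * Real.pi) • x) ρ := by
  obtain ⟨e, b, m, he, h1, h2, hm, h3, hρ⟩ := hg
  refine ⟨Nh (u (t + s)), e, b, m, one_le_Nh _, hg_sc h ht, he, ?_, ?_, hm, ?_, hρ⟩
  · rw [sc_vort h ht, unscale]
    exact h1
  · rw [sc_grad h ht, unscale]
    exact h2
  · intro f hf hef
    rw [sc_grad h ht, unscale]
    exact h3 f hf hef

/-- **The general criterion.** -/
theorem gen (h : H459R3.NS.IsSol 0 T u p) {t₀ : ℝ} (ht₀ : t₀ ∈ Ico 0 T) {ρ : ℝ → ℝ}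
    (hρi : ∀ b ∈ Ioo t₀ T, IntegrableOn ρ (Icc t₀ b)) (hρ0 : ∀ t ∈ Ioo t₀ T, 0 ≤ ρ t) {C : ℝ}
    (hρC : ∀ b ∈ Ioo t₀ T, ∫ t in t₀..b, ρ t ≤ C + 1 / 2 * Lf T b)
    (hyp : ∀ᵐ t, t ∈ Ioo t₀ T → ∃ x, IsMaxPt u t x ∧ GoodR (u t) x (ρ t)) :
    ∃ M, ∀ t ∈ Ico 0 T, H459R3.EU.dsq (u t) ≤ M := by
  set s := (t₀ + T) / 2 with hs
  have hst : t₀ < s := by rw [hs]; linarith [ht₀.2]
  have hsT : s < T := by rw [hs]; linarith [ht₀.2]
  have hs0 : 0 < s := ht₀.1.trans_lt hst
  have hsol := sc_sol h hs0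
  obtain ⟨W, hW0, hW⟩ := vort_bound hsol.sol (b := 0) (by linarith)
  set K := max 1 W with hK
  have hae : ∀ᵐ t : ℝ, t + s ∈ Ioo t₀ T → ∃ x, IsMaxPt u (t + s) x ∧
      GoodR (u (t + s)) x (ρ (t + s)) :=
    (measurePreserving_add_right volume s).quasiMeasurePreserving.ae hyp
  have hmp : MeasurePreserving (fun r : ℝ => r + s) volume volume :=
    measurePreserving_add_right volume s
  have hω : ∀ t ∈ Ioo s T, ∀ x, nrm (vort (u t) x)
      ≤ K * Real.exp C * (T - t) ^ (-(1 / 2) : ℝ) := by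
    intro t ht x
    have hts : 0 ≤ t - s := by linarith [ht.1]
    have hpre : (fun r : ℝ => r + s) ⁻¹' Icc s t = Icc 0 (t - s) := by
      ext r
      simp only [mem_preimage, mem_Icc]
      constructor
      · rintro ⟨h1, h2⟩
        exact ⟨by linarith, by linarith⟩
      · rintro ⟨h1, h2⟩
        exact ⟨by linarith, by linarith⟩
    have htI : t ∈ Ioo t₀ T := ⟨hst.trans ht.1, ht.2⟩
    have hρt := hρi t htI
    have hρst : IntegrableOn ρ (Icc s t) := hρt.mono_set (Icc_subset_Icc_left hst.le)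
    have hi : IntegrableOn (fun r => ρ (r + s)) (Icc 0 (t - s)) := by
      rw [← hpre]
      exact (hmp.integrableOn_comp_preimage (measurableEmbedding_addRight s)).2 hρst
    have key := bound hsol (γ := 1 / 4) (by norm_num) (by norm_num) le_rfl hts
      (by linarith [ht.2]) hi
      (fun r hr => hρ0 _ ⟨by linarith [hr.1], by linarith [hr.2, ht.2]⟩) (by
        filter_upwards [hae] with r hr hrI
        have m1 : r + s ∈ Ioo t₀ T := ⟨by linarith [hrI.1], by linarith [hrI.2, ht.2]⟩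
        have m2 : r + s ∈ Ico 0 T := ⟨by linarith [hrI.1], m1.2⟩
        obtain ⟨y, hy, hg⟩ := hr m1
        exact ⟨(2 * Real.pi) • y, scale_max h m2 hy, hg.good h m2⟩) (K := K) (le_max_left _ _)
      (fun y => ((hW 0 ⟨le_rfl, le_rfl⟩ y).1).trans (le_max_right _ _)) ((2 * Real.pi) • x)
    have hI : t - s + s ∈ Ico 0 T := ⟨by linarith [ht.1], by linarith [ht.2]⟩
    rw [sc_vort h hI, unscale, sub_add_cancel] at key
    refine key.trans ?_
    have e1 : ∫ r in (0 : ℝ)..(t - s), ρ (r + s) = ∫ r in s..t, ρ r := by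
      rw [intervalIntegral.integral_comp_add_right, zero_add, sub_add_cancel]
    have e2 : ∫ r in s..t, ρ r ≤ ∫ r in t₀..t, ρ r := by
      have i1 : IntervalIntegrable ρ volume t₀ s :=
        (intervalIntegrable_iff_integrableOn_Icc_of_le hst.le).2
          (hρt.mono_set (Icc_subset_Icc_right ht.1.le))
      have i2 : IntervalIntegrable ρ volume s t :=
        (intervalIntegrable_iff_integrableOn_Icc_of_le ht.1.le).2 hρst
      have h1 := intervalIntegral.integral_add_adjacent_intervals i1 i2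
      have h2 : 0 ≤ ∫ r in t₀..s, ρ r := by
        rw [intervalIntegral.integral_of_le hst.le, integral_Ioc_eq_integral_Ioo]
        exact setIntegral_nonneg measurableSet_Ioo fun r hr => hρ0 r ⟨hr.1, hr.2.trans hsT⟩
      linarith
    have e3 := hρC t htI
    have e4 : (T - t) ^ (-(1 / 2) : ℝ) = Real.exp (1 / 2 * Lf T t) := by
      rw [Real.rpow_def_of_pos (by linarith [ht.2])]
      unfold Lf
      congr 1
      ring
    rw [e4, mul_assoc K, ← Real.exp_add, e1]
    have := Real.exp_le_exp.2 (e2.trans e3)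
    gcongr
  exact bkm h (t₀ := s) ⟨hs0.le, hsT⟩ ((pow_int hsT.le (by norm_num)).const_mul _) hω

/-- The condition at the centre of a disc. -/
lemma good_disc (h : H459R3.NS.IsSol 0 T u p) {t : ℝ} (ht : t ∈ Ioo 0 T) {x e : V} {b R M : ℝ}
    (he : nrm e = 1) (hR : 0 < R)
    (h1 : ∀ y, e ⬝ᵥ (y - x) = 0 → nrm (y - x) < R → |vort (u t) y ⬝ᵥ e| ≤ b ∧
      |e ⬝ᵥ (grad (u t) y).mulVec e| ≤ b ∧ nrm (u t y - u t x) ≤ M) :
    GoodR (u t) x (Cg * (1 + 2 * Real.pi * M / R + b * (1 + ell (1 / 4) (Nh (u t))))) := by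
  have hee : e ⬝ᵥ e = 1 := by rw [← nrm_sq, he, one_pow]
  have hx := h1 x (by simp) (by rw [sub_self]; simpa [nrm] using hR)
  have hM : 0 ≤ M := (nrm_nonneg _).trans hx.2.2
  have hp := pi2_pos
  refine ⟨e, b, 2 * Real.pi * M / R, hee, hx.1, hx.2.1, by positivity, fun f hf hef => ?_, le_rfl⟩
  set s := t / 2 with hs
  have hs0 : 0 < s := by have := ht.1; positivity
  have hsol := sc_sol h hs0
  have e1 : t - s + s = t := by ring
  have hI : t - s + s ∈ Ico 0 T := ⟨by rw [e1]; exact ht.1.le, by rw [e1]; exact ht.2⟩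
  have hts : t - s ∈ Ioo 0 (T - s) := ⟨by rw [hs]; linarith [ht.1], by linarith [ht.2]⟩
  have hts' : t - s ∈ Ico 0 (T - s) := ⟨hts.1.le, hts.2⟩
  have key := disc_strain (v := scU s u (t - s)) (N := Nh (u (t - s + s))) (γ := 1 / 4)
    (x := (2 * Real.pi) • x) (β := b) (R := R) (M := 2 * Real.pi * M) (slice_two hsol hts)
    (hsol.sol.periodic_u _ hts')
    (hsol.sol.div_free _ hts') (one_le_Nh _) (by norm_num) (by norm_num) (hg_sc h hI) hee hR
    (fun y hy hyR => by
      have e2 : (2 * Real.pi)⁻¹ • y - x = (2 * Real.pi)⁻¹ • (y - (2 * Real.pi) • x) := by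
        rw [smul_sub, unscale]
      have hin : nrm ((2 * Real.pi)⁻¹ • y - x) < R := by
        rw [e2, nrm_smul, abs_of_pos (inv_pos.2 hp)]
        have h2 : (2 * Real.pi)⁻¹ ≤ 1 := inv_le_one_of_one_le₀ (by
          have := Real.pi_gt_three; linarith)
        have h3 := nrm_nonneg (y - (2 * Real.pi) • x)
        calc (2 * Real.pi)⁻¹ * nrm (y - (2 * Real.pi) • x)
            ≤ 1 * nrm (y - (2 * Real.pi) • x) := by gcongr
          _ = nrm (y - (2 * Real.pi) • x) := one_mul _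
          _ < R := hyR
      have k := h1 ((2 * Real.pi)⁻¹ • y) (by rw [e2, dotProduct_smul, hy, smul_zero]) hin
      rw [sc_vort h hI, sc_grad h hI, e1]
      refine ⟨k.1, k.2.1, ?_⟩
      have e3 : scU s u (t - s) y - scU s u (t - s) ((2 * Real.pi) • x)
          = (2 * Real.pi) • (u t ((2 * Real.pi)⁻¹ • y) - u t x) := by
        simp only [scU, unscale, e1, smul_sub]
      rw [e3, nrm_smul, abs_of_pos hp]
      have := k.2.2
      gcongr) hf hef
  rw [sc_grad h hI, unscale, e1] at key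
  exact key

end Pool.Agent.Zk61.EU
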