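import Pool.Agent.Zk61.EU.Growth

/-!
# The bound of the velocity gradient
-/

open MeasureTheory Set Filter
open scoped ENNReal NNReal Topology

namespace Pool.Agent.Zk61.EU

open Pool.Agent.H708R2.EulerSign Pool.Agent.H708R2.EulerTypeI Pool.Agent.W786.Dir
  Pool.Agent.W786.Sv Pool.Agent.W786.Max

lemma single_dot (i : Fin 3) : (Pi.single i 1 : V) ⬝ᵥ Pi.single i 1 = 1 := by simp

lemma single_mulVec (A : Matrix (Fin 3) (Fin 3) ℝ) (i j : Fin 3) :
    (Pi.single i 1 : V) ⬝ᵥ A.mulVec (Pi.single j 1) = A i j := by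
  simp

/-- The entries of a matrix are bounded by the quadratic form and the antisymmetric part. -/
lemma entry_le {A : Matrix (Fin 3) (Fin 3) ℝ} {σ Ω : ℝ}
    (hσ : ∀ h : V, h ⬝ᵥ h = 1 → |h ⬝ᵥ A.mulVec h| ≤ σ) (hΩ : nrm (cv A) ≤ Ω) (i j : Fin 3) :
    |A i j| ≤ σ + Ω := by
  have hΩ0 : 0 ≤ Ω := (nrm_nonneg _).trans hΩ
  rcases eq_or_ne i j with hij | hij
  · subst hij
    have h1 := hσ _ (single_dot i)
    rw [single_mulVec] at h1
    linarith
  · have h1 := mixed_le (single_dot i) (single_dot j) (by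
      simp [Pi.single_apply, hij]) hσ
    rw [single_mulVec, single_mulVec] at h1
    have h2 : |A i j - A j i| ≤ Ω := by
      have a0 := (abs_le_nrm (cv A) 0).trans hΩ
      have a1 := (abs_le_nrm (cv A) 1).trans hΩ
      have a2 := (abs_le_nrm (cv A) 2).trans hΩ
      simp only [cv, Matrix.cons_val_zero, Matrix.cons_val_one, Matrix.cons_val] at a0 a1 a2
      fin_cases i <;> fin_cases j <;> simp at hij ⊢ <;>
        first
          | exact a0
          | exact a1
          | exact a2
          | (rw [abs_sub_comm]; exact a0)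
          | (rw [abs_sub_comm]; exact a1)
          | (rw [abs_sub_comm]; exact a2)
    rw [abs_le] at h1 h2 ⊢
    constructor <;> linarith [h1.1, h1.2, h2.1, h2.2]

end Pool.Agent.Zk61.EU
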