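import Pool.Agent.Zk61.EU.Rate
import Pool.Agent.W786.Max4

/-!
# Growth of the vorticity
-/

open MeasureTheory Set Filter
open scoped ENNReal NNReal Topology

namespace Pool.Agent.Zk61.EU

open Pool.Agent.H708R2.EulerSign Pool.Agent.H708R2.EulerTypeI Pool.Agent.W786.Dir
  Pool.Agent.W786.Sv Pool.Agent.W786.Max

variable {T : ℝ} {u : ℝ → V → V} {p : ℝ → V → ℝ} {γ : ℝ}

/-- The condition at one point: a unit vector `e` such that the components `ω · e` and `e · ∇v e` at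
the point are at most `β` and the strain in the plane normal to `e` is at most
`Cp (1 + m + β (1 + ell))`, for a field with a Hölder bound, and `Cg (1 + m + β (1 + ell)) ≤ ρ`. -/
def Good (γ : ℝ) (v : V → V) (x : V) (ρ : ℝ) : Prop :=
  ∃ (N : ℝ) (e : V) (β m : ℝ), 1 ≤ N ∧ HG v N γ ∧ e ⬝ᵥ e = 1 ∧ |vort v x ⬝ᵥ e| ≤ β ∧
    |e ⬝ᵥ (grad v x).mulVec e| ≤ β ∧ 0 ≤ m ∧ (∀ f, f ⬝ᵥ f = 1 → e ⬝ᵥ f = 0 →
      |f ⬝ᵥ (grad v x).mulVec f - cross e f ⬝ᵥ (grad v x).mulVec (cross e f)|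
        ≤ Cp * (1 + m + β * (1 + ell γ N))) ∧ Cg * (1 + m + β * (1 + ell γ N)) ≤ ρ

lemma Good.stretch (h : IsC2Solution T u p) (hγ : 0 < γ) (hγ1 : γ ≤ 1) {t : ℝ} (ht : t ∈ Ioo 0 T)
    {x : V} {ρ : ℝ} (hg : Good γ (u t) x ρ) (hx : IsMaxPt u t x)
    (h1 : 1 ≤ nrm (vort (u t) x)) : Pq u t x ≤ ρ * Wq u t x := by
  obtain ⟨N, e, β, m, hN, hHG, he, hb, hd, hm, hs, hρ⟩ := hg
  have hI : t ∈ Ico 0 T := ⟨ht.1.le, ht.2⟩
  have key := stretch_max (slice_two h ht) (h.sol.periodic_u t hI) (h.sol.div_free t hI) hN hγ hγ1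
    hHG hx h1 he hb hd hm hs
  have hW := Wq_nonneg (u := u) t x
  calc Pq u t x ≤ Cg * (1 + m + β * (1 + ell γ N)) * Wq u t x := key
    _ ≤ ρ * Wq u t x := by gcongr

/-- The comparison on an interval. -/
theorem bound (h : IsC2Solution T u p) (hγ : 0 < γ) (hγ1 : γ ≤ 1) {a b : ℝ} (ha : 0 ≤ a)
    (hab : a ≤ b) (hb : b < T) {ρ : ℝ → ℝ} (hρi : IntegrableOn ρ (Icc a b))
    (hρ0 : ∀ t ∈ Icc a b, 0 ≤ ρ t)
    (hyp : ∀ᵐ t, t ∈ Ioo a b → ∃ x, IsMaxPt u t x ∧ Good γ (u t) x (ρ t)) {K : ℝ} (hK : 1 ≤ K)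
    (hKa : ∀ y, nrm (vort (u a) y) ≤ K) (x : V) :
    nrm (vort (u b) x) ≤ K * Real.exp (∫ t in a..b, ρ t) := by
  have hC := Cg_pos
  have hii : ∀ s ∈ Icc a b, ∀ t ∈ Icc a b, s ≤ t → IntervalIntegrable ρ volume s t :=
    fun s hs t ht hst => (intervalIntegrable_iff_integrableOn_Icc_of_le hst).2
      (hρi.mono_set (Icc_subset_Icc hs.1 ht.2))
  have haI : a ∈ Icc a b := ⟨le_rfl, hab⟩
  have hbI : b ∈ Icc a b := ⟨hab, le_rfl⟩
  refine comp_max h ha hab hb (ρ := ρ) (G := fun t => K * Real.exp (∫ s in a..t, ρ s)) ?_ hρi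
    hρ0 ?_ ?_ ?_ x
  · have h1 : ContinuousOn (fun t => ∫ s in a..t, ρ s) (Icc a b) := by
      have := intervalIntegral.continuousOn_primitive_interval (f := ρ) (a := a) (b := b)
        (by rwa [uIcc_of_le hab])
      rwa [uIcc_of_le hab] at this
    exact continuousOn_const.mul (Real.continuous_exp.comp_continuousOn h1)
  · intro s hs
    have h1 : (∫ r in a..s, ρ r) + ∫ r in s..b, ρ r = ∫ r in a..b, ρ r :=
      intervalIntegral.integral_add_adjacent_intervals (hii a haI s hs hs.1)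
        (hii s hs b hbI hs.2)
    rw [mul_assoc, ← Real.exp_add, h1]
  · intro y
    simp only [intervalIntegral.integral_same, Real.exp_zero, mul_one]
    exact hKa y
  · filter_upwards [hyp] with t ht htI
    obtain ⟨y, hy, hy2⟩ := ht htI
    refine ⟨y, hy, fun hlt => ?_⟩
    have h2 : 0 ≤ ∫ s in a..t, ρ s :=
      intervalIntegral.integral_nonneg htI.1.le fun s hs => hρ0 s ⟨hs.1, hs.2.trans htI.2.le⟩
    have h3 : 1 ≤ Real.exp (∫ s in a..t, ρ s) := Real.one_le_exp h2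
    have h4 : 1 ≤ nrm (vort (u t) y) := by nlinarith
    exact hy2.stretch h hγ hγ1 ⟨ha.trans_lt htI.1, htI.2.trans hb⟩ hy h4

lemma Lf_mono {s t : ℝ} (hst : s ≤ t) (ht : t < T) : Lf T s ≤ Lf T t := by
  unfold Lf
  have : Real.log (T - t) ≤ Real.log (T - s) := Real.log_le_log (by linarith) (by linarith)
  linarith

lemma int_inv {a b : ℝ} (hab : a ≤ b) (hb : b < T) :
    IntegrableOn (fun s => 1 / (T - s)) (Icc a b) ∧ ∫ s in a..b, 1 / (T - s) = Lf T b - Lf T a := by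
  have hc : ContinuousOn (fun s => 1 / (T - s)) (Icc a b) :=
    continuousOn_const.div (by fun_prop) fun s hs => by linarith [hs.2]
  refine ⟨hc.integrableOn_Icc, ?_⟩
  refine intervalIntegral.integral_eq_sub_of_hasDerivAt (fun s hs => Lf_hasDerivAt ?_) ?_
  · rw [uIcc_of_le hab] at hs
    linarith [hs.2]
  · exact hc.intervalIntegrable_of_Icc hab

/-- The tail of an integrable function. -/
lemma tail_small {a : ℝ} (ha : a < T) {β : ℝ → ℝ} (hβ : IntegrableOn β (Ioo a T)) {η : ℝ}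
    (hη : 0 < η) : ∀ᶠ s in 𝓝[<] T, ∫ t in s..T, |β t| < η := by
  have hβi : IntegrableOn (fun t => |β t|) (Icc a T) := by
    rw [integrableOn_Icc_iff_integrableOn_Ioo]
    exact hβ.abs
  have hcont := intervalIntegral.continuousOn_primitive_interval_left
    (f := fun t => |β t|) (a := a) (b := T) (by rwa [uIcc_of_le ha.le])
  rw [uIcc_of_le ha.le] at hcont
  have h1 := hcont T ⟨ha.le, le_rfl⟩
  have h2 : Tendsto (fun s => ∫ t in s..T, |β t|) (𝓝[Icc a T] T) (𝓝 0) := by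
    have := h1.tendsto
    rwa [intervalIntegral.integral_same] at this
  have h3 : Tendsto (fun s => ∫ t in s..T, |β t|) (𝓝[<] T) (𝓝 0) := by
    refine h2.mono_left ?_
    rw [← nhdsWithin_Ioo_eq_nhdsLT ha]
    exact nhdsWithin_mono _ Ioo_subset_Icc_self
  exact h3.eventually (gt_mem_nhds hη)

end Pool.Agent.Zk61.EU
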