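import Pool.Agent.Zk61.EU.Conv

/-!
# The Hölder norm of the gradient of a smooth solution
-/

open MeasureTheory Set Filter
open scoped ContDiff Topology

namespace Pool.Agent.Zk61.EU

open Pool.Agent.H708R2.EulerSign Pool.Agent.H708R2.EulerTypeI Pool.Agent.W786.Dir
  Pool.Agent.W786.Max

variable {T s : ℝ} {u : ℝ → V → V} {p : ℝ → V → ℝ}

/-- The Hölder constant. -/
noncomputable def Nh (v : V → V) : ℝ :=
  1 + 18 * Real.sqrt Pool.Agent.TH340.PS.C7 * Real.sqrt (H459R3.EU.dsq v)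

lemma one_le_Nh (v : V → V) : 1 ≤ Nh v := by
  unfold Nh
  have := Real.sqrt_nonneg (H459R3.EU.dsq v)
  have := Real.sqrt_nonneg Pool.Agent.TH340.PS.C7
  have : 0 ≤ 18 * Real.sqrt Pool.Agent.TH340.PS.C7 * Real.sqrt (H459R3.EU.dsq v) := by positivity
  linarith

lemma nrm_lap_le {v : V → V} (hv : ∀ i, H459R3.NS.SP (fun y => v y i)) (i j : Fin 3) :
    H459R3.NS.nrm (H459R3.NS.lap (H459R3.NS.pd j (fun y => v y i)))
      ≤ 3 * Real.sqrt (H459R3.EU.dsq v) := by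
  have h := H459R3.NS.nrm_sum_le
    (f := fun k => H459R3.NS.pd k (H459R3.NS.pd k (H459R3.NS.pd j (fun y => v y i))))
    fun k => ((((hv i).pd j).pd k).pd k).cont
  refine h.trans ?_
  refine (Finset.sum_le_sum fun k _ => H459R3.EU.nrm_le_third v i k k j).trans ?_
  simp

/-- The Hölder bound. -/
lemma hg_sc (h : H459R3.NS.IsSol 0 T u p) {t : ℝ} (ht : t + s ∈ Ico 0 T) :
    HG (scU s u t) (Nh (u (t + s))) (1 / 4) := by
  intro x y i j
  have hp := pi2_pos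
  rw [sc_grad h ht, sc_grad h ht, grad_pd (sol_diff h ht), grad_pd (sol_diff h ht)]
  set f := H459R3.NS.pd j (fun z => u (t + s) z i) with hf
  have hsp : H459R3.NS.SP f := (h.sp ht i).pd j
  set r := nrm (x - y) with hr
  have hr0 : 0 ≤ r := nrm_nonneg _
  have hbd : ∀ k, |((2 * Real.pi)⁻¹ • (x - y)) k| ≤ r := by
    intro k
    have h1 := abs_le_nrm (x - y) k
    rw [Pi.smul_apply, smul_eq_mul, abs_mul, abs_of_pos (inv_pos.2 hp)]
    have h2 : (2 * Real.pi)⁻¹ ≤ 1 := inv_le_one_of_one_le₀ (by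
      have := Real.pi_gt_three; linarith)
    calc (2 * Real.pi)⁻¹ * |(x - y) k| ≤ 1 * r := by gcongr
      _ = r := one_mul r
  have key := Pool.Agent.TH340.PS.holder_le hsp ((2 * Real.pi)⁻¹ • y) hr0 hbd
  have e : (2 * Real.pi)⁻¹ • y + (2 * Real.pi)⁻¹ • (x - y) = (2 * Real.pi)⁻¹ • x := by
    rw [← smul_add]; congr 1; abel
  rw [e] at key
  refine key.trans ?_
  have h1 := nrm_lap_le (v := u (t + s)) (fun i => h.sp ht i) i j
  have h2 : 0 ≤ r ^ (1 / 4 : ℝ) := Real.rpow_nonneg hr0 _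
  have h3 := Real.sqrt_nonneg Pool.Agent.TH340.PS.C7
  calc 6 * Real.sqrt Pool.Agent.TH340.PS.C7 * (r ^ (1 / 4 : ℝ) * H459R3.NS.nrm (H459R3.NS.lap f))
      ≤ 6 * Real.sqrt Pool.Agent.TH340.PS.C7 * (r ^ (1 / 4 : ℝ)
        * (3 * Real.sqrt (H459R3.EU.dsq (u (t + s))))) := by gcongr
    _ = (18 * Real.sqrt Pool.Agent.TH340.PS.C7 * Real.sqrt (H459R3.EU.dsq (u (t + s))))
        * r ^ (1 / 4 : ℝ) := by ring
    _ ≤ Nh (u (t + s)) * r ^ (1 / 4 : ℝ) := by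
        refine mul_le_mul_of_nonneg_right ?_ h2
        unfold Nh
        linarith

/-- The logarithm of the Hölder constant for power-type growth of the third derivatives. -/
lemma ell_le {A K : ℝ} (hA : 0 ≤ A) (hK : 1 ≤ K) {t₂ : ℝ} (ht₂ : t₂ < T)
    (hgrow : ∀ t ∈ Ioo t₂ T, H459R3.EU.dsq (u t) ≤ A * Real.exp (K * Lf T t)) :
    ∃ t₁ < T, ∀ t ∈ Ioo t₁ T, ell (1 / 4) (Nh (u t)) ≤ 4 * K * (1 + Lf T t) := by
  set B := 18 * Real.sqrt Pool.Agent.TH340.PS.C7 * Real.sqrt A with hB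
  have hB0 : 0 ≤ B := by positivity
  have hev1 : ∀ᶠ t in 𝓝[<] T, 5 * Real.log (1 + B) ≤ Lf T t :=
    (tendsto_Lf T).eventually (eventually_ge_atTop _)
  obtain ⟨t₁, ht₁, ht₁'⟩ : ∃ t₁ ∈ Iio T, Ioo t₁ T ⊆ {t | 5 * Real.log (1 + B) ≤ Lf T t} :=
    mem_nhdsLT_iff_exists_Ioo_subset.1 hev1
  refine ⟨max t₁ t₂, max_lt ht₁ ht₂, fun t ht => ?_⟩
  have h1 : 5 * Real.log (1 + B) ≤ Lf T t :=
    ht₁' ⟨(le_max_left _ _).trans_lt ht.1, ht.2⟩
  have h2 := hgrow t ⟨(le_max_right _ _).trans_lt ht.1, ht.2⟩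
  have hlogB : 0 ≤ Real.log (1 + B) := Real.log_nonneg (by linarith)
  have hLf : 0 ≤ Lf T t := by linarith
  have h3 : Nh (u t) ≤ (1 + B) * Real.exp (K / 2 * Lf T t) := by
    have e1 : Real.sqrt (H459R3.EU.dsq (u t)) ≤ Real.sqrt A * Real.exp (K / 2 * Lf T t) := by
      refine (Real.sqrt_le_sqrt h2).trans (le_of_eq ?_)
      rw [Real.sqrt_mul hA]
      congr 1
      rw [show K * Lf T t = K / 2 * Lf T t + K / 2 * Lf T t by ring, Real.exp_add]
      exact Real.sqrt_mul_self (Real.exp_pos _).le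
    have e2 : 1 ≤ Real.exp (K / 2 * Lf T t) := Real.one_le_exp (by positivity)
    have e3 : 18 * Real.sqrt Pool.Agent.TH340.PS.C7 * Real.sqrt (H459R3.EU.dsq (u t))
        ≤ B * Real.exp (K / 2 * Lf T t) := by
      calc _ ≤ 18 * Real.sqrt Pool.Agent.TH340.PS.C7 * (Real.sqrt A * Real.exp (K / 2 * Lf T t)) := by
            gcongr
        _ = _ := by rw [hB]; ring
    unfold Nh
    linarith
  have h4 : Real.log (Nh (u t)) ≤ Real.log (1 + B) + K / 2 * Lf T t := by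
    have := Real.log_le_log (by linarith [one_le_Nh (u t)]) h3
    rwa [Real.log_mul (by positivity) (Real.exp_pos _).ne', Real.log_exp] at this
  unfold ell
  norm_num
  nlinarith

/-- The growth of the third derivatives at a Type I singularity. -/
lemma type_one_dsq (hT : 0 < T) (h : H459R3.NS.IsSol 0 T u p) {C₁ : ℝ} (hC₁ : 0 ≤ C₁)
    (hC : ∀ t ∈ Ioo 0 T, Kt.GB (u t) (C₁ / (T - t))) :
    ∃ A, 0 ≤ A ∧ ∀ t ∈ Ioo 0 T,
      H459R3.EU.dsq (u t) ≤ A * Real.exp (Kt.Ck * C₁ * Lf T t) := by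
  have hCk : 0 < Kt.Ck := by unfold Kt.Ck; norm_num
  have hd0 := H459R3.EU.dsq_nonneg (u 0)
  refine ⟨H459R3.EU.dsq (u 0) * Real.exp (Kt.Ck * C₁ * (1 + |Lf T 0|)), by positivity,
    fun t ht => ?_⟩
  set b := (t + T) / 2 with hb
  have hbT : b < T := by rw [hb]; linarith [ht.2]
  have htb : t < b := by rw [hb]; linarith [ht.2]
  have hb0 : 0 ≤ b := ht.1.le.trans htb.le
  obtain ⟨i1, i2⟩ := int_inv (T := T) hb0 hbT
  have i3 : IntegrableOn (fun r => C₁ / (T - r)) (Ioo 0 b) := by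
    have : IntegrableOn (fun r => C₁ * (1 / (T - r))) (Ioo 0 b) :=
      (i1.mono_set Ioo_subset_Icc_self).const_mul C₁
    simpa only [mul_one_div] using this
  have key := Kt.kato (Kt.restr h hbT.le) i3
    (fun r hr => hC r ⟨hr.1, hr.2.trans hbT⟩) t ⟨ht.1.le, htb⟩
  refine key.trans ?_
  have i4 : ∫ r in Ioo 0 b, C₁ / (T - r) = C₁ * (Lf T b - Lf T 0) := by
    rw [← i2, ← intervalIntegral.integral_const_mul, intervalIntegral.integral_of_le hb0,
      integral_Ioc_eq_integral_Ioo]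
    simp only [mul_one_div]
  rw [i4, mul_assoc (H459R3.EU.dsq (u 0)), ← Real.exp_add]
  refine mul_le_mul_of_nonneg_left (Real.exp_le_exp.2 ?_) hd0
  have e1 : Lf T b ≤ Lf T t + 1 := by
    unfold Lf
    have h1 : T - b = (T - t) / 2 := by rw [hb]; ring
    rw [h1, Real.log_div (by linarith [ht.2]) (by norm_num)]
    have := Real.log_two_lt_d9
    linarith
  have e2 : -Lf T 0 ≤ |Lf T 0| := neg_le_abs _
  have e3 : Lf T b - Lf T 0 ≤ (1 + |Lf T 0|) + Lf T t := by linarith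
  calc Kt.Ck * (C₁ * (Lf T b - Lf T 0)) ≤ Kt.Ck * (C₁ * ((1 + |Lf T 0|) + Lf T t)) := by gcongr
    _ = _ := by ring

end Pool.Agent.Zk61.EU
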