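import Pool.Agent.H459R3.EU.Iso
import Pool.Agent.TH340.PS.Low

/-!
# Kato's estimate for the third derivatives
-/

open MeasureTheory Set Filter
open scoped ContDiff Topology

namespace Pool.Agent.Zk61.EU.Kt

open H459R3.NS H459R3.EU

variable {T : ℝ} {u : ℝ → V → V} {p : ℝ → V → ℝ}

/-- Bound for the velocity gradient. -/
def GB (v : V → V) (B : ℝ) : Prop := ∀ x i j, |pd j (fun y => v y i) x| ≤ B

lemma cmp_zero {v : V → V} {β : ℝ} (h : GB v β) : Cmp 1 0 β 0 v (fun _ => 0) where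
  smooth := SPV.zero
  div := fun x => by simp [pd]
  grad := fun x i j => by
    have := h x i j
    simpa using this
  rel := by simp
  sup := ⟨β, h, by simp⟩
  prod := by
    have hpd : ∀ j, pd j (fun _ : V => (0 : ℝ)) = fun _ => 0 := fun j => by
      funext x
      simp [pd]
    have : H459R3.EU.prod (fun _ : V => (0 : V)) = 0 := by
      simp [H459R3.EU.prod, d3, hpd]
    rw [this]
    simp

/-- The constant. -/
noncomputable def Ck : ℝ := 54432

/-- **Kato's estimate.** -/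
theorem kato (h : IsSol 0 T u p) {β : ℝ → ℝ} (hβ : IntegrableOn β (Ioo 0 T))
    (hb : ∀ t ∈ Ioo 0 T, GB (u t) (β t)) :
    ∀ t ∈ Ico 0 T, dsq (u t) ≤ dsq (u 0) * Real.exp (Ck * ∫ s in Ioo 0 T, β s) := by
  intro t ht
  have key := main (K := 1) (lam := 0) zero_le_one zero_lt_one le_rfl h (γ := fun _ => 0)
    (fun _ _ => le_rfl) hβ integrableOn_zero (fun s hs => ⟨_, cmp_zero (hb s hs)⟩) t ht
  refine key.trans (le_of_eq ?_)
  congr 2
  have e : ∀ s, (3888 * (3 + 3 * 1 + 1 ^ 2) * β s + 0) = 27216 * β s := fun s => by norm_num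
  simp only [e]
  rw [integral_const_mul]
  unfold Ck
  ring

/-- Restriction to a shorter interval. -/
lemma restr (h : IsSol 0 T u p) {b : ℝ} (hb : b ≤ T) : IsSol 0 b u p where
  smooth_u := h.smooth_u.mono (prod_mono (Ico_subset_Ico_right hb) subset_rfl)
  smooth_p := h.smooth_p.mono (prod_mono (Ico_subset_Ico_right hb) subset_rfl)
  per_u := fun t ht => h.per_u t ⟨ht.1, ht.2.trans_le hb⟩
  per_p := fun t ht => h.per_p t ⟨ht.1, ht.2.trans_le hb⟩
  divfree := fun t ht => h.divfree t ⟨ht.1, ht.2.trans_le hb⟩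
  momentum := fun t ht => h.momentum t ⟨ht.1, ht.2.trans_le hb⟩

/-- Shift of the time. -/
lemma shift (h : IsSol 0 T u p) {s : ℝ} (hs : 0 ≤ s) :
    IsSol 0 (T - s) (fun t => u (t + s)) (fun t => p (t + s)) where
  smooth_u := by
    have hm : ContDiff ℝ ∞ (fun z : ℝ × V => ((z.1 + s, z.2) : ℝ × V)) := by fun_prop
    exact h.smooth_u.comp hm.contDiffOn fun z hz =>
      ⟨⟨by linarith [hz.1.1], by linarith [hz.1.2]⟩, mem_univ _⟩
  smooth_p := by
    have hm : ContDiff ℝ ∞ (fun z : ℝ × V => ((z.1 + s, z.2) : ℝ × V)) := by fun_prop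
    exact h.smooth_p.comp hm.contDiffOn fun z hz =>
      ⟨⟨by linarith [hz.1.1], by linarith [hz.1.2]⟩, mem_univ _⟩
  per_u := fun t ht => h.per_u _ ⟨by linarith [ht.1], by linarith [ht.2]⟩
  per_p := fun t ht => h.per_p _ ⟨by linarith [ht.1], by linarith [ht.2]⟩
  divfree := fun t ht => h.divfree _ ⟨by linarith [ht.1], by linarith [ht.2]⟩
  momentum := fun t ht x i => by
    have := h.momentum (t + s) ⟨by linarith [ht.1], by linarith [ht.2]⟩ x i
    rw [← this]
    congr 1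
    exact deriv_comp_add_const (fun r => u r x i) s t

/-- A bound near the final time suffices. -/
theorem kato_end (h : IsSol 0 T u p) {t₀ : ℝ} (ht₀ : t₀ ∈ Ico 0 T) {β : ℝ → ℝ}
    (hβ : IntegrableOn β (Ioo t₀ T)) (hb : ∀ t ∈ Ioo t₀ T, GB (u t) (β t)) :
    ∃ M, ∀ t ∈ Ico 0 T, dsq (u t) ≤ M := by
  have hsh := shift h ht₀.1
  have hmp : MeasurePreserving (fun s : ℝ => s + t₀) volume volume :=
    measurePreserving_add_right volume t₀
  have hpre : (fun s : ℝ => s + t₀) ⁻¹' Ioo t₀ T = Ioo 0 (T - t₀) := by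
    ext s
    simp only [mem_preimage, mem_Ioo]
    constructor
    · rintro ⟨h1, h2⟩
      exact ⟨by linarith, by linarith⟩
    · rintro ⟨h1, h2⟩
      exact ⟨by linarith, by linarith⟩
  have hβ' : IntegrableOn (fun s => β (s + t₀)) (Ioo 0 (T - t₀)) := by
    rw [← hpre]
    exact (hmp.integrableOn_comp_preimage (measurableEmbedding_addRight t₀)).2 hβ
  have k1 := kato hsh hβ' fun t ht => hb (t + t₀) ⟨by linarith [ht.1], by linarith [ht.2]⟩
  have hc : ContinuousOn (fun s => dsq (u s)) (Icc 0 t₀) :=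
    (dsq_continuousOn h).mono fun s hs => ⟨hs.1, hs.2.trans_lt ht₀.2⟩
  obtain ⟨M, hM⟩ := isCompact_Icc.bddAbove_image hc
  refine ⟨max M (dsq (u (0 + t₀)) * Real.exp (Ck * ∫ s in Ioo 0 (T - t₀), β (s + t₀))),
    fun t ht => ?_⟩
  rcases le_or_gt t t₀ with h1 | h1
  · exact (hM ⟨t, ⟨ht.1, h1⟩, rfl⟩).trans (le_max_left _ _)
  · have := k1 (t - t₀) ⟨by linarith, by linarith [ht.2]⟩
    simp only [sub_add_cancel] at this
    exact this.trans (le_max_right _ _)

end Pool.Agent.Zk61.EU.Kt
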