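import Pool.Agent.Zk61.EU.Gen

/-!
# The criterion with a power-type rate
-/

open MeasureTheory Set Filter
open scoped ContDiff Topology

namespace Pool.Agent.Zk61.EU

open Pool.Agent.H708R2.EulerSign Pool.Agent.H708R2.EulerTypeI Pool.Agent.W786.Dir
  Pool.Agent.W786.Max

variable {T : ℝ} {u : ℝ → V → V} {p : ℝ → V → ℝ}

lemma nrm_le_comp {w : V} {B : ℝ} (hB : ∀ i, |w i| ≤ B) : nrm w ≤ 2 * B := by
  have hB0 : 0 ≤ B := (abs_nonneg _).trans (hB 0)
  have h2 : nrm w ^ 2 ≤ (2 * B) ^ 2 := by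
    rw [nrm_sq, dotProduct, Fin.sum_univ_three]
    have k : ∀ j, w j * w j ≤ B ^ 2 := fun j => by
      rw [← sq, ← sq_abs]
      have := hB j
      gcongr
    nlinarith [k 0, k 1, k 2, sq_nonneg B]
  exact (le_abs_self _).trans (abs_le_of_sq_le_sq h2 (by positivity))

/-- The vorticity is controlled by the velocity gradient. -/
lemma vort_le_gb (h : H459R3.NS.IsSol 0 T u p) {t : ℝ} (ht : t ∈ Ico 0 T) {B : ℝ}
    (hB : Kt.GB (u t) B) (x : V) : nrm (vort (u t) x) ≤ 4 * B := by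
  have hA : ∀ i j, |grad (u t) x i j| ≤ B := fun i j => by
    rw [grad_pd (sol_diff h ht)]
    exact hB x i j
  have h1 : nrm (vort (u t) x) ≤ 2 * (2 * B) := by
    refine nrm_le_comp fun i => ?_
    rw [vort_eq]
    have k : ∀ i j k l, |grad (u t) x i j - grad (u t) x k l| ≤ 2 * B := fun i j k l => by
      have := abs_sub (grad (u t) x i j) (grad (u t) x k l)
      linarith [hA i j, hA k l]
    fin_cases i
    · exact k 2 1 1 2
    · exact k 0 2 2 0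
    · exact k 1 0 0 1
  linarith

/-- The difference of the velocities. -/
lemma vel_diff_le (h : H459R3.NS.IsSol 0 T u p) {C κ : ℝ} (hκ : 0 ≤ κ) {t : ℝ} (ht : t ∈ Ico 0 T)
    (ht1 : T - t ≤ 1) (hC : Kt.GB (u t) (C * (T - t) ^ (-κ))) (x y : V) :
    nrm (u t y - u t x)
      ≤ 4 * (3 * C + Real.sqrt (H459R3.NS.energy (u 0))) * (T - t) ^ (-(3 / 5 * κ)) := by
  have h1 := fun z i => Kt.vel_le h hκ ht ht1 hC z i
  set B := (3 * C + Real.sqrt (H459R3.NS.energy (u 0))) * (T - t) ^ (-(3 / 5 * κ)) with hB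
  have h2 : nrm (u t y - u t x) ≤ 2 * (2 * B) := by
    refine nrm_le_comp fun i => ?_
    rw [Pi.sub_apply]
    have := abs_sub (u t y i) (u t x i)
    linarith [h1 y i, h1 x i]
  linarith

/-- **The criterion with a power-type rate.** -/
theorem finish (h : H459R3.NS.IsSol 0 T u p) {κ C : ℝ} (hκ : 0 ≤ κ)
    (hC : ∀ t ∈ Ioo 0 T, Kt.GB (u t) (C * (T - t) ^ (-κ))) {t₁ : ℝ} (ht₁ : t₁ ∈ Ico 0 T)
    (hT1 : T - t₁ ≤ 1) {b L R : ℝ → ℝ} (hR : ∀ t ∈ Ioo t₁ T, 0 < R t)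
    (hRi : IntegrableOn (fun t => (T - t) ^ (-(3 / 5 * κ)) / R t) (Ioo t₁ T))
    (hb0 : ∀ t ∈ Ioo t₁ T, 0 ≤ b t)
    (hL : ∀ t ∈ Ioo t₁ T, ell (1 / 4) (Nh (u t)) ≤ L t)
    (hbi : ∀ c ∈ Ioo t₁ T, IntegrableOn (fun t => b t * (1 + L t)) (Ioo t₁ c))
    {C' η : ℝ} (hη : Cg * η ≤ 1 / 2)
    (hbC : ∀ c ∈ Ioo t₁ T, ∫ t in Ioo t₁ c, b t * (1 + L t) ≤ C' + η * Lf T c)
    (hyp : ∀ᵐ t, t ∈ Ioo t₁ T → ∃ x e, IsMaxPt u t x ∧ nrm e = 1 ∧
      ∀ y, e ⬝ᵥ (y - x) = 0 → nrm (y - x) < R t → |vort (u t) y ⬝ᵥ e| ≤ b t ∧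
        |e ⬝ᵥ (grad (u t) y).mulVec e| ≤ b t) :
    ∃ M, ∀ t ∈ Ico 0 T, H459R3.EU.dsq (u t) ≤ M := by
  have hCg := Cg_pos
  have hin : ∀ t ∈ Ioo t₁ T, t ∈ Ioo 0 T := fun t ht => ⟨ht₁.1.trans_lt ht.1, ht.2⟩
  set D := 2 * Real.pi * (4 * (3 * C + Real.sqrt (H459R3.NS.energy (u 0)))) with hD
  have hC0 : 0 ≤ C := by
    have hm : (t₁ + T) / 2 ∈ Ioo t₁ T := ⟨by linarith [ht₁.2], by linarith [ht₁.2]⟩
    have h1 := (abs_nonneg _).trans (hC _ (hin _ hm) 0 0 0)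
    have h2 : 0 < (T - (t₁ + T) / 2) ^ (-κ) := Real.rpow_pos_of_pos (by linarith [hm.2]) _
    by_contra hcon
    push Not at hcon
    exact absurd h1 (not_le.2 (mul_neg_of_neg_of_pos hcon h2))
  have hD0 : 0 ≤ D := by positivity
  set r : ℝ → ℝ := fun t => (T - t) ^ (-(3 / 5 * κ)) / R t with hr
  have hr0 : ∀ t ∈ Ioo t₁ T, 0 ≤ r t := fun t ht =>
    div_nonneg (Real.rpow_nonneg (by linarith [ht.2]) _) (hR t ht).le
  have hL0 : ∀ t ∈ Ioo t₁ T, 0 ≤ L t := fun t ht =>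
    (ell_nonneg (by norm_num) (one_le_Nh _)).trans (hL t ht)
  set ρ : ℝ → ℝ := fun t => Cg * (1 + D * r t + b t * (1 + L t)) with hρ
  have hsubc : ∀ c ∈ Ioo t₁ T, Ioo t₁ c ⊆ Ioo t₁ T := fun c hc => Ioo_subset_Ioo_right hc.2.le
  have i1 : ∀ c, IntegrableOn (fun _ : ℝ => (1 : ℝ)) (Ioo t₁ c) := fun c =>
    integrableOn_const (by simp)
  have i2 : ∀ c ∈ Ioo t₁ T, IntegrableOn (fun t => D * r t) (Ioo t₁ c) := fun c hc =>
    (hRi.mono_set (hsubc c hc)).const_mul D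
  have hρi : ∀ c ∈ Ioo t₁ T, IntegrableOn ρ (Ioo t₁ c) := fun c hc =>
    (((i1 c).add (i2 c hc)).add (hbi c hc)).const_mul Cg
  refine gen h ht₁ (ρ := ρ) (C := Cg * (1 + D * (∫ t in Ioo t₁ T, r t) + C'))
    (fun c hc => by rw [integrableOn_Icc_iff_integrableOn_Ioo]; exact hρi c hc) (fun t ht => ?_)
    (fun c hc => ?_) ?_
  · have h1 := hr0 t ht
    have h2 := hb0 t ht
    have h3 := hL0 t ht
    simp only [hρ]
    positivity
  · rw [intervalIntegral.integral_of_le hc.1.le, integral_Ioc_eq_integral_Ioo]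
    have e1 : ∫ t in Ioo t₁ c, ρ t = Cg * ((∫ _t in Ioo t₁ c, (1 : ℝ))
        + (∫ t in Ioo t₁ c, D * r t) + ∫ t in Ioo t₁ c, b t * (1 + L t)) := by
      simp only [hρ]
      rw [integral_const_mul]
      congr 1
      have e2 := integral_add ((i1 c).add (i2 c hc)) (hbi c hc)
      have e3 := integral_add (i1 c) (i2 c hc)
      simp only [Pi.add_apply] at e2 e3
      rw [e2, e3]
    rw [e1]
    have e2 : ∫ _t in Ioo t₁ c, (1 : ℝ) ≤ 1 := by
      rw [setIntegral_const, measureReal_def, Real.volume_Ioo,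
        ENNReal.toReal_ofReal (by linarith [hc.1])]
      simp only [smul_eq_mul, mul_one]
      linarith [hc.2]
    have e3 : ∫ t in Ioo t₁ c, D * r t ≤ D * ∫ t in Ioo t₁ T, r t := by
      rw [integral_const_mul]
      refine mul_le_mul_of_nonneg_left ?_ hD0
      refine setIntegral_mono_set hRi ?_ (hsubc c hc).eventuallyLE
      exact (ae_restrict_iff' measurableSet_Ioo).2 (Eventually.of_forall fun t ht => hr0 t ht)
    have e4 := hbC c hc
    have hLf : 0 ≤ Lf T c := by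
      unfold Lf
      have := Real.log_nonpos (by linarith [hc.2]) (show T - c ≤ 1 by linarith [hc.1])
      linarith
    have e5 : Cg * η * Lf T c ≤ 1 / 2 * Lf T c := mul_le_mul_of_nonneg_right hη hLf
    calc Cg * ((∫ _t in Ioo t₁ c, (1 : ℝ)) + (∫ t in Ioo t₁ c, D * r t)
          + ∫ t in Ioo t₁ c, b t * (1 + L t))
        ≤ Cg * (1 + (D * ∫ t in Ioo t₁ T, r t) + (C' + η * Lf T c)) := by gcongr
      _ = Cg * (1 + D * (∫ t in Ioo t₁ T, r t) + C') + Cg * η * Lf T c := by ring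
      _ ≤ _ := by gcongr
  · filter_upwards [hyp] with t ht htI
    obtain ⟨x, e, hx, he, hd⟩ := ht htI
    have htI' := hin t htI
    have ht1 : T - t ≤ 1 := by linarith [htI.1]
    refine ⟨x, hx, ?_⟩
    have key := good_disc (x := x) (e := e) (b := b t) (R := R t)
      (M := 4 * (3 * C + Real.sqrt (H459R3.NS.energy (u 0))) * (T - t) ^ (-(3 / 5 * κ)))
      h htI' he (hR t htI) (fun y hy hyR =>
        ⟨(hd y hy hyR).1, (hd y hy hyR).2, vel_diff_le h hκ ⟨htI'.1.le, htI'.2⟩ ht1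
          (hC t htI') x y⟩)
    refine key.mono ?_
    simp only [hρ]
    have e1 : 2 * Real.pi * (4 * (3 * C + Real.sqrt (H459R3.NS.energy (u 0)))
        * (T - t) ^ (-(3 / 5 * κ))) / R t = D * r t := by
      simp only [hD, hr]
      ring
    rw [e1]
    have h2 := hb0 t htI
    have h3 := hL t htI
    gcongr

end Pool.Agent.Zk61.EU
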