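import Pool.Agent.Zk61.EU.OneA

/-!
# One component: preparations
-/

open MeasureTheory Set Filter
open scoped ContDiff Topology

namespace Pool.Agent.Zk61.EU

open Pool.Agent.H708R2.EulerSign Pool.Agent.H708R2.EulerTypeI Pool.Agent.W786.Dir
  Pool.Agent.W786.Max

variable {T : ℝ} {u : ℝ → V → V} {p : ℝ → V → ℝ}

/-- Shift of an integral over an interval. -/
lemma int_shift_Ioo (f : ℝ → ℝ) (a b s : ℝ) :
    ∫ r in Ioo (a - s) (b - s), f (r + s) = ∫ r in Ioo a b, f r := by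
  have hmp : MeasurePreserving (fun r : ℝ => r + s) volume volume :=
    measurePreserving_add_right volume s
  have hpre : (fun r : ℝ => r + s) ⁻¹' Ioo a b = Ioo (a - s) (b - s) := by
    ext r
    simp only [mem_preimage, mem_Ioo]
    constructor
    · rintro ⟨h1, h2⟩
      exact ⟨by linarith, by linarith⟩
    · rintro ⟨h1, h2⟩
      exact ⟨by linarith, by linarith⟩
  rw [← hpre]
  exact hmp.setIntegral_preimage_emb (measurableEmbedding_addRight s) f (Ioo a b)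

lemma intOn_shift_Ioo {f : ℝ → ℝ} {a b s : ℝ} (hf : IntegrableOn f (Ioo a b)) :
    IntegrableOn (fun r => f (r + s)) (Ioo (a - s) (b - s)) := by
  have hmp : MeasurePreserving (fun r : ℝ => r + s) volume volume :=
    measurePreserving_add_right volume s
  have hpre : (fun r : ℝ => r + s) ⁻¹' Ioo a b = Ioo (a - s) (b - s) := by
    ext r
    simp only [mem_preimage, mem_Ioo]
    constructor
    · rintro ⟨h1, h2⟩
      exact ⟨by linarith, by linarith⟩
    · rintro ⟨h1, h2⟩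
      exact ⟨by linarith, by linarith⟩
  rw [← hpre]
  exact (hmp.integrableOn_comp_preimage (measurableEmbedding_addRight s)).2 hf

/-- Growth of one component of the vorticity, for `1`-periodic solutions. -/
theorem comp_sol (h : H459R3.NS.IsSol 0 T u p) {t₀ : ℝ} (ht₀ : t₀ ∈ Ioo 0 T)
    {e : ℝ → V} (he : ContDiffOn ℝ 1 e (Ioo 0 T)) (he1 : ∀ t ∈ Ioo 0 T, nrm (e t) = 1)
    {a M : ℝ → ℝ} {lam : ℝ}
    (hea : ∀ t ∈ Ioo 0 T, nrm (deriv e t) ≤ a t)
    (hga : ∀ t ∈ Ioo 0 T, ∀ x, lam < nrm (vort (u t) x) →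
      |e t ⬝ᵥ (grad (u t) x).mulVec (vort (u t) x)| ≤ a t * nrm (vort (u t) x))
    (hM : ∀ t ∈ Ioo 0 T, ∀ x, nrm (vort (u t) x) ≤ M t)
    (hi : ∀ t ∈ Ioo t₀ T, IntegrableOn (fun s => a s * M s) (Ioo t₀ t)) :
    ∀ t ∈ Ioo t₀ T, ∀ x,
      |vort (u t) x ⬝ᵥ e t| ≤ M t₀ + |lam| + 2 * ∫ s in Ioo t₀ t, a s * M s := by
  intro t ht x
  set s := t₀ / 2 with hs
  have hs0 : 0 < s := by have := ht₀.1; positivity
  have hst : s < t₀ := by linarith
  have hsol := sc_sol h hs0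
  have hin : ∀ r ∈ Ioo 0 (T - s), r + s ∈ Ioo 0 T := fun r hr =>
    ⟨by linarith [hr.1], by linarith [hr.2]⟩
  have hic : ∀ r ∈ Ioo 0 (T - s), r + s ∈ Ico 0 T := fun r hr => ⟨(hin r hr).1.le, (hin r hr).2⟩
  have key := comp_growth hsol (t₀ := t₀ - s) ⟨by linarith, by linarith [ht₀.2]⟩
    (e := fun r => e (r + s)) (a := fun r => a (r + s)) (M := fun r => M (r + s)) (lam := lam)
    (he.comp (by fun_prop) hin) (fun r hr => he1 _ (hin r hr))
    (fun r hr => by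
      rw [deriv_comp_add_const]
      exact hea _ (hin r hr))
    (fun r hr y hy => by
      rw [sc_vort h (hic r hr)] at hy ⊢
      rw [sc_grad h (hic r hr)]
      exact hga _ (hin r hr) _ hy)
    (fun r hr y => by
      rw [sc_vort h (hic r hr)]
      exact hM _ (hin r hr) _)
    (fun r hr => by
      have h1 := intOn_shift_Ioo (s := s)
        (hi (r + s) ⟨by linarith [hr.1], by linarith [hr.2]⟩)
      rwa [add_sub_cancel_right] at h1)
    (t - s) ⟨by linarith [ht.1], by linarith [ht.2]⟩ ((2 * Real.pi) • x)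
  have e1 : t - s + s = t := by ring
  have e2 : t₀ - s + s = t₀ := by ring
  have hI : t - s + s ∈ Ico 0 T := by
    rw [e1]
    exact ⟨ht₀.1.le.trans ht.1.le, ht.2⟩
  rw [sc_vort h hI, unscale] at key
  simp only [e1, e2] at key
  rw [int_shift_Ioo (fun r => a r * M r)] at key
  exact key

/-- The logarithm of the Hölder constant. -/
lemma ell_dsq (v : V → V) : ell (1 / 4) (Nh v)
    ≤ 5 * (Real.log (1 + 18 * Real.sqrt Pool.Agent.TH340.PS.C7) + 1)
      * (1 + Real.log (1 + H459R3.EU.dsq v)) := by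
  have hC7 := Real.sqrt_nonneg Pool.Agent.TH340.PS.C7
  set c7 := Real.log (1 + 18 * Real.sqrt Pool.Agent.TH340.PS.C7) with hc7
  have hc70 : 0 ≤ c7 := Real.log_nonneg (by linarith)
  have hd0 : 0 ≤ H459R3.EU.dsq v := H459R3.EU.dsq_nonneg _
  have hlog : 0 ≤ Real.log (1 + H459R3.EU.dsq v) := Real.log_nonneg (by linarith)
  have h1 : Nh v ≤ (1 + 18 * Real.sqrt Pool.Agent.TH340.PS.C7) * (1 + H459R3.EU.dsq v) := by
    have h2 : Real.sqrt (H459R3.EU.dsq v) ≤ 1 + H459R3.EU.dsq v := by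
      have h3 := Real.sq_sqrt hd0
      nlinarith [sq_nonneg (Real.sqrt (H459R3.EU.dsq v) - 1), Real.sqrt_nonneg (H459R3.EU.dsq v)]
    unfold Nh
    have h4 : 18 * Real.sqrt Pool.Agent.TH340.PS.C7 * Real.sqrt (H459R3.EU.dsq v)
        ≤ 18 * Real.sqrt Pool.Agent.TH340.PS.C7 * (1 + H459R3.EU.dsq v) := by gcongr
    nlinarith
  have h5 : Real.log (Nh v) ≤ c7 + Real.log (1 + H459R3.EU.dsq v) := by
    have := Real.log_le_log (by linarith [one_le_Nh v]) h1
    rwa [Real.log_mul (by positivity) (by linarith)] at this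
  unfold ell
  norm_num
  nlinarith [mul_nonneg hc70 hlog]

/-- The integral of a power. -/
lemma int_pow_le {κ : ℝ} (hκ : 1 < κ) {a b : ℝ} (hab : a ≤ b) (hb : b < T) :
    IntegrableOn (fun s => (T - s) ^ (-κ)) (Icc a b) ∧
      ∫ s in a..b, (T - s) ^ (-κ) ≤ (T - b) ^ (1 - κ) / (κ - 1) := by
  have hpos : ∀ s ∈ Icc a b, 0 < T - s := fun s hs => by linarith [hs.2]
  have hc : ContinuousOn (fun s => (T - s) ^ (-κ)) (Icc a b) :=
    ContinuousOn.rpow_const (by fun_prop) fun s hs => Or.inl (hpos s hs).ne'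
  refine ⟨hc.integrableOn_Icc, ?_⟩
  have hκ1 : κ - 1 ≠ 0 := by linarith
  have h1 : ∫ s in a..b, (T - s) ^ (-κ)
      = (T - b) ^ (1 - κ) / (κ - 1) - (T - a) ^ (1 - κ) / (κ - 1) := by
    refine intervalIntegral.integral_eq_sub_of_hasDerivAt
      (f := fun s => (T - s) ^ (1 - κ) / (κ - 1)) (fun s hs => ?_) ?_
    · rw [uIcc_of_le hab] at hs
      have h2 : HasDerivAt (fun s : ℝ => T - s) (-1) s := by
        simpa using (hasDerivAt_id s).const_sub T
      have h3 := (h2.rpow_const (p := 1 - κ) (Or.inl (hpos s hs).ne')).div_const (κ - 1)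
      refine h3.congr_deriv ?_
      rw [show (1 - κ - 1 : ℝ) = -κ by ring]
      field_simp
      ring
    · exact hc.intervalIntegrable_of_Icc hab
  rw [h1]
  have h2 : 0 ≤ (T - a) ^ (1 - κ) / (κ - 1) :=
    div_nonneg (Real.rpow_nonneg (by linarith) _) (by linarith)
  linarith

/-- The logarithm of the Hölder constant for a power-type rate. -/
lemma ell_rate (h : H459R3.NS.IsSol 0 T u p) {κ C : ℝ} (hκ : 1 < κ) (hC0 : 0 ≤ C)
    (hC : ∀ t ∈ Ioo 0 T, Kt.GB (u t) (C * (T - t) ^ (-κ))) :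
    ∃ K, 0 ≤ K ∧ ∀ t ∈ Ioo 0 T, T - t ≤ 1 →
      1 + ell (1 / 4) (Nh (u t)) ≤ K * (T - t) ^ (1 - κ) := by
  have hCk : 0 < Kt.Ck := by unfold Kt.Ck; norm_num
  have hd0 := H459R3.EU.dsq_nonneg (u 0)
  have hC7 := Real.sqrt_nonneg Pool.Agent.TH340.PS.C7
  have hc70 : 0 ≤ Real.log (1 + 18 * Real.sqrt Pool.Agent.TH340.PS.C7) :=
    Real.log_nonneg (by linarith)
  set c7 := Real.log (1 + 18 * Real.sqrt Pool.Agent.TH340.PS.C7) with hc7
  have hl0 : 0 ≤ Real.log (1 + H459R3.EU.dsq (u 0)) := Real.log_nonneg (by linarith)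
  set K₂ := Kt.Ck * (C * (2 ^ (κ - 1) / (κ - 1))) with hK₂
  have hκ1 : 0 < κ - 1 := by linarith
  have hK₂0 : 0 ≤ K₂ := by positivity
  refine ⟨1 + 5 * (c7 + 1) * (1 + (Real.log (1 + H459R3.EU.dsq (u 0)) + K₂)), by positivity,
    fun t ht ht1 => ?_⟩
  have hTt : 0 < T - t := by linarith [ht.2]
  have hone : 1 ≤ (T - t) ^ (1 - κ) :=
    Real.one_le_rpow_of_pos_of_le_one_of_nonpos hTt ht1 (by linarith)
  set b := (t + T) / 2 with hb
  have hbT : b < T := by rw [hb]; linarith [ht.2]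
  have htb : t < b := by rw [hb]; linarith [ht.2]
  have hb0 : 0 ≤ b := ht.1.le.trans htb.le
  obtain ⟨i1, i2⟩ := int_pow_le (T := T) hκ hb0 hbT
  have i3 : IntegrableOn (fun r => C * (T - r) ^ (-κ)) (Ioo 0 b) :=
    (i1.mono_set Ioo_subset_Icc_self).const_mul C
  have key := Kt.kato (Kt.restr h hbT.le) i3
    (fun r hr => hC r ⟨hr.1, hr.2.trans hbT⟩) t ⟨ht.1.le, htb⟩
  have i4 : ∫ r in Ioo 0 b, C * (T - r) ^ (-κ) ≤ C * ((T - b) ^ (1 - κ) / (κ - 1)) := by
    rw [integral_const_mul, ← integral_Ioc_eq_integral_Ioo,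
      ← intervalIntegral.integral_of_le hb0]
    gcongr
  have e1 : (T - b) ^ (1 - κ) = 2 ^ (κ - 1) * (T - t) ^ (1 - κ) := by
    have h1 : T - b = (T - t) / 2 := by rw [hb]; ring
    rw [h1, Real.div_rpow hTt.le (by norm_num), show (1 - κ : ℝ) = -(κ - 1) by ring,
      Real.rpow_neg (by norm_num : (0 : ℝ) ≤ 2)]
    field_simp
  have i5 : Kt.Ck * ∫ r in Ioo 0 b, C * (T - r) ^ (-κ) ≤ K₂ * (T - t) ^ (1 - κ) := by
    calc Kt.Ck * ∫ r in Ioo 0 b, C * (T - r) ^ (-κ)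
        ≤ Kt.Ck * (C * ((T - b) ^ (1 - κ) / (κ - 1))) := by gcongr
      _ = K₂ * (T - t) ^ (1 - κ) := by rw [e1, hK₂]; ring
  have h2 : H459R3.EU.dsq (u t)
      ≤ H459R3.EU.dsq (u 0) * Real.exp (K₂ * (T - t) ^ (1 - κ)) :=
    key.trans (mul_le_mul_of_nonneg_left (Real.exp_le_exp.2 i5) hd0)
  have h3 : 1 ≤ Real.exp (K₂ * (T - t) ^ (1 - κ)) := Real.one_le_exp (by positivity)
  have h4 : 1 + H459R3.EU.dsq (u t)
      ≤ (1 + H459R3.EU.dsq (u 0)) * Real.exp (K₂ * (T - t) ^ (1 - κ)) := by linarith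
  have h5 : Real.log (1 + H459R3.EU.dsq (u t))
      ≤ Real.log (1 + H459R3.EU.dsq (u 0)) + K₂ * (T - t) ^ (1 - κ) := by
    have h6 := Real.log_le_log (by linarith [H459R3.EU.dsq_nonneg (u t)]) h4
    rwa [Real.log_mul (by linarith) (Real.exp_pos _).ne', Real.log_exp] at h6
  have h7 : 1 + Real.log (1 + H459R3.EU.dsq (u t))
      ≤ (1 + (Real.log (1 + H459R3.EU.dsq (u 0)) + K₂)) * (T - t) ^ (1 - κ) := by
    nlinarith [mul_le_mul_of_nonneg_left hone hl0]
  calc 1 + ell (1 / 4) (Nh (u t))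
      ≤ 1 + 5 * (c7 + 1) * (1 + Real.log (1 + H459R3.EU.dsq (u t))) := by
        have := ell_dsq (u t)
        linarith
    _ ≤ (T - t) ^ (1 - κ) + 5 * (c7 + 1)
        * ((1 + (Real.log (1 + H459R3.EU.dsq (u 0)) + K₂)) * (T - t) ^ (1 - κ)) := by gcongr
    _ = _ := by ring

end Pool.Agent.Zk61.EU
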