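import Pool.Agent.Zk61.EU.OneB

/-!
# One component: the criterion
-/

open MeasureTheory Set Filter
open scoped ContDiff Topology

namespace Pool.Agent.Zk61.EU

open Pool.Agent.H708R2.EulerSign Pool.Agent.H708R2.EulerTypeI Pool.Agent.W786.Dir
  Pool.Agent.W786.Max

variable {T : ℝ} {u : ℝ → V → V} {p : ℝ → V → ℝ}

/-- The constant of a rate is nonnegative. -/
lemma rate_nonneg (hT : 0 < T) {κ C : ℝ}
    (hC : ∀ t ∈ Ioo 0 T, Kt.GB (u t) (C * (T - t) ^ (-κ))) : 0 ≤ C := by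
  have hm : T / 2 ∈ Ioo 0 T := ⟨by linarith, by linarith⟩
  have h1 := (abs_nonneg _).trans (hC _ hm 0 0 0)
  have h2 : 0 < (T - T / 2) ^ (-κ) := Real.rpow_pos_of_pos (by linarith) _
  by_contra hcon
  push Not at hcon
  exact absurd h1 (not_le.2 (mul_neg_of_neg_of_pos hcon h2))

/-- A weighted form of Young's inequality. -/
lemma young_pow {q a s η : ℝ} (hq : 1 < q) (ha : 0 ≤ a) (hs : 0 < s) (hη : 0 < η) (α ν : ℝ) :
    a * s ^ α ≤ η * s ^ ν + η ^ (-(q - 1)) * a ^ q * s ^ (α + (q - 1) * (α - ν)) := by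
  have hsν : 0 < s ^ ν := Real.rpow_pos_of_pos hs _
  have hsα : 0 < s ^ α := Real.rpow_pos_of_pos hs _
  rcases le_or_gt a (η * s ^ (ν - α)) with h1 | h1
  · have h2 : a * s ^ α ≤ η * s ^ ν := by
      have h3 : s ^ ν = s ^ (ν - α) * s ^ α := by
        rw [← Real.rpow_add hs]
        congr 1
        ring
      rw [h3, ← mul_assoc]
      exact mul_le_mul_of_nonneg_right h1 hsα.le
    have h3 : 0 ≤ η ^ (-(q - 1)) * a ^ q * s ^ (α + (q - 1) * (α - ν)) := by positivity
    linarith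
  · have hη' : 0 < η * s ^ (ν - α) := by positivity
    have ha' : 0 < a := hη'.trans h1
    have h2 : 1 ≤ (a / (η * s ^ (ν - α))) ^ (q - 1) :=
      Real.one_le_rpow ((one_le_div hη').2 h1.le) (by linarith)
    have h3 : a * s ^ α * (a / (η * s ^ (ν - α))) ^ (q - 1)
        = η ^ (-(q - 1)) * a ^ q * s ^ (α + (q - 1) * (α - ν)) := by
      rw [Real.div_rpow ha'.le hη'.le, Real.mul_rpow hη.le (Real.rpow_nonneg hs.le _),
        ← Real.rpow_mul hs.le, Real.rpow_neg hη.le]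
      have e1 : a ^ q = a * a ^ (q - 1) := by
        have := Real.rpow_add ha' 1 (q - 1)
        rw [Real.rpow_one] at this
        rw [← this]
        congr 1
        ring
      have e2 : s ^ (α + (q - 1) * (α - ν)) = s ^ α / s ^ ((ν - α) * (q - 1)) := by
        rw [← Real.rpow_sub hs]
        congr 1
        ring
      rw [e1, e2]
      field_simp
    have h4 : a * s ^ α ≤ a * s ^ α * (a / (η * s ^ (ν - α))) ^ (q - 1) :=
      le_mul_of_one_le_right (by positivity) h2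
    have h5 : 0 ≤ η * s ^ ν := by positivity
    linarith

/-- Integrability of a function from that of a power. -/
lemma int_of_rpow {q : ℝ} (hq : 1 ≤ q) {a : ℝ → ℝ} (ha0 : ∀ t ∈ Ioo 0 T, 0 ≤ a t)
    (ha : IntegrableOn (fun t => a t ^ q) (Ioo 0 T)) : IntegrableOn a (Ioo 0 T) := by
  have hq0 : 0 < q := by linarith
  have hm : AEStronglyMeasurable a (volume.restrict (Ioo 0 T)) := by
    have h1 : AEMeasurable (fun t => (a t ^ q) ^ (1 / q)) (volume.restrict (Ioo 0 T)) :=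
      ha.aestronglyMeasurable.aemeasurable.pow_const (1 / q)
    refine (h1.congr ?_).aestronglyMeasurable
    refine (ae_restrict_iff' measurableSet_Ioo).2 (Eventually.of_forall fun t ht => ?_)
    simp only
    rw [← Real.rpow_mul (ha0 t ht), mul_one_div_cancel hq0.ne', Real.rpow_one]
  have h1 : IntegrableOn (fun t => 1 + a t ^ q) (Ioo 0 T) :=
    (integrableOn_const (C := (1 : ℝ)) (by simp)).add ha
  refine Integrable.mono' h1 hm ?_
  refine (ae_restrict_iff' measurableSet_Ioo).2 (Eventually.of_forall fun t ht => ?_)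
  have h0 := ha0 t ht
  rw [Real.norm_of_nonneg h0]
  rcases le_or_gt (a t) 1 with h2 | h2
  · have := Real.rpow_nonneg h0 q
    linarith
  · have := Real.rpow_le_rpow_of_exponent_le h2.le hq
    rw [Real.rpow_one] at this
    linarith

lemma tsub_cont (κ : ℝ) {a c : ℝ} (hc : c < T) :
    ContinuousOn (fun t => (T - t) ^ κ) (Icc a c) :=
  ContinuousOn.rpow_const (by fun_prop) fun s hs => Or.inl (by linarith [hs.2])

/-- **Type I, one component.** -/
theorem one_first (hT : 0 < T) (h : H459R3.NS.IsSol 0 T u p) {C lam : ℝ}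
    (hC : ∀ t ∈ Ioo 0 T, Kt.GB (u t) (C * (T - t) ^ (-(1 : ℝ)))) {e : ℝ → V} {a R : ℝ → ℝ}
    (he : ContDiffOn ℝ 1 e (Ioo 0 T)) (he1 : ∀ t ∈ Ioo 0 T, nrm (e t) = 1)
    (ha : IntegrableOn a (Ioo 0 T))
    (hea : ∀ t ∈ Ioo 0 T, nrm (deriv e t) ≤ a t)
    (hga : ∀ t ∈ Ioo 0 T, ∀ x, lam < nrm (vort (u t) x) →
      |e t ⬝ᵥ (grad (u t) x).mulVec (vort (u t) x)| ≤ a t * nrm (vort (u t) x))
    (hR : ∀ t ∈ Ioo 0 T, 0 < R t)
    (hRi : IntegrableOn (fun t => (T - t) ^ (-(3 / 5 * 1 : ℝ)) / R t) (Ioo 0 T))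
    (hd : ∀ᵐ t, t ∈ Ioo 0 T → ∃ x, IsMaxPt u t x ∧ ∀ y, e t ⬝ᵥ (y - x) = 0 →
      nrm (y - x) < R t → |e t ⬝ᵥ (grad (u t) y).mulVec (e t)| ≤ a t) :
    ∃ M, ∀ t ∈ Ico 0 T, H459R3.EU.dsq (u t) ≤ M := by
  have hCg := Cg_pos
  have hC0 : 0 ≤ C := rate_nonneg hT hC
  have ha0 : ∀ r ∈ Ioo 0 T, 0 ≤ a r := fun r hr => (nrm_nonneg _).trans (hea r hr)
  -- the component of the vorticity
  set t₀ := T / 2 with ht₀d
  have ht₀ : t₀ ∈ Ioo 0 T := ⟨by linarith, by linarith⟩
  have hsub0 : Ioo t₀ T ⊆ Ioo 0 T := Ioo_subset_Ioo_left ht₀.1.le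
  have haT : IntegrableOn a (Ioo t₀ T) := ha.mono_set hsub0
  set M : ℝ → ℝ := fun s => 4 * (C * (T - s) ^ (-(1 : ℝ))) with hM
  have haM : ∀ s, a s * M s = 4 * C * (a s / (T - s)) := by
    intro s
    simp only [hM]
    rw [Real.rpow_neg_one]
    ring
  have hcomp := comp_sol h ht₀ he he1 hea hga (M := M)
    (fun t ht x => vort_le_gb h ⟨ht.1.le, ht.2⟩ (hC t ht) x)
    (fun t ht => by
      simp only [haM]
      exact (ton_local haT ht.2).const_mul _)
  set W : ℝ → ℝ := fun t => M t₀ + |lam| + 2 * ∫ s in Ioo t₀ t, a s * M s with hW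
  have hWi : IntegrableOn W (Ioo t₀ T) := by
    have h1 : IntegrableOn (fun t => ∫ s in Ioo t₀ t, a s * M s) (Ioo t₀ T) := by
      have := (ton haT).const_mul (4 * C)
      refine this.congr ?_
      refine Eventually.of_forall fun t => ?_
      simp only [haM]
      rw [integral_const_mul]
    exact (integrableOn_const (C := M t₀ + |lam|) (by simp)).add (h1.const_mul 2)
  set b : ℝ → ℝ := fun t => a t + W t with hb
  have hbi : IntegrableOn b (Ioo t₀ T) := haT.add hWi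
  have hW0 : ∀ t ∈ Ioo t₀ T, 0 ≤ W t := fun t ht => (abs_nonneg _).trans (hcomp t ht 0)
  have hb0 : ∀ t ∈ Ioo t₀ T, 0 ≤ b t := fun t ht => add_nonneg (ha0 t (hsub0 ht)) (hW0 t ht)
  -- the logarithm
  obtain ⟨A, hA, hgrow⟩ := type_one_dsq hT h hC0 (fun t ht => by
    have := hC t ht
    rwa [Real.rpow_neg_one, ← div_eq_mul_inv] at this)
  set K := max 1 (Kt.Ck * C) with hK
  have hK1 : 1 ≤ K := le_max_left _ _
  obtain ⟨t₂, ht₂, hell⟩ := ell_le (u := u) (T := T) hA hK1 (t₂ := max t₀ (T - 1))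
    (max_lt ht₀.2 (by linarith)) (fun t ht => by
      have h1 : t₀ < t := (le_max_left _ _).trans_lt ht.1
      have h2 : T - 1 < t := (le_max_right _ _).trans_lt ht.1
      refine (hgrow t ⟨ht₀.1.trans h1, ht.2⟩).trans ?_
      have h3 : 0 ≤ Lf T t := by
        unfold Lf
        have := Real.log_nonpos (by linarith [ht.2]) (show T - t ≤ 1 by linarith)
        linarith
      refine mul_le_mul_of_nonneg_left (Real.exp_le_exp.2 ?_) hA
      exact mul_le_mul_of_nonneg_right (le_max_right _ _) h3)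
  -- the initial time
  set η := 1 / (2 * Cg) with hη
  have hη0 : 0 < η := by positivity
  have hηC : Cg * η ≤ 1 / 2 := by
    rw [hη]
    have : Cg * (1 / (2 * Cg)) = 1 / 2 := by field_simp
    exact this.le
  have hK0 : 0 < K := by linarith
  have hev := tail_small ht₀.2 hbi (η := η / (4 * K)) (by positivity)
  have hev2 : ∀ᶠ s in 𝓝[<] T, s ∈ Ioo (max (max t₀ t₂) (T - 1)) T :=
    Ioo_mem_nhdsLT (max_lt (max_lt ht₀.2 ht₂) (by linarith))
  obtain ⟨t₁, ht₁a, ht₁b⟩ := (hev.and hev2).exists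
  have h10 : t₀ < t₁ := (le_max_left _ _).trans_lt ((le_max_left _ _).trans_lt ht₁b.1)
  have h12 : t₂ < t₁ := (le_max_right _ _).trans_lt ((le_max_left _ _).trans_lt ht₁b.1)
  have h11 : T - 1 < t₁ := (le_max_right _ _).trans_lt ht₁b.1
  have hsub1 : Ioo t₁ T ⊆ Ioo t₀ T := Ioo_subset_Ioo_left h10.le
  have hsub : Ioo t₁ T ⊆ Ioo 0 T := hsub1.trans hsub0
  set L : ℝ → ℝ := fun t => 4 * K * (1 + Lf T t) with hL
  have hLf : ∀ t ∈ Ioo t₁ T, 0 ≤ Lf T t := fun t ht => by
    unfold Lf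
    have := Real.log_nonpos (by linarith [ht.2]) (show T - t ≤ 1 by linarith [ht.1])
    linarith
  have hLc : ∀ c ∈ Ioo t₁ T, ContinuousOn (fun t => 1 + L t) (Icc t₁ c) := by
    intro c hc
    simp only [hL, Lf]
    refine continuousOn_const.add (continuousOn_const.mul (continuousOn_const.add ?_))
    refine (ContinuousOn.log (by fun_prop) fun t ht => ?_).neg
    have : 0 < T - t := by linarith [ht.2, hc.2]
    exact this.ne'
  have hbL : ∀ c ∈ Ioo t₁ T, IntegrableOn (fun t => b t * (1 + L t)) (Ioo t₁ c) := by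
    intro c hc
    have h1 : IntegrableOn b (Icc t₁ c) := by
      rw [integrableOn_Icc_iff_integrableOn_Ioo]
      exact hbi.mono_set (Ioo_subset_Ioo h10.le hc.2.le)
    exact (h1.mul_continuousOn (hLc c hc) isCompact_Icc).mono_set Ioo_subset_Icc_self
  have hbtail : ∫ t in Ioo t₁ T, b t ≤ η / (4 * K) := by
    have h1 : ∫ t in t₁..T, |b t| = ∫ t in Ioo t₁ T, b t := by
      rw [intervalIntegral.integral_of_le ht₁b.2.le, integral_Ioc_eq_integral_Ioo]
      exact setIntegral_congr_fun measurableSet_Ioo fun t ht => abs_of_nonneg (hb0 t (hsub1 ht))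
    rw [← h1]
    exact ht₁a.le
  refine finish h (κ := 1) (C := C) zero_le_one hC ⟨ht₀.1.le.trans h10.le, ht₁b.2⟩
    (by linarith) (b := b) (L := L) (R := R) (fun t ht => hR t (hsub ht))
    (hRi.mono_set hsub) (fun t ht => hb0 t (hsub1 ht)) (fun t ht => hell t ⟨h12.trans ht.1, ht.2⟩)
    hbL (C' := (1 + 4 * K) * (η / (4 * K))) hηC (fun c hc => ?_) ?_
  · have hsubc : Ioo t₁ c ⊆ Ioo t₁ T := Ioo_subset_Ioo_right hc.2.le
    have hbT : IntegrableOn b (Ioo t₁ T) := hbi.mono_set hsub1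
    have h1 : ∫ t in Ioo t₁ c, b t * (1 + L t) ≤ ∫ t in Ioo t₁ c, b t * (1 + L c) := by
      refine setIntegral_mono_on (hbL c hc) ((hbT.mono_set hsubc).mul_const _)
        measurableSet_Ioo fun t ht => ?_
      refine mul_le_mul_of_nonneg_left ?_ (hb0 t (hsub1 (hsubc ht)))
      have := Lf_mono (T := T) ht.2.le hc.2
      simp only [hL]
      gcongr
    have h2 : ∫ t in Ioo t₁ c, b t * (1 + L c) ≤ (η / (4 * K)) * (1 + L c) := by
      rw [integral_mul_const]
      have h3 : ∫ t in Ioo t₁ c, b t ≤ ∫ t in Ioo t₁ T, b t :=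
        setIntegral_mono_set hbT ((ae_restrict_iff' measurableSet_Ioo).2
          (Eventually.of_forall fun t ht => hb0 t (hsub1 ht))) hsubc.eventuallyLE
      have h4 : 0 ≤ 1 + L c := by
        have := hLf c hc
        simp only [hL]
        positivity
      exact mul_le_mul_of_nonneg_right (h3.trans hbtail) h4
    refine (h1.trans h2).trans (le_of_eq ?_)
    simp only [hL]
    field_simp
    ring
  · filter_upwards [hd] with t ht htI
    obtain ⟨x, hx, hdx⟩ := ht (hsub htI)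
    refine ⟨x, e t, hx, he1 t (hsub htI), fun y hy hyR => ⟨?_, ?_⟩⟩
    · have h1 := hcomp t (hsub1 htI) y
      have h2 := ha0 t (hsub htI)
      exact h1.trans (le_add_of_nonneg_left h2)
    · exact (hdx y hy hyR).trans (le_add_of_nonneg_right (hW0 t (hsub1 htI)))

end Pool.Agent.Zk61.EU
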