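import Pool.Agent.Zk61.EU.OneC

/-!
# One component: faster rates
-/

open MeasureTheory Set Filter
open scoped ContDiff Topology

namespace Pool.Agent.Zk61.EU

open Pool.Agent.H708R2.EulerSign Pool.Agent.H708R2.EulerTypeI Pool.Agent.W786.Dir
  Pool.Agent.W786.Max

variable {T : ℝ} {u : ℝ → V → V} {p : ℝ → V → ℝ}

/-- The integral of `a M` for `a ∈ L^q`. -/
lemma aM_le {q κ μ C η : ℝ} (hq : 1 < q) (hμ : 0 < μ) (hκμ : q * κ = q * μ + q - 1)
    (hη : 0 < η) (hC : 0 ≤ C) {a : ℝ → ℝ} {t₀ : ℝ}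
    (ha0 : ∀ t ∈ Ioo t₀ T, 0 ≤ a t) (hai : IntegrableOn a (Ioo t₀ T))
    (haq : IntegrableOn (fun t => a t ^ q) (Ioo t₀ T))
    (hsm : ∫ t in Ioo t₀ T, a t ^ q ≤ η ^ q) {t : ℝ} (ht : t ∈ Ioo t₀ T) :
    IntegrableOn (fun s => a s * (4 * (C * (T - s) ^ (-κ)))) (Ioo t₀ t) ∧
    ∫ s in Ioo t₀ t, a s * (4 * (C * (T - s) ^ (-κ)))
      ≤ 4 * C * ((1 / μ + 1) * η) * (T - t) ^ (-μ) := by
  have hsub : Ioo t₀ t ⊆ Ioo t₀ T := Ioo_subset_Ioo_right ht.2.le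
  have hTt : 0 < T - t := by linarith [ht.2]
  have i1 : IntegrableOn (fun s => a s * (4 * (C * (T - s) ^ (-κ)))) (Ioo t₀ t) := by
    have h1 : IntegrableOn a (Icc t₀ t) := by
      rw [integrableOn_Icc_iff_integrableOn_Ioo]
      exact hai.mono_set hsub
    have h2 : ContinuousOn (fun s => 4 * (C * (T - s) ^ (-κ))) (Icc t₀ t) :=
      continuousOn_const.mul (continuousOn_const.mul (tsub_cont (-κ) ht.2))
    exact (h1.mul_continuousOn h2 isCompact_Icc).mono_set Ioo_subset_Icc_self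
  refine ⟨i1, ?_⟩
  obtain ⟨i2, i3⟩ := int_pow_le (T := T) (κ := μ + 1) (by linarith) ht.1.le ht.2
  have i2' : IntegrableOn (fun s => (T - s) ^ (-(μ + 1))) (Ioo t₀ t) :=
    i2.mono_set Ioo_subset_Icc_self
  have hg : IntegrableOn (fun s => 4 * C * (η * (T - s) ^ (-(μ + 1))
      + η ^ (-(q - 1)) * (T - t) ^ (-μ) * a s ^ q)) (Ioo t₀ t) :=
    ((i2'.const_mul η).add ((haq.mono_set hsub).const_mul _)).const_mul _
  have h1 : ∫ s in Ioo t₀ t, a s * (4 * (C * (T - s) ^ (-κ)))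
      ≤ ∫ s in Ioo t₀ t, 4 * C * (η * (T - s) ^ (-(μ + 1))
        + η ^ (-(q - 1)) * (T - t) ^ (-μ) * a s ^ q) := by
    refine setIntegral_mono_on i1 hg measurableSet_Ioo fun s hs => ?_
    have hs0 : 0 < T - s := by linarith [hs.2]
    have h2 := young_pow hq (ha0 s (hsub hs)) hs0 hη (-κ) (-(μ + 1))
    have e1 : -κ + (q - 1) * (-κ - -(μ + 1)) = -μ := by
      have : -κ + (q - 1) * (-κ - -(μ + 1)) = -(q * κ) + (q * μ + q - 1) - μ := by ring
      rw [this, hκμ]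
      ring
    rw [e1] at h2
    have h3 : (T - s) ^ (-μ) ≤ (T - t) ^ (-μ) :=
      Real.rpow_le_rpow_of_nonpos hTt (by linarith [hs.2]) (by linarith)
    have h4 : 0 ≤ η ^ (-(q - 1)) * a s ^ q :=
      mul_nonneg (Real.rpow_nonneg hη.le _) (Real.rpow_nonneg (ha0 s (hsub hs)) _)
    calc a s * (4 * (C * (T - s) ^ (-κ))) = 4 * C * (a s * (T - s) ^ (-κ)) := by ring
      _ ≤ 4 * C * (η * (T - s) ^ (-(μ + 1)) + η ^ (-(q - 1)) * a s ^ q * (T - s) ^ (-μ)) := by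
          gcongr
      _ ≤ 4 * C * (η * (T - s) ^ (-(μ + 1)) + η ^ (-(q - 1)) * a s ^ q * (T - t) ^ (-μ)) := by
          gcongr
      _ = _ := by ring
  refine h1.trans ?_
  rw [integral_const_mul]
  have e2 := integral_add (i2'.const_mul η) ((haq.mono_set hsub).const_mul
    (η ^ (-(q - 1)) * (T - t) ^ (-μ)))
  rw [e2, integral_const_mul, integral_const_mul]
  have h5 : ∫ s in Ioo t₀ t, (T - s) ^ (-(μ + 1)) ≤ (T - t) ^ (-μ) / μ := by
    rw [← integral_Ioc_eq_integral_Ioo, ← intervalIntegral.integral_of_le ht.1.le]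
    refine i3.trans (le_of_eq ?_)
    congr 1
    · congr 1
      ring
    · ring
  have h6 : ∫ s in Ioo t₀ t, a s ^ q ≤ η ^ q := by
    refine (setIntegral_mono_set haq ((ae_restrict_iff' measurableSet_Ioo).2
      (Eventually.of_forall fun s hs => Real.rpow_nonneg (ha0 s hs) _)) hsub.eventuallyLE).trans hsm
  have h7 : η ^ (-(q - 1)) * η ^ q = η := by
    rw [← Real.rpow_add hη]
    have : -(q - 1) + q = 1 := by ring
    rw [this, Real.rpow_one]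
  have h8 : 0 ≤ η ^ (-(q - 1)) * (T - t) ^ (-μ) := by positivity
  calc 4 * C * (η * (∫ s in Ioo t₀ t, (T - s) ^ (-(μ + 1)))
        + η ^ (-(q - 1)) * (T - t) ^ (-μ) * (∫ s in Ioo t₀ t, a s ^ q))
      ≤ 4 * C * (η * ((T - t) ^ (-μ) / μ) + η ^ (-(q - 1)) * (T - t) ^ (-μ) * η ^ q) := by
        gcongr
    _ = 4 * C * (η * ((T - t) ^ (-μ) / μ) + (η ^ (-(q - 1)) * η ^ q) * (T - t) ^ (-μ)) := by ring
    _ = 4 * C * (η * ((T - t) ^ (-μ) / μ) + η * (T - t) ^ (-μ)) := by rw [h7]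
    _ = 4 * C * ((1 / μ + 1) * η) * (T - t) ^ (-μ) := by ring

/-- **One component, faster rates.** -/
theorem one_fast (hT : 0 < T) (h : H459R3.NS.IsSol 0 T u p) {q C lam : ℝ} (hq : 1 < q)
    (hC : ∀ t ∈ Ioo 0 T, Kt.GB (u t) (C * (T - t) ^ (-((3 * q - 1) / (2 * q))))) {e : ℝ → V}
    {a R : ℝ → ℝ}
    (he : ContDiffOn ℝ 1 e (Ioo 0 T)) (he1 : ∀ t ∈ Ioo 0 T, nrm (e t) = 1)
    (haq : IntegrableOn (fun t => a t ^ q) (Ioo 0 T))
    (hea : ∀ t ∈ Ioo 0 T, nrm (deriv e t) ≤ a t)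
    (hga : ∀ t ∈ Ioo 0 T, ∀ x, lam < nrm (vort (u t) x) →
      |e t ⬝ᵥ (grad (u t) x).mulVec (vort (u t) x)| ≤ a t * nrm (vort (u t) x))
    (hR : ∀ t ∈ Ioo 0 T, 0 < R t)
    (hRi : IntegrableOn (fun t => (T - t) ^ (-(3 / 5 * ((3 * q - 1) / (2 * q)))) / R t) (Ioo 0 T))
    (hd : ∀ᵐ t, t ∈ Ioo 0 T → ∃ x, IsMaxPt u t x ∧ ∀ y, e t ⬝ᵥ (y - x) = 0 →
      nrm (y - x) < R t → |e t ⬝ᵥ (grad (u t) y).mulVec (e t)| ≤ a t) :
    ∃ M, ∀ t ∈ Ico 0 T, H459R3.EU.dsq (u t) ≤ M := by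
  have hCg := Cg_pos
  have hq0 : 0 < q := by linarith
  set κ := (3 * q - 1) / (2 * q) with hκ
  set μ := (q + 1) / (2 * q) with hμ
  have hμ0 : 0 < μ := by positivity
  have hκμ : q * κ = q * μ + q - 1 := by
    rw [hκ, hμ]
    field_simp
    ring
  have hκ1 : 1 < κ := by
    rw [hκ, lt_div_iff₀ (by positivity)]
    linarith
  have hκ2 : κ < 2 := by
    rw [hκ, div_lt_iff₀ (by positivity)]
    linarith
  have hμκ : -μ + (1 - κ) = -1 := by
    rw [hκ, hμ]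
    field_simp
    ring
  have hC0 : 0 ≤ C := rate_nonneg hT hC
  have ha0 : ∀ r ∈ Ioo 0 T, 0 ≤ a r := fun r hr => (nrm_nonneg _).trans (hea r hr)
  have hai : IntegrableOn a (Ioo 0 T) := int_of_rpow hq.le ha0 haq
  obtain ⟨K, hK0, hK⟩ := ell_rate h hκ1 hC0 hC
  -- the small constants
  set D := K * (2 * (4 * C * (1 / μ + 1))) with hD
  have hD0 : 0 ≤ D := by positivity
  set η₁ := 1 / (2 * Cg * (D + 1)) with hη₁
  have hη₁0 : 0 < η₁ := by positivity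
  have hDη : Cg * (D * η₁) ≤ 1 / 2 := by
    have h1 : Cg * ((D + 1) * η₁) = 1 / 2 := by
      rw [hη₁]
      field_simp
    have h2 : Cg * (D * η₁) ≤ Cg * ((D + 1) * η₁) := by
      gcongr
      linarith
    linarith
  have hη₁q : 0 < η₁ ^ q := Real.rpow_pos_of_pos hη₁0 _
  have hev := tail_small hT haq hη₁q
  have hev2 : ∀ᶠ s in 𝓝[<] T, s ∈ Ioo (max 0 (T - 1)) T :=
    Ioo_mem_nhdsLT (max_lt hT (by linarith))
  obtain ⟨t₀, ht₀a, ht₀b⟩ := (hev.and hev2).exists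
  have h00 : 0 < t₀ := (le_max_left _ _).trans_lt ht₀b.1
  have h01 : T - 1 < t₀ := (le_max_right _ _).trans_lt ht₀b.1
  have ht₀ : t₀ ∈ Ioo 0 T := ⟨h00, ht₀b.2⟩
  have hsub : Ioo t₀ T ⊆ Ioo 0 T := Ioo_subset_Ioo_left h00.le
  have hsm : ∫ t in Ioo t₀ T, a t ^ q ≤ η₁ ^ q := by
    have h1 : ∫ t in t₀..T, |a t ^ q| = ∫ t in Ioo t₀ T, a t ^ q := by
      rw [intervalIntegral.integral_of_le ht₀b.2.le, integral_Ioc_eq_integral_Ioo]
      exact setIntegral_congr_fun measurableSet_Ioo fun t ht =>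
        abs_of_nonneg (Real.rpow_nonneg (ha0 t (hsub ht)) _)
    rw [← h1]
    exact ht₀a.le
  have haM := fun t (ht : t ∈ Ioo t₀ T) => aM_le (T := T) hq hμ0 hκμ hη₁0 hC0
    (fun t ht => ha0 t (hsub ht)) (hai.mono_set hsub) (haq.mono_set hsub) hsm ht
  -- the component of the vorticity
  set M : ℝ → ℝ := fun s => 4 * (C * (T - s) ^ (-κ)) with hM
  have hcomp := comp_sol h ht₀ he he1 hea hga (M := M)
    (fun t ht x => vort_le_gb h ⟨ht.1.le, ht.2⟩ (hC t ht) x) (fun t ht => (haM t ht).1)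
  set W₀ := M t₀ + |lam| with hW₀
  have hW₀0 : 0 ≤ W₀ := by
    have : 0 ≤ (T - t₀) ^ (-κ) := Real.rpow_nonneg (by linarith [ht₀.2]) _
    simp only [hW₀, hM]
    positivity
  set η₂ := 2 * (4 * C * ((1 / μ + 1) * η₁)) with hη₂
  have hη₂0 : 0 ≤ η₂ := by positivity
  have hKη : K * η₂ = D * η₁ := by
    rw [hη₂, hD]
    ring
  set W : ℝ → ℝ := fun t => W₀ + η₂ * (T - t) ^ (-μ) with hW
  have hWle : ∀ t ∈ Ioo t₀ T, ∀ x, |vort (u t) x ⬝ᵥ e t| ≤ W t := by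
    intro t ht x
    refine (hcomp t ht x).trans ?_
    have h1 := (haM t ht).2
    simp only [hW]
    have h2 : 2 * (∫ s in Ioo t₀ t, a s * M s) ≤ η₂ * (T - t) ^ (-μ) := by
      calc 2 * (∫ s in Ioo t₀ t, a s * M s)
          ≤ 2 * (4 * C * ((1 / μ + 1) * η₁) * (T - t) ^ (-μ)) := by gcongr
        _ = η₂ * (T - t) ^ (-μ) := by rw [hη₂]; ring
    linarith
  have hW0 : ∀ t ∈ Ioo t₀ T, 0 ≤ W t := fun t ht => (abs_nonneg _).trans (hWle t ht 0)
  set b : ℝ → ℝ := fun t => a t + W t with hb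
  have hb0 : ∀ t ∈ Ioo t₀ T, 0 ≤ b t := fun t ht => add_nonneg (ha0 t (hsub ht)) (hW0 t ht)
  set L : ℝ → ℝ := fun t => K * (T - t) ^ (1 - κ) - 1 with hL
  have h1L : ∀ t, 1 + L t = K * (T - t) ^ (1 - κ) := fun t => by simp only [hL]; ring
  have hbL : ∀ c ∈ Ioo t₀ T, IntegrableOn (fun t => b t * (1 + L t)) (Ioo t₀ c) := by
    intro c hc
    simp only [h1L]
    have h1 : IntegrableOn b (Icc t₀ c) := by
      refine Integrable.add ?_ ?_
      · change IntegrableOn a (Icc t₀ c)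
        rw [integrableOn_Icc_iff_integrableOn_Ioo]
        exact hai.mono_set (Ioo_subset_Ioo h00.le hc.2.le)
      · have : ContinuousOn W (Icc t₀ c) :=
          continuousOn_const.add (continuousOn_const.mul (tsub_cont (-μ) hc.2))
        exact this.integrableOn_Icc
    have h2 : ContinuousOn (fun t => K * (T - t) ^ (1 - κ)) (Icc t₀ c) :=
      continuousOn_const.mul (tsub_cont (1 - κ) hc.2)
    exact (h1.mul_continuousOn h2 isCompact_Icc).mono_set Ioo_subset_Icc_self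
  -- the integrable part
  set g : ℝ → ℝ := fun t => a t ^ q + (T - t) ^ (-(1 / 2) : ℝ) + W₀ * (T - t) ^ (-(κ - 1)) with hg
  have hgi : IntegrableOn g (Ioo t₀ T) :=
    ((haq.mono_set hsub).add (pow_int ht₀.2.le (by norm_num))).add
      ((pow_int ht₀.2.le (by linarith)).const_mul W₀)
  have hg0 : ∀ t ∈ Ioo t₀ T, 0 ≤ g t := fun t ht => by
    have h1 := Real.rpow_nonneg (ha0 t (hsub ht)) q
    have h2 : 0 < T - t := by linarith [ht.2]
    simp only [hg]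
    positivity
  have hpt : ∀ t ∈ Ioo t₀ T, b t * (1 + L t) ≤ K * g t + K * η₂ * (1 / (T - t)) := by
    intro t ht
    have h2 : 0 < T - t := by linarith [ht.2]
    rw [h1L]
    have h3 := young_pow hq (ha0 t (hsub ht)) h2 one_pos (1 - κ) (-(1 / 2))
    have e1 : 1 - κ + (q - 1) * (1 - κ - -(1 / 2)) = 0 := by
      rw [hκ]
      field_simp
      ring
    rw [e1, Real.rpow_zero, Real.one_rpow, one_mul, one_mul, mul_one] at h3
    have h4 : (T - t) ^ (-μ) * (T - t) ^ (1 - κ) = 1 / (T - t) := by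
      rw [← Real.rpow_add h2, hμκ, Real.rpow_neg_one, one_div]
    have e2 : (1 - κ : ℝ) = -(κ - 1) := by ring
    simp only [hb, hW, hg]
    calc (a t + (W₀ + η₂ * (T - t) ^ (-μ))) * (K * (T - t) ^ (1 - κ))
        = K * (a t * (T - t) ^ (1 - κ) + W₀ * (T - t) ^ (1 - κ))
          + K * η₂ * ((T - t) ^ (-μ) * (T - t) ^ (1 - κ)) := by ring
      _ ≤ K * (((T - t) ^ (-(1 / 2) : ℝ) + a t ^ q) + W₀ * (T - t) ^ (1 - κ))
          + K * η₂ * ((T - t) ^ (-μ) * (T - t) ^ (1 - κ)) := by gcongr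
      _ = _ := by
          rw [h4, e2]
          ring
  refine finish h (κ := κ) (C := C) (by linarith) hC ⟨h00.le, ht₀.2⟩
    (by linarith) (b := b) (L := L) (R := R) (fun t ht => hR t (hsub ht))
    (hRi.mono_set hsub) hb0 (fun t ht => ?_)
    hbL (C' := K * ∫ t in Ioo t₀ T, g t) (η := K * η₂) (by rw [hKη]; exact hDη)
    (fun c hc => ?_) ?_
  · have h1 := hK t (hsub ht) (by linarith [ht.1])
    simp only [hL]
    linarith
  · have hsubc : Ioo t₀ c ⊆ Ioo t₀ T := Ioo_subset_Ioo_right hc.2.le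
    obtain ⟨j1, j2⟩ := int_inv (T := T) hc.1.le hc.2
    have j1' : IntegrableOn (fun t => 1 / (T - t)) (Ioo t₀ c) := j1.mono_set Ioo_subset_Icc_self
    have j3 : IntegrableOn (fun t => K * g t) (Ioo t₀ c) := (hgi.mono_set hsubc).const_mul K
    have j4 : IntegrableOn (fun t => K * η₂ * (1 / (T - t))) (Ioo t₀ c) :=
      j1'.const_mul (K * η₂)
    have h1 : ∫ t in Ioo t₀ c, b t * (1 + L t)
        ≤ ∫ t in Ioo t₀ c, (K * g t + K * η₂ * (1 / (T - t))) :=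
      setIntegral_mono_on (hbL c hc) (j3.add j4) measurableSet_Ioo
        fun t ht => hpt t (hsubc ht)
    refine h1.trans ?_
    rw [integral_add j3 j4, integral_const_mul, integral_const_mul]
    have h2 : ∫ t in Ioo t₀ c, g t ≤ ∫ t in Ioo t₀ T, g t :=
      setIntegral_mono_set hgi ((ae_restrict_iff' measurableSet_Ioo).2
        (Eventually.of_forall fun t ht => hg0 t ht)) hsubc.eventuallyLE
    have h3 : ∫ t in Ioo t₀ c, 1 / (T - t) ≤ Lf T c := by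
      rw [← integral_Ioc_eq_integral_Ioo, ← intervalIntegral.integral_of_le hc.1.le, j2]
      have : 0 ≤ Lf T t₀ := by
        unfold Lf
        have := Real.log_nonpos (by linarith [ht₀.2]) (show T - t₀ ≤ 1 by linarith)
        linarith
      linarith
    have h4 : 0 ≤ K * η₂ := by positivity
    gcongr
  · filter_upwards [hd] with t ht htI
    obtain ⟨x, hx, hdx⟩ := ht (hsub htI)
    refine ⟨x, e t, hx, he1 t (hsub htI), fun y hy hyR => ⟨?_, ?_⟩⟩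
    · exact (hWle t htI y).trans (le_add_of_nonneg_left (ha0 t (hsub htI)))
    · exact (hdx y hy hyR).trans (le_add_of_nonneg_right (hW0 t htI))

/-- **One component.** -/
theorem one_comp (hT : 0 < T) (h : H459R3.NS.IsSol 0 T u p) {q C lam : ℝ} (hq : 1 ≤ q)
    (hC : ∀ t ∈ Ioo 0 T, Kt.GB (u t) (C * (T - t) ^ (-((3 * q - 1) / (2 * q))))) {e : ℝ → V}
    {a R : ℝ → ℝ}
    (he : ContDiffOn ℝ 1 e (Ioo 0 T)) (he1 : ∀ t ∈ Ioo 0 T, nrm (e t) = 1)
    (haq : IntegrableOn (fun t => a t ^ q) (Ioo 0 T))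
    (hea : ∀ t ∈ Ioo 0 T, nrm (deriv e t) ≤ a t)
    (hga : ∀ t ∈ Ioo 0 T, ∀ x, lam < nrm (vort (u t) x) →
      |e t ⬝ᵥ (grad (u t) x).mulVec (vort (u t) x)| ≤ a t * nrm (vort (u t) x))
    (hR : ∀ t ∈ Ioo 0 T, 0 < R t)
    (hRi : IntegrableOn (fun t => (T - t) ^ (-(3 / 5 * ((3 * q - 1) / (2 * q)))) / R t) (Ioo 0 T))
    (hd : ∀ᵐ t, t ∈ Ioo 0 T → ∃ x, IsMaxPt u t x ∧ ∀ y, e t ⬝ᵥ (y - x) = 0 →
      nrm (y - x) < R t → |e t ⬝ᵥ (grad (u t) y).mulVec (e t)| ≤ a t) :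
    ∃ M, ∀ t ∈ Ico 0 T, H459R3.EU.dsq (u t) ≤ M := by
  rcases hq.eq_or_lt with h1 | h1
  · subst h1
    have e1 : (3 * 1 - 1 : ℝ) / (2 * 1) = 1 := by norm_num
    rw [e1] at hC hRi
    exact one_first hT h hC he he1 (by simpa only [Real.rpow_one] using haq) hea hga hR hRi hd
  · exact one_fast hT h h1 hC he he1 haq hea hga hR hRi hd

end Pool.Agent.Zk61.EU
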