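import Pool.Agent.Zk61.EU.OneD

/-!
# Polynomial growth
-/

open MeasureTheory Set Filter
open scoped ContDiff Topology

namespace Pool.Agent.Zk61.EU

open Pool.Agent.H708R2.EulerSign Pool.Agent.H708R2.EulerTypeI Pool.Agent.W786.Dir
  Pool.Agent.W786.Max

variable {T : ℝ} {u : ℝ → V → V} {p : ℝ → V → ℝ}

/-- The velocity from the gradient and the energy. -/
lemma vel_gb (h : H459R3.NS.IsSol 0 T u p) {t : ℝ} (ht : t ∈ Ico 0 T) {B : ℝ} (hB1 : 1 ≤ B)
    (hB : Kt.GB (u t) B) (x : V) (i : Fin 3) :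
    |u t x i| ≤ (3 / 2 + Real.sqrt (H459R3.NS.energy (u 0))) * B ^ (3 / 5 : ℝ) := by
  have hB0 : 0 < B := by linarith
  have hE : ∫ x in H459R3.NS.cube, (fun y => u t y i) x ^ 2 ≤ H459R3.NS.energy (u 0) := by
    rw [← Kt.energy_eq h ht]
    exact Finset.single_le_sum (f := fun i => ∫ x in H459R3.NS.cube, u t x i ^ 2)
      (fun _ _ => integral_nonneg fun _ => sq_nonneg _) (Finset.mem_univ i)
  have hr0 : 0 < B ^ (-(2 / 5) : ℝ) := Real.rpow_pos_of_pos hB0 _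
  have hr1 : B ^ (-(2 / 5) : ℝ) ≤ 1 := Real.rpow_le_one_of_one_le_of_nonpos hB1 (by norm_num)
  have key := Kt.sup_interp (h.sp ht i) (L := B) (E := H459R3.NS.energy (u 0))
    (r := B ^ (-(2 / 5) : ℝ) / 2) (fun x j => hB x i j) hE (by positivity) (by linarith) x
  refine key.trans ?_
  have e1 : 3 * B * (B ^ (-(2 / 5) : ℝ) / 2) = 3 / 2 * B ^ (3 / 5 : ℝ) := by
    have : B ^ (3 / 5 : ℝ) = B * B ^ (-(2 / 5) : ℝ) := by
      have h1 := Real.rpow_add hB0 1 (-(2 / 5))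
      rw [Real.rpow_one] at h1
      rw [← h1]
      norm_num
    rw [this]
    ring
  have e2 : Real.sqrt (H459R3.NS.energy (u 0) / (2 * (B ^ (-(2 / 5) : ℝ) / 2)) ^ 3)
      = Real.sqrt (H459R3.NS.energy (u 0)) * B ^ (3 / 5 : ℝ) := by
    have h1 : (2 * (B ^ (-(2 / 5) : ℝ) / 2)) ^ 3 = (B ^ (-(3 / 5) : ℝ)) ^ 2 := by
      rw [mul_div_cancel₀ _ (two_ne_zero), ← Real.rpow_natCast, ← Real.rpow_natCast,
        ← Real.rpow_mul hB0.le, ← Real.rpow_mul hB0.le]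
      norm_num
    rw [h1, Real.sqrt_div' _ (sq_nonneg _), Real.sqrt_sq (Real.rpow_nonneg hB0.le _),
      Real.rpow_neg hB0.le, div_eq_mul_inv, inv_inv]
  rw [e1, e2]
  linarith

/-- The criterion with a bound for the velocity. -/
theorem finish0 (h : H459R3.NS.IsSol 0 T u p) {t₁ : ℝ} (ht₁ : t₁ ∈ Ico 0 T)
    (hT1 : T - t₁ ≤ 1) {b L R M : ℝ → ℝ} (hR : ∀ t ∈ Ioo t₁ T, 0 < R t)
    (hM : ∀ t ∈ Ioo t₁ T, ∀ x y, nrm (u t y - u t x) ≤ M t)
    (hRi : IntegrableOn (fun t => M t / R t) (Ioo t₁ T))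
    (hb0 : ∀ t ∈ Ioo t₁ T, 0 ≤ b t)
    (hL : ∀ t ∈ Ioo t₁ T, ell (1 / 4) (Nh (u t)) ≤ L t)
    (hbi : ∀ c ∈ Ioo t₁ T, IntegrableOn (fun t => b t * (1 + L t)) (Ioo t₁ c))
    {C' η : ℝ} (hη : Cg * η ≤ 1 / 2)
    (hbC : ∀ c ∈ Ioo t₁ T, ∫ t in Ioo t₁ c, b t * (1 + L t) ≤ C' + η * Lf T c)
    (hyp : ∀ᵐ t, t ∈ Ioo t₁ T → ∃ x e, IsMaxPt u t x ∧ nrm e = 1 ∧
      ∀ y, e ⬝ᵥ (y - x) = 0 → nrm (y - x) < R t → |vort (u t) y ⬝ᵥ e| ≤ b t ∧
        |e ⬝ᵥ (grad (u t) y).mulVec e| ≤ b t) :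
    ∃ M, ∀ t ∈ Ico 0 T, H459R3.EU.dsq (u t) ≤ M := by
  have hCg := Cg_pos
  have hpi := pi2_pos
  have hin : ∀ t ∈ Ioo t₁ T, t ∈ Ioo 0 T := fun t ht => ⟨ht₁.1.trans_lt ht.1, ht.2⟩
  set D := 2 * Real.pi with hD
  have hD0 : 0 ≤ D := by positivity
  set r : ℝ → ℝ := fun t => M t / R t with hr
  have hr0 : ∀ t ∈ Ioo t₁ T, 0 ≤ r t := fun t ht =>
    div_nonneg ((nrm_nonneg _).trans (hM t ht 0 0)) (hR t ht).le
  have hL0 : ∀ t ∈ Ioo t₁ T, 0 ≤ L t := fun t ht =>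
    (ell_nonneg (by norm_num) (one_le_Nh _)).trans (hL t ht)
  set ρ : ℝ → ℝ := fun t => Cg * (1 + D * r t + b t * (1 + L t)) with hρ
  have hsubc : ∀ c ∈ Ioo t₁ T, Ioo t₁ c ⊆ Ioo t₁ T := fun c hc => Ioo_subset_Ioo_right hc.2.le
  have i1 : ∀ c, IntegrableOn (fun _ : ℝ => (1 : ℝ)) (Ioo t₁ c) := fun c =>
    integrableOn_const (by simp)
  have i2 : ∀ c ∈ Ioo t₁ T, IntegrableOn (fun t => D * r t) (Ioo t₁ c) := fun c hc =>
    (hRi.mono_set (hsubc c hc)).const_mul D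
  have hρi : ∀ c ∈ Ioo t₁ T, IntegrableOn ρ (Ioo t₁ c) := fun c hc =>
    (((i1 c).add (i2 c hc)).add (hbi c hc)).const_mul Cg
  refine gen h ht₁ (ρ := ρ) (C := Cg * (1 + D * (∫ t in Ioo t₁ T, r t) + C'))
    (fun c hc => by rw [integrableOn_Icc_iff_integrableOn_Ioo]; exact hρi c hc) (fun t ht => ?_)
    (fun c hc => ?_) ?_
  · have h1 := hr0 t ht
    have h2 := hb0 t ht
    have h3 := hL0 t ht
    simp only [hρ]
    positivity
  · rw [intervalIntegral.integral_of_le hc.1.le, integral_Ioc_eq_integral_Ioo]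
    have e1 : ∫ t in Ioo t₁ c, ρ t = Cg * ((∫ _t in Ioo t₁ c, (1 : ℝ))
        + (∫ t in Ioo t₁ c, D * r t) + ∫ t in Ioo t₁ c, b t * (1 + L t)) := by
      simp only [hρ]
      rw [integral_const_mul]
      congr 1
      have e2 := integral_add ((i1 c).add (i2 c hc)) (hbi c hc)
      have e3 := integral_add (i1 c) (i2 c hc)
      simp only [Pi.add_apply] at e2 e3
      rw [e2, e3]
    rw [e1]
    have e2 : ∫ _t in Ioo t₁ c, (1 : ℝ) ≤ 1 := by
      rw [setIntegral_const, measureReal_def, Real.volume_Ioo,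
        ENNReal.toReal_ofReal (by linarith [hc.1])]
      simp only [smul_eq_mul, mul_one]
      linarith [hc.2]
    have e3 : ∫ t in Ioo t₁ c, D * r t ≤ D * ∫ t in Ioo t₁ T, r t := by
      rw [integral_const_mul]
      refine mul_le_mul_of_nonneg_left ?_ hD0
      refine setIntegral_mono_set hRi ?_ (hsubc c hc).eventuallyLE
      exact (ae_restrict_iff' measurableSet_Ioo).2 (Eventually.of_forall fun t ht => hr0 t ht)
    have e4 := hbC c hc
    have hLf : 0 ≤ Lf T c := by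
      unfold Lf
      have := Real.log_nonpos (by linarith [hc.2]) (show T - c ≤ 1 by linarith [hc.1])
      linarith
    have e5 : Cg * η * Lf T c ≤ 1 / 2 * Lf T c := mul_le_mul_of_nonneg_right hη hLf
    calc Cg * ((∫ _t in Ioo t₁ c, (1 : ℝ)) + (∫ t in Ioo t₁ c, D * r t)
          + ∫ t in Ioo t₁ c, b t * (1 + L t))
        ≤ Cg * (1 + (D * ∫ t in Ioo t₁ T, r t) + (C' + η * Lf T c)) := by gcongr
      _ = Cg * (1 + D * (∫ t in Ioo t₁ T, r t) + C') + Cg * η * Lf T c := by ring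
      _ ≤ _ := by gcongr
  · filter_upwards [hyp] with t ht htI
    obtain ⟨x, e, hx, he, hd⟩ := ht htI
    have htI' := hin t htI
    refine ⟨x, hx, ?_⟩
    have key := good_disc (x := x) (e := e) (b := b t) (R := R t) (M := M t)
      h htI' he (hR t htI) (fun y hy hyR =>
        ⟨(hd y hy hyR).1, (hd y hy hyR).2, hM t htI x y⟩)
    refine key.mono ?_
    simp only [hρ]
    have e1 : 2 * Real.pi * M t / R t = D * r t := by
      simp only [hD, hr]
      ring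
    rw [e1]
    have h2 := hb0 t htI
    have h3 := hL t htI
    gcongr

/-- **Polynomial growth.** -/
theorem fin_poly (h : H459R3.NS.IsSol 0 T u p) {C κ k : ℝ} (hκ : 0 ≤ κ)
    {t₀ : ℝ} (ht₀ : t₀ ∈ Ico 0 T)
    (hω : ∀ t ∈ Ioo t₀ T, ∀ x, nrm (vort (u t) x) ≤ C * (T - t) ^ (-κ))
    (hk : ∀ t ∈ Ioo t₀ T, H459R3.EU.dsq (u t) ≤ C * (T - t) ^ (-k))
    {b R : ℝ → ℝ} (hbi : IntegrableOn b (Ioo t₀ T)) (hR : ∀ t ∈ Ioo t₀ T, 0 < R t)
    (hRi : IntegrableOn (fun t => (T - t) ^ (-(3 / 5 * κ)) * (1 + |Real.log (T - t)|) / R t)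
      (Ioo t₀ T))
    (hyp : ∀ᵐ t, t ∈ Ioo t₀ T → ∃ x e, IsMaxPt u t x ∧ nrm e = 1 ∧
      ∀ y, e ⬝ᵥ (y - x) = 0 → nrm (y - x) < R t → |vort (u t) y ⬝ᵥ e| ≤ b t ∧
        |e ⬝ᵥ (grad (u t) y).mulVec e| ≤ b t) :
    ∃ M, ∀ t ∈ Ico 0 T, H459R3.EU.dsq (u t) ≤ M := by
  have hCg := Cg_pos
  have hCr := Cr_pos
  have hC0 : 0 ≤ C := by
    have hm : (t₀ + T) / 2 ∈ Ioo t₀ T := ⟨by linarith [ht₀.2], by linarith [ht₀.2]⟩
    have h1 := (nrm_nonneg _).trans (hω _ hm 0)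
    have h2 : 0 < (T - (t₀ + T) / 2) ^ (-κ) := Real.rpow_pos_of_pos (by linarith [hm.2]) _
    by_contra hcon
    push Not at hcon
    exact absurd h1 (not_le.2 (mul_neg_of_neg_of_pos hcon h2))
  -- the logarithm
  set K := max 1 k with hK
  have hK1 : 1 ≤ K := le_max_left _ _
  obtain ⟨t₂, ht₂, hell⟩ := ell_le (u := u) (T := T) hC0 hK1 (t₂ := max t₀ (T - 1))
    (max_lt ht₀.2 (by linarith)) (fun t ht => by
      have h1 : t₀ < t := (le_max_left _ _).trans_lt ht.1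
      have h2 : T - 1 < t := (le_max_right _ _).trans_lt ht.1
      refine (hk t ⟨h1, ht.2⟩).trans ?_
      have h3 : 0 ≤ Lf T t := by
        unfold Lf
        have := Real.log_nonpos (by linarith [ht.2]) (show T - t ≤ 1 by linarith)
        linarith
      refine mul_le_mul_of_nonneg_left ?_ hC0
      rw [Real.rpow_def_of_pos (by linarith [ht.2])]
      refine Real.exp_le_exp.2 ?_
      have h4 : Real.log (T - t) * -k = k * Lf T t := by
        unfold Lf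
        ring
      rw [h4]
      exact mul_le_mul_of_nonneg_right (le_max_right _ _) h3)
  -- the initial time
  set η := 1 / (2 * Cg) with hη
  have hη0 : 0 < η := by positivity
  have hηC : Cg * η ≤ 1 / 2 := by
    rw [hη]
    have : Cg * (1 / (2 * Cg)) = 1 / 2 := by field_simp
    exact this.le
  have hK0 : 0 < K := by linarith
  have hev := tail_small ht₀.2 hbi (η := η / (4 * K)) (by positivity)
  have hev2 : ∀ᶠ s in 𝓝[<] T, s ∈ Ioo (max (max t₀ t₂) (T - 1)) T :=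
    Ioo_mem_nhdsLT (max_lt (max_lt ht₀.2 ht₂) (by linarith))
  obtain ⟨t₁, ht₁a, ht₁b⟩ := (hev.and hev2).exists
  have h10 : t₀ < t₁ := (le_max_left _ _).trans_lt ((le_max_left _ _).trans_lt ht₁b.1)
  have h12 : t₂ < t₁ := (le_max_right _ _).trans_lt ((le_max_left _ _).trans_lt ht₁b.1)
  have h11 : T - 1 < t₁ := (le_max_right _ _).trans_lt ht₁b.1
  have hsub : Ioo t₁ T ⊆ Ioo t₀ T := Ioo_subset_Ioo_left h10.le
  have hin0 : ∀ t ∈ Ioo t₁ T, t ∈ Ioo 0 T := fun t ht =>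
    ⟨ht₀.1.trans_lt (h10.trans ht.1), ht.2⟩
  set L : ℝ → ℝ := fun t => 4 * K * (1 + Lf T t) with hL
  have hLf : ∀ t ∈ Ioo t₁ T, 0 ≤ Lf T t := fun t ht => by
    unfold Lf
    have := Real.log_nonpos (by linarith [ht.2]) (show T - t ≤ 1 by linarith [ht.1])
    linarith
  have hLc : ∀ c ∈ Ioo t₁ T, ContinuousOn (fun t => 1 + L t) (Icc t₁ c) := by
    intro c hc
    simp only [hL, Lf]
    refine continuousOn_const.add (continuousOn_const.mul (continuousOn_const.add ?_))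
    refine (ContinuousOn.log (by fun_prop) fun t ht => ?_).neg
    have : 0 < T - t := by linarith [ht.2, hc.2]
    exact this.ne'
  have hai : IntegrableOn (fun t => |b t|) (Ioo t₀ T) := hbi.abs
  have hbL : ∀ c ∈ Ioo t₁ T, IntegrableOn (fun t => |b t| * (1 + L t)) (Ioo t₁ c) := by
    intro c hc
    have h1 : IntegrableOn (fun t => |b t|) (Icc t₁ c) := by
      rw [integrableOn_Icc_iff_integrableOn_Ioo]
      exact hai.mono_set (Ioo_subset_Ioo h10.le hc.2.le)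
    exact (h1.mul_continuousOn (hLc c hc) isCompact_Icc).mono_set Ioo_subset_Icc_self
  have hbtail : ∫ t in Ioo t₁ T, |b t| ≤ η / (4 * K) := by
    have h1 : ∫ t in t₁..T, |b t| = ∫ t in Ioo t₁ T, |b t| := by
      rw [intervalIntegral.integral_of_le ht₁b.2.le, integral_Ioc_eq_integral_Ioo]
    rw [← h1]
    exact ht₁a.le
  -- the velocity
  set c₂ := max 1 (Cr + Cr * C * (4 * K) + C) with hc₂
  have hc₂1 : 1 ≤ c₂ := le_max_left _ _
  have hc₂0 : 0 < c₂ := by linarith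
  set E := 3 / 2 + Real.sqrt (H459R3.NS.energy (u 0)) with hE
  have hE0 : 0 ≤ E := by positivity
  have hgb : ∀ t ∈ Ioo t₁ T, 1 ≤ (T - t) ^ (-κ) ∧
      Kt.GB (u t) (c₂ * ((T - t) ^ (-κ) * (1 + Lf T t))) := by
    intro t ht
    have hTt : 0 < T - t := by linarith [ht.2]
    have hs1 : 1 ≤ (T - t) ^ (-κ) :=
      Real.one_le_rpow_of_pos_of_le_one_of_nonpos hTt (by linarith [ht.1]) (by linarith)
    refine ⟨hs1, fun x i j => ?_⟩
    have h1 := gb_of_vort h (hin0 t ht) (hω t (hsub ht)) x i j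
    refine h1.trans ?_
    have h2 := hell t ⟨h12.trans ht.1, ht.2⟩
    have h3 := hLf t ht
    have h4 : 1 ≤ (T - t) ^ (-κ) * (1 + Lf T t) := by nlinarith
    have h5 : (T - t) ^ (-κ) ≤ (T - t) ^ (-κ) * (1 + Lf T t) :=
      le_mul_of_one_le_right (by linarith) (by linarith)
    have hs0 : 0 ≤ (T - t) ^ (-κ) := by linarith
    calc Cr * (1 + C * (T - t) ^ (-κ) * ell (1 / 4) (Nh (u t))) + C * (T - t) ^ (-κ)
        ≤ Cr * ((T - t) ^ (-κ) * (1 + Lf T t)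
          + C * (T - t) ^ (-κ) * (4 * K * (1 + Lf T t)))
          + C * ((T - t) ^ (-κ) * (1 + Lf T t)) := by gcongr
      _ = (Cr + Cr * C * (4 * K) + C) * ((T - t) ^ (-κ) * (1 + Lf T t)) := by ring
      _ ≤ c₂ * ((T - t) ^ (-κ) * (1 + Lf T t)) := by
          refine mul_le_mul_of_nonneg_right (le_max_right _ _) (by linarith)
  set M : ℝ → ℝ := fun t => 4 * (E * c₂)
    * ((T - t) ^ (-(3 / 5 * κ)) * (1 + |Real.log (T - t)|)) with hM
  have hMle : ∀ t ∈ Ioo t₁ T, ∀ x y, nrm (u t y - u t x) ≤ M t := by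
    intro t ht x y
    have hTt : 0 < T - t := by linarith [ht.2]
    obtain ⟨h1, h2⟩ := hgb t ht
    have h3 := hLf t ht
    have hl : |Real.log (T - t)| = Lf T t := by
      have : Lf T t = -Real.log (T - t) := rfl
      rw [this, abs_of_nonpos (by linarith)]
    have h4 : 1 ≤ (T - t) ^ (-κ) * (1 + Lf T t) := by nlinarith
    have hs0 : 0 ≤ (T - t) ^ (-κ) := by linarith
    have h5 : 1 ≤ c₂ * ((T - t) ^ (-κ) * (1 + Lf T t)) := by nlinarith
    have h6 : (c₂ * ((T - t) ^ (-κ) * (1 + Lf T t))) ^ (3 / 5 : ℝ)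
        ≤ c₂ * ((T - t) ^ (-(3 / 5 * κ)) * (1 + Lf T t)) := by
      rw [Real.mul_rpow hc₂0.le (by positivity), Real.mul_rpow hs0 (by linarith),
        ← Real.rpow_mul hTt.le]
      have e1 : -κ * (3 / 5) = -(3 / 5 * κ) := by ring
      rw [e1]
      have k1 : c₂ ^ (3 / 5 : ℝ) ≤ c₂ := by
        have := Real.rpow_le_rpow_of_exponent_le hc₂1 (show (3 / 5 : ℝ) ≤ 1 by norm_num)
        rwa [Real.rpow_one] at this
      have k2 : (1 + Lf T t) ^ (3 / 5 : ℝ) ≤ 1 + Lf T t := by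
        have := Real.rpow_le_rpow_of_exponent_le (show 1 ≤ 1 + Lf T t by linarith)
          (show (3 / 5 : ℝ) ≤ 1 by norm_num)
        rwa [Real.rpow_one] at this
      have k3 : 0 ≤ (T - t) ^ (-(3 / 5 * κ)) := Real.rpow_nonneg hTt.le _
      have k4 : 0 ≤ (1 + Lf T t) ^ (3 / 5 : ℝ) := Real.rpow_nonneg (by linarith) _
      gcongr
    have h7 : ∀ z i, |u t z i| ≤ E * (c₂ * ((T - t) ^ (-(3 / 5 * κ)) * (1 + Lf T t))) :=
      fun z i => (vel_gb h ⟨(hin0 t ht).1.le, ht.2⟩ h5 h2 z i).trans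
        (mul_le_mul_of_nonneg_left h6 hE0)
    have h8 : nrm (u t y - u t x)
        ≤ 2 * (2 * (E * (c₂ * ((T - t) ^ (-(3 / 5 * κ)) * (1 + Lf T t))))) := by
      refine nrm_le_comp fun i => ?_
      rw [Pi.sub_apply]
      have := abs_sub (u t y i) (u t x i)
      linarith [h7 y i, h7 x i]
    refine h8.trans (le_of_eq ?_)
    simp only [hM, hl]
    ring
  refine finish0 h ⟨ht₀.1.trans h10.le, ht₁b.2⟩
    (by linarith) (b := fun t => |b t|) (L := L) (R := R) (M := M) (fun t ht => hR t (hsub ht))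
    hMle ?_ (fun t ht => abs_nonneg _) (fun t ht => hell t ⟨h12.trans ht.1, ht.2⟩)
    hbL (C' := (1 + 4 * K) * (η / (4 * K))) hηC (fun c hc => ?_) ?_
  · have h1 := (hRi.mono_set hsub).const_mul (4 * (E * c₂))
    refine h1.congr (Eventually.of_forall fun t => ?_)
    simp only [hM]
    ring
  · have hsubc : Ioo t₁ c ⊆ Ioo t₁ T := Ioo_subset_Ioo_right hc.2.le
    have hbT : IntegrableOn (fun t => |b t|) (Ioo t₁ T) := hai.mono_set hsub
    have h1 : ∫ t in Ioo t₁ c, |b t| * (1 + L t) ≤ ∫ t in Ioo t₁ c, |b t| * (1 + L c) := by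
      refine setIntegral_mono_on (hbL c hc) ((hbT.mono_set hsubc).mul_const _)
        measurableSet_Ioo fun t ht => ?_
      refine mul_le_mul_of_nonneg_left ?_ (abs_nonneg _)
      have := Lf_mono (T := T) ht.2.le hc.2
      simp only [hL]
      gcongr
    have h2 : ∫ t in Ioo t₁ c, |b t| * (1 + L c) ≤ (η / (4 * K)) * (1 + L c) := by
      rw [integral_mul_const]
      have h3 : ∫ t in Ioo t₁ c, |b t| ≤ ∫ t in Ioo t₁ T, |b t| :=
        setIntegral_mono_set hbT (Eventually.of_forall fun t => abs_nonneg _)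
          hsubc.eventuallyLE
      have h4 : 0 ≤ 1 + L c := by
        have := hLf c hc
        simp only [hL]
        positivity
      exact mul_le_mul_of_nonneg_right (h3.trans hbtail) h4
    refine (h1.trans h2).trans (le_of_eq ?_)
    simp only [hL]
    field_simp
    ring
  · filter_upwards [hyp] with t ht htI
    obtain ⟨x, e, hx, he, hdx⟩ := ht (hsub htI)
    exact ⟨x, e, hx, he, fun y hy hyR => ⟨(hdx y hy hyR).1.trans (le_abs_self _),
      (hdx y hy hyR).2.trans (le_abs_self _)⟩⟩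

end Pool.Agent.Zk61.EU
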