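import Pool.Agent.Zk61.EU.OneE
import Pool.Agent.Zk61.EU.CompMax

/-!
# One component, with the conditions at two points and on a disc
-/

open MeasureTheory Set Filter
open scoped ContDiff Topology

namespace Pool.Agent.Zk61.EU

open Pool.Agent.H708R2.EulerSign Pool.Agent.H708R2.EulerTypeI Pool.Agent.W786.Dir
  Pool.Agent.W786.Max

variable {T : ℝ} {u : ℝ → V → V} {p : ℝ → V → ℝ} {e : ℝ → V}

/-- Growth of one component of the vorticity for `1`-periodic solutions, with the condition at one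
point. -/
theorem comp_sol_max (h : H459R3.NS.IsSol 0 T u p) {t₀ : ℝ} (ht₀ : t₀ ∈ Ioo 0 T)
    (he : ContDiffOn ℝ 1 e (Ioo 0 T)) (he1 : ∀ t ∈ Ioo 0 T, nrm (e t) = 1) {g lam : ℝ → ℝ}
    (hlam : MonotoneOn lam (Ioo 0 T)) (hgi : ∀ t ∈ Ioo t₀ T, IntegrableOn g (Ioo t₀ t))
    (hyp : ∀ᵐ t, t ∈ Ioo 0 T → 0 ≤ g t ∧ ∃ z, IsCompMax u e t z ∧
      (lam t < |vort (u t) z ⬝ᵥ e t| →
        |e t ⬝ᵥ (grad (u t) z).mulVec (vort (u t) z)| + |vort (u t) z ⬝ᵥ deriv e t| ≤ g t)) :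
    ∃ W₀, 0 ≤ W₀ ∧ ∀ t ∈ Ioo t₀ T, ∀ x,
      |vort (u t) x ⬝ᵥ e t| ≤ W₀ + |lam t| + ∫ s in Ioo t₀ t, g s := by
  set s := t₀ / 2 with hs
  have hs0 : 0 < s := by have := ht₀.1; positivity
  have hst : s < t₀ := by linarith
  have hsol := sc_sol h hs0
  set e' : ℝ → V := fun r => e (r + s) with he'
  have hin : ∀ r ∈ Ioo 0 (T - s), r + s ∈ Ioo 0 T := fun r hr =>
    ⟨by linarith [hr.1], by linarith [hr.2]⟩
  have hic : ∀ r ∈ Ioo 0 (T - s), r + s ∈ Ico 0 T := fun r hr => ⟨(hin r hr).1.le, (hin r hr).2⟩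
  have heC : ContDiffOn ℝ 1 e' (Ioo 0 (T - s)) := he.comp (by fun_prop) hin
  have he1' : ∀ r ∈ Ioo 0 (T - s), nrm (e' r) = 1 := fun r hr => he1 _ (hin r hr)
  refine ⟨Cx (scU s u) e' (t₀ - s), Real.iSup_nonneg fun x => abs_nonneg _, fun t ht x => ?_⟩
  have htT : t ∈ Ioo 0 T := ⟨ht₀.1.trans ht.1, ht.2⟩
  have hts : t - s ∈ Ioo 0 (T - s) := ⟨by linarith [ht.1], by linarith [ht.2]⟩
  have hyp' : ∀ᵐ r : ℝ, r + s ∈ Ioo 0 T → 0 ≤ g (r + s) ∧ ∃ z, IsCompMax u e (r + s) z ∧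
      (lam (r + s) < |vort (u (r + s)) z ⬝ᵥ e (r + s)| →
        |e (r + s) ⬝ᵥ (grad (u (r + s)) z).mulVec (vort (u (r + s)) z)|
          + |vort (u (r + s)) z ⬝ᵥ deriv e (r + s)| ≤ g (r + s)) :=
    (measurePreserving_add_right volume s).quasiMeasurePreserving.ae hyp
  have key := cx_growth hsol heC he1' (a := t₀ - s) (b := t - s) (lam := lam t)
    (g := fun r => g (r + s)) (by linarith) (by linarith [ht.1]) hts.2 (by
      filter_upwards [hyp'] with r hr hrI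
      exact (hr ⟨by linarith [hrI.1, ht₀.1], by linarith [hrI.2, ht.2]⟩).1) (by
      rw [integrableOn_Icc_iff_integrableOn_Ioo]
      exact intOn_shift_Ioo (hgi t ht)) (by
      filter_upwards [hyp'] with r hr hrI
      have hrT : r + s ∈ Ioo 0 T := ⟨by linarith [hrI.1, ht₀.1], by linarith [hrI.2, ht.2]⟩
      have hrc : r + s ∈ Ico 0 T := ⟨hrT.1.le, hrT.2⟩
      obtain ⟨-, z, hz, hz2⟩ := hr hrT
      refine ⟨(2 * Real.pi) • z, fun y => ?_, ?_⟩
      · simp only [he']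
        rw [sc_vort h hrc, sc_vort h hrc, unscale]
        exact hz _
      · simp only [he']
        rw [sc_vort h hrc, sc_grad h hrc, unscale, deriv_comp_add_const]
        intro hlt
        refine hz2 (lt_of_le_of_lt ?_ hlt)
        exact hlam hrT htT (by linarith [hrI.2]))
  have e1 : t - s + s = t := by ring
  have hI : t - s + s ∈ Ico 0 T := by
    rw [e1]
    exact ⟨htT.1.le, htT.2⟩
  have h1 := le_cx hsol.sol he1' hts ((2 * Real.pi) • x)
  simp only [he'] at h1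
  rw [sc_vort h hI, unscale, e1] at h1
  have h2 : ∫ r in (t₀ - s)..(t - s), g (r + s) = ∫ r in Ioo t₀ t, g r := by
    rw [intervalIntegral.integral_of_le (by linarith [ht.1]), integral_Ioc_eq_integral_Ioo]
    exact int_shift_Ioo g t₀ t s
  rw [h2] at key
  refine h1.trans (key.trans ?_)
  have h3 : max (Cx (scU s u) e' (t₀ - s)) (lam t) ≤ Cx (scU s u) e' (t₀ - s) + |lam t| :=
    max_le (by have := abs_nonneg (lam t); linarith) (by
      have := le_abs_self (lam t)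
      have h4 : 0 ≤ Cx (scU s u) e' (t₀ - s) := Real.iSup_nonneg fun x => abs_nonneg _
      linarith)
  linarith

/-- The conditions at two points and on a disc. -/
def TwoPt (T κ : ℝ) (u : ℝ → V → V) (e : ℝ → V) (a lam R : ℝ → ℝ) (t : ℝ) : Prop :=
  nrm (deriv e t) ≤ a t ∧
  (∃ z, IsCompMax u e t z ∧ (lam t < |vort (u t) z ⬝ᵥ e t| →
    |e t ⬝ᵥ (grad (u t) z).mulVec (vort (u t) z)| ≤ a t * (T - t) ^ (-κ))) ∧
  ∃ x, IsMaxPt u t x ∧ ∀ y, e t ⬝ᵥ (y - x) = 0 → nrm (y - x) < R t →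
    |e t ⬝ᵥ (grad (u t) y).mulVec (e t)| ≤ a t

lemma TwoPt.mono {κ : ℝ} {a a' lam R : ℝ → ℝ} {t : ℝ} (h : TwoPt T κ u e a lam R t)
    (ha : a t ≤ a' t) (ht : t < T) : TwoPt T κ u e a' lam R t := by
  obtain ⟨h1, ⟨z, hz, hz2⟩, x, hx, hx2⟩ := h
  refine ⟨h1.trans ha, ⟨z, hz, fun hlt => (hz2 hlt).trans ?_⟩, x, hx,
    fun y hy hyR => (hx2 y hy hyR).trans ha⟩
  have : 0 ≤ (T - t) ^ (-κ) := Real.rpow_nonneg (by linarith) _
  gcongr

/-- **One component, polynomial growth.** -/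
theorem two_poly (hT : 0 < T) (h : H459R3.NS.IsSol 0 T u p) {C κ k : ℝ} (hκ : 1 ≤ κ)
    (hω : ∀ t ∈ Ioo 0 T, ∀ x, nrm (vort (u t) x) ≤ C * (T - t) ^ (-κ))
    (hk : ∀ t ∈ Ioo 0 T, H459R3.EU.dsq (u t) ≤ C * (T - t) ^ (-k))
    (he : ContDiffOn ℝ 1 e (Ioo 0 T)) (he1 : ∀ t ∈ Ioo 0 T, nrm (e t) = 1)
    {a lam R : ℝ → ℝ} (ha : IntegrableOn (fun t => a t * (T - t) ^ (1 - κ)) (Ioo 0 T))
    (hlam : MonotoneOn lam (Ioo 0 T)) (hlami : IntegrableOn lam (Ioo 0 T))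
    (hR : ∀ t ∈ Ioo 0 T, 0 < R t)
    (hRi : IntegrableOn (fun t => (T - t) ^ (-(3 / 5 * κ)) * (1 + |Real.log (T - t)|) / R t)
      (Ioo 0 T))
    (hyp : ∀ᵐ t, t ∈ Ioo 0 T → TwoPt T κ u e a lam R t) :
    ∃ M, ∀ t ∈ Ico 0 T, H459R3.EU.dsq (u t) ≤ M := by
  have hC0 : 0 ≤ C := by
    have hm : T / 2 ∈ Ioo 0 T := ⟨by linarith, by linarith⟩
    have h1 := (nrm_nonneg _).trans (hω _ hm 0)
    have h2 : 0 < (T - T / 2) ^ (-κ) := Real.rpow_pos_of_pos (by linarith) _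
    by_contra hcon
    push Not at hcon
    exact absurd h1 (not_le.2 (mul_neg_of_neg_of_pos hcon h2))
  set t₀ := T / 2 with ht₀d
  have ht₀ : t₀ ∈ Ioo 0 T := ⟨by linarith, by linarith⟩
  have hsub0 : Ioo t₀ T ⊆ Ioo 0 T := Ioo_subset_Ioo_left ht₀.1.le
  set aw : ℝ → ℝ := fun t => a t * (T - t) ^ (1 - κ) with haw
  have hawT : IntegrableOn aw (Ioo t₀ T) := ha.mono_set hsub0
  have hdiv : ∀ s ∈ Ioo 0 T, aw s / (T - s) = a s * (T - s) ^ (-κ) := by
    intro s hs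
    have hpos : 0 < T - s := by linarith [hs.2]
    have : (T - s) ^ (-κ) = (T - s) ^ (1 - κ) / (T - s) := by
      rw [← Real.rpow_sub_one hpos.ne']
      congr 1
      ring
    rw [this]
    simp only [haw]
    ring
  -- integrability of `a`
  have hai : IntegrableOn a (Ioo t₀ T) := by
    have hc : ContinuousOn (fun t => (T - t) ^ (κ - 1)) (Icc t₀ T) :=
      ContinuousOn.rpow_const (by fun_prop) fun s hs => Or.inr (by linarith)
    have h1 : IntegrableOn aw (Icc t₀ T) := by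
      rw [integrableOn_Icc_iff_integrableOn_Ioo]
      exact hawT
    have h2 := (h1.mul_continuousOn hc isCompact_Icc).mono_set Ioo_subset_Icc_self
    refine h2.congr_fun (fun s hs => ?_) measurableSet_Ioo
    have hpos : 0 < T - s := by linarith [hs.2]
    simp only [haw]
    rw [mul_assoc, ← Real.rpow_add hpos]
    have : 1 - κ + (κ - 1) = 0 := by ring
    rw [this, Real.rpow_zero, mul_one]
  -- the growth of the component
  set g : ℝ → ℝ := fun s => (1 + C) * (aw s / (T - s)) with hg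
  have hgi : ∀ t ∈ Ioo t₀ T, IntegrableOn g (Ioo t₀ t) := fun t ht =>
    (ton_local hawT ht.2).const_mul _
  obtain ⟨W₀, hW₀, hcomp⟩ := comp_sol_max h ht₀ he he1 (g := g) hlam hgi (by
    filter_upwards [hyp] with t ht htI
    obtain ⟨h1, ⟨z, hz, hz2⟩, -⟩ := ht htI
    have ha0 : 0 ≤ a t := (nrm_nonneg _).trans h1
    have hpos : 0 ≤ (T - t) ^ (-κ) := Real.rpow_nonneg (by linarith [htI.2]) _
    simp only [hg]
    rw [hdiv t htI]
    refine ⟨by positivity, z, hz, fun hlt => ?_⟩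
    have h2 := hz2 hlt
    have h3 : |vort (u t) z ⬝ᵥ deriv e t| ≤ C * (T - t) ^ (-κ) * a t := by
      refine (dot_le _ _).trans ?_
      have h4 := hω t htI z
      have h5 := nrm_nonneg (deriv e t)
      gcongr
    calc _ ≤ a t * (T - t) ^ (-κ) + C * (T - t) ^ (-κ) * a t := add_le_add h2 h3
      _ = (1 + C) * (a t * (T - t) ^ (-κ)) := by ring)
  set W : ℝ → ℝ := fun t => W₀ + |lam t| + ∫ s in Ioo t₀ t, g s with hW
  have hWi : IntegrableOn W (Ioo t₀ T) := by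
    have h1 : IntegrableOn (fun t => ∫ s in Ioo t₀ t, g s) (Ioo t₀ T) := by
      have := (ton hawT).const_mul (1 + C)
      refine this.congr ?_
      refine Eventually.of_forall fun t => ?_
      simp only [hg]
      rw [integral_const_mul]
    exact ((integrableOn_const (C := W₀) (by simp)).add (hlami.mono_set hsub0).abs).add h1
  have hbi : IntegrableOn (fun t => a t + W t) (Ioo t₀ T) := hai.add hWi
  refine fin_poly h (C := C) (κ := κ) (k := k) (by linarith) ⟨ht₀.1.le, ht₀.2⟩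
    (fun t ht => hω t (hsub0 ht)) (fun t ht => hk t (hsub0 ht)) hbi (fun t ht => hR t (hsub0 ht))
    (hRi.mono_set hsub0) ?_
  filter_upwards [hyp] with t ht htI
  have htT := hsub0 htI
  obtain ⟨h1, -, x, hx, hdx⟩ := ht htT
  have ha0 : 0 ≤ a t := (nrm_nonneg _).trans h1
  have hW0 : 0 ≤ W t := (abs_nonneg _).trans (hcomp t htI 0)
  refine ⟨x, e t, hx, he1 t htT, fun y hy hyR => ⟨?_, ?_⟩⟩
  · exact (hcomp t htI y).trans (le_add_of_nonneg_left ha0)
  · exact (hdx y hy hyR).trans (le_add_of_nonneg_right hW0)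

end Pool.Agent.Zk61.EU
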