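import Pool.Agent.Zk61.EU.OneF

/-!
# One component: no hypothesis on the growth of the third derivatives
-/

open MeasureTheory Set Filter
open scoped ContDiff Topology

namespace Pool.Agent.Zk61.EU

open Pool.Agent.H708R2.EulerSign Pool.Agent.H708R2.EulerTypeI Pool.Agent.W786.Dir
  Pool.Agent.W786.Max

variable {T : ℝ} {u : ℝ → V → V} {p : ℝ → V → ℝ} {e : ℝ → V}

/-- **One component, faster rates.** -/
theorem two_fast (hT : 0 < T) (h : H459R3.NS.IsSol 0 T u p) {q C : ℝ} (hq : 1 < q)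
    (hC : ∀ t ∈ Ioo 0 T, Kt.GB (u t) (C * (T - t) ^ (-((3 * q - 1) / (2 * q)))))
    {a lam R : ℝ → ℝ}
    (he : ContDiffOn ℝ 1 e (Ioo 0 T)) (he1 : ∀ t ∈ Ioo 0 T, nrm (e t) = 1)
    (ha0 : ∀ t, 0 ≤ a t)
    (haq : IntegrableOn (fun t => a t ^ q) (Ioo 0 T))
    (hlam : MonotoneOn lam (Ioo 0 T))
    (hlami : IntegrableOn (fun t => lam t * (T - t) ^ (1 - (3 * q - 1) / (2 * q))) (Ioo 0 T))
    (hR : ∀ t ∈ Ioo 0 T, 0 < R t)
    (hRi : IntegrableOn (fun t => (T - t) ^ (-(3 / 5 * ((3 * q - 1) / (2 * q)))) / R t) (Ioo 0 T))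
    (hyp : ∀ᵐ t, t ∈ Ioo 0 T → TwoPt T ((3 * q - 1) / (2 * q)) u e a lam R t) :
    ∃ M, ∀ t ∈ Ico 0 T, H459R3.EU.dsq (u t) ≤ M := by
  have hCg := Cg_pos
  have hq0 : 0 < q := by linarith
  set κ := (3 * q - 1) / (2 * q) with hκ
  set μ := (q + 1) / (2 * q) with hμ
  have hμ0 : 0 < μ := by positivity
  have hκμ : q * κ = q * μ + q - 1 := by
    rw [hκ, hμ]
    field_simp
    ring
  have hκ1 : 1 < κ := by
    rw [hκ, lt_div_iff₀ (by positivity)]
    linarith
  have hκ2 : κ < 2 := by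
    rw [hκ, div_lt_iff₀ (by positivity)]
    linarith
  have hμκ : -μ + (1 - κ) = -1 := by
    rw [hκ, hμ]
    field_simp
    ring
  have hC0 : 0 ≤ C := rate_nonneg hT hC
  have hai : IntegrableOn a (Ioo 0 T) := int_of_rpow hq.le (fun t _ => ha0 t) haq
  obtain ⟨K, hK0, hK⟩ := ell_rate h hκ1 hC0 hC
  -- the small constants
  set C₄ := (1 + 4 * C) / 4 with hC₄
  have hC₄0 : 0 ≤ C₄ := by positivity
  set D := K * (4 * C₄ * (1 / μ + 1)) with hD
  have hD0 : 0 ≤ D := by positivity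
  set η₁ := 1 / (2 * Cg * (D + 1)) with hη₁
  have hη₁0 : 0 < η₁ := by positivity
  have hDη : Cg * (D * η₁) ≤ 1 / 2 := by
    have h1 : Cg * ((D + 1) * η₁) = 1 / 2 := by
      rw [hη₁]
      field_simp
    have h2 : Cg * (D * η₁) ≤ Cg * ((D + 1) * η₁) := by
      gcongr
      linarith
    linarith
  have hη₁q : 0 < η₁ ^ q := Real.rpow_pos_of_pos hη₁0 _
  have hev := tail_small hT haq hη₁q
  have hev2 : ∀ᶠ s in 𝓝[<] T, s ∈ Ioo (max 0 (T - 1)) T :=
    Ioo_mem_nhdsLT (max_lt hT (by linarith))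
  obtain ⟨t₀, ht₀a, ht₀b⟩ := (hev.and hev2).exists
  have h00 : 0 < t₀ := (le_max_left _ _).trans_lt ht₀b.1
  have h01 : T - 1 < t₀ := (le_max_right _ _).trans_lt ht₀b.1
  have ht₀ : t₀ ∈ Ioo 0 T := ⟨h00, ht₀b.2⟩
  have hsub : Ioo t₀ T ⊆ Ioo 0 T := Ioo_subset_Ioo_left h00.le
  have hsm : ∫ t in Ioo t₀ T, a t ^ q ≤ η₁ ^ q := by
    have h1 : ∫ t in t₀..T, |a t ^ q| = ∫ t in Ioo t₀ T, a t ^ q := by
      rw [intervalIntegral.integral_of_le ht₀b.2.le, integral_Ioc_eq_integral_Ioo]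
      exact setIntegral_congr_fun measurableSet_Ioo fun t ht =>
        abs_of_nonneg (Real.rpow_nonneg (ha0 t) _)
    rw [← h1]
    exact ht₀a.le
  have haM := fun t (ht : t ∈ Ioo t₀ T) => aM_le (T := T) hq hμ0 hκμ hη₁0 hC₄0
    (fun t _ => ha0 t) (hai.mono_set hsub) (haq.mono_set hsub) hsm ht
  -- the component of the vorticity
  set g : ℝ → ℝ := fun s => a s * (4 * (C₄ * (T - s) ^ (-κ))) with hg
  obtain ⟨W₀, hW₀0, hcomp⟩ := comp_sol_max h ht₀ he he1 (g := g) hlam
    (fun t ht => (haM t ht).1) (by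
      filter_upwards [hyp] with t ht htI
      obtain ⟨h1, ⟨z, hz, hz2⟩, -⟩ := ht htI
      have ha1 : 0 ≤ a t := ha0 t
      have hpos : 0 ≤ (T - t) ^ (-κ) := Real.rpow_nonneg (by linarith [htI.2]) _
      simp only [hg]
      refine ⟨by positivity, z, hz, fun hlt => ?_⟩
      have h2 := hz2 hlt
      have h3 : |vort (u t) z ⬝ᵥ deriv e t| ≤ 4 * (C * (T - t) ^ (-κ)) * a t := by
        refine (dot_le _ _).trans ?_
        have h4 := vort_le_gb h ⟨htI.1.le, htI.2⟩ (hC t htI) z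
        have h5 := nrm_nonneg (deriv e t)
        gcongr
      calc _ ≤ a t * (T - t) ^ (-κ) + 4 * (C * (T - t) ^ (-κ)) * a t := add_le_add h2 h3
        _ = a t * (4 * (C₄ * (T - t) ^ (-κ))) := by
            rw [hC₄]
            ring)
  set η₂ := 4 * C₄ * ((1 / μ + 1) * η₁) with hη₂
  have hη₂0 : 0 ≤ η₂ := by positivity
  have hKη : K * η₂ = D * η₁ := by
    rw [hη₂, hD]
    ring
  set W : ℝ → ℝ := fun t => W₀ + |lam t| + η₂ * (T - t) ^ (-μ) with hW
  have hWle : ∀ t ∈ Ioo t₀ T, ∀ x, |vort (u t) x ⬝ᵥ e t| ≤ W t := by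
    intro t ht x
    refine (hcomp t ht x).trans ?_
    have h1 := (haM t ht).2
    simp only [hW]
    linarith
  have hW0 : ∀ t ∈ Ioo t₀ T, 0 ≤ W t := fun t ht => (abs_nonneg _).trans (hWle t ht 0)
  set b : ℝ → ℝ := fun t => a t + W t with hb
  have hb0 : ∀ t ∈ Ioo t₀ T, 0 ≤ b t := fun t ht => add_nonneg (ha0 t) (hW0 t ht)
  set L : ℝ → ℝ := fun t => K * (T - t) ^ (1 - κ) - 1 with hL
  have h1L : ∀ t, 1 + L t = K * (T - t) ^ (1 - κ) := fun t => by simp only [hL]; ring
  -- integrability of `lam`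
  have hlam1 : IntegrableOn (fun t => |lam t| * (T - t) ^ (1 - κ)) (Ioo t₀ T) := by
    have h1 : IntegrableOn (fun t => |lam t * (T - t) ^ (1 - κ)|) (Ioo t₀ T) :=
      (hlami.mono_set hsub).abs
    refine h1.congr_fun (fun t ht => ?_) measurableSet_Ioo
    simp only
    rw [abs_mul, abs_of_nonneg (Real.rpow_nonneg (by linarith [ht.2] : (0 : ℝ) ≤ T - t) _)]
  have hlam2 : ∀ c ∈ Ioo t₀ T, IntegrableOn (fun t => |lam t|) (Ioo t₀ c) := by
    intro c hc
    have h1 : IntegrableOn (fun t => |lam t| * (T - t) ^ (1 - κ)) (Icc t₀ c) := by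
      rw [integrableOn_Icc_iff_integrableOn_Ioo]
      exact hlam1.mono_set (Ioo_subset_Ioo_right hc.2.le)
    have h2 := (h1.mul_continuousOn (tsub_cont (T := T) (κ - 1) hc.2)
      isCompact_Icc).mono_set Ioo_subset_Icc_self
    refine h2.congr_fun (fun s hs => ?_) measurableSet_Ioo
    have hpos : 0 < T - s := by linarith [hs.2, hc.2]
    simp only
    rw [mul_assoc, ← Real.rpow_add hpos]
    have : 1 - κ + (κ - 1) = 0 := by ring
    rw [this, Real.rpow_zero, mul_one]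
  have hbL : ∀ c ∈ Ioo t₀ T, IntegrableOn (fun t => b t * (1 + L t)) (Ioo t₀ c) := by
    intro c hc
    simp only [h1L]
    have h1 : IntegrableOn b (Icc t₀ c) := by
      refine Integrable.add ?_ (Integrable.add (Integrable.add ?_ ?_) ?_)
      · change IntegrableOn a (Icc t₀ c)
        rw [integrableOn_Icc_iff_integrableOn_Ioo]
        exact hai.mono_set (Ioo_subset_Ioo h00.le hc.2.le)
      · exact (continuousOn_const (c := W₀)).integrableOn_Icc
      · change IntegrableOn (fun t => |lam t|) (Icc t₀ c)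
        rw [integrableOn_Icc_iff_integrableOn_Ioo]
        exact hlam2 c hc
      · exact (continuousOn_const.mul (tsub_cont (-μ) hc.2)).integrableOn_Icc
    have h2 : ContinuousOn (fun t => K * (T - t) ^ (1 - κ)) (Icc t₀ c) :=
      continuousOn_const.mul (tsub_cont (1 - κ) hc.2)
    exact (h1.mul_continuousOn h2 isCompact_Icc).mono_set Ioo_subset_Icc_self
  -- the integrable part
  set g₁ : ℝ → ℝ := fun t => a t ^ q + (T - t) ^ (-(1 / 2) : ℝ) + W₀ * (T - t) ^ (-(κ - 1))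
    + |lam t| * (T - t) ^ (1 - κ) with hg₁
  have hgi : IntegrableOn g₁ (Ioo t₀ T) :=
    (((haq.mono_set hsub).add (pow_int ht₀.2.le (by norm_num))).add
      ((pow_int ht₀.2.le (by linarith)).const_mul W₀)).add hlam1
  have hg0 : ∀ t ∈ Ioo t₀ T, 0 ≤ g₁ t := fun t ht => by
    have h1 := Real.rpow_nonneg (ha0 t) q
    have h2 : 0 < T - t := by linarith [ht.2]
    simp only [hg₁]
    positivity
  have hpt : ∀ t ∈ Ioo t₀ T, b t * (1 + L t) ≤ K * g₁ t + K * η₂ * (1 / (T - t)) := by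
    intro t ht
    have h2 : 0 < T - t := by linarith [ht.2]
    rw [h1L]
    have h3 := young_pow hq (ha0 t) h2 one_pos (1 - κ) (-(1 / 2))
    have e1 : 1 - κ + (q - 1) * (1 - κ - -(1 / 2)) = 0 := by
      rw [hκ]
      field_simp
      ring
    rw [e1, Real.rpow_zero, Real.one_rpow, one_mul, one_mul, mul_one] at h3
    have h4 : (T - t) ^ (-μ) * (T - t) ^ (1 - κ) = 1 / (T - t) := by
      rw [← Real.rpow_add h2, hμκ, Real.rpow_neg_one, one_div]
    have e2 : (1 - κ : ℝ) = -(κ - 1) := by ring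
    simp only [hb, hW, hg₁]
    calc (a t + (W₀ + |lam t| + η₂ * (T - t) ^ (-μ))) * (K * (T - t) ^ (1 - κ))
        = K * (a t * (T - t) ^ (1 - κ) + W₀ * (T - t) ^ (1 - κ) + |lam t| * (T - t) ^ (1 - κ))
          + K * η₂ * ((T - t) ^ (-μ) * (T - t) ^ (1 - κ)) := by ring
      _ ≤ K * (((T - t) ^ (-(1 / 2) : ℝ) + a t ^ q) + W₀ * (T - t) ^ (1 - κ)
            + |lam t| * (T - t) ^ (1 - κ))
          + K * η₂ * ((T - t) ^ (-μ) * (T - t) ^ (1 - κ)) := by gcongr
      _ = _ := by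
          rw [h4, e2]
          ring
  refine finish h (κ := κ) (C := C) (by linarith) hC ⟨h00.le, ht₀.2⟩
    (by linarith) (b := b) (L := L) (R := R) (fun t ht => hR t (hsub ht))
    (hRi.mono_set hsub) hb0 (fun t ht => ?_)
    hbL (C' := K * ∫ t in Ioo t₀ T, g₁ t) (η := K * η₂) (by rw [hKη]; exact hDη)
    (fun c hc => ?_) ?_
  · have h1 := hK t (hsub ht) (by linarith [ht.1])
    simp only [hL]
    linarith
  · have hsubc : Ioo t₀ c ⊆ Ioo t₀ T := Ioo_subset_Ioo_right hc.2.le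
    obtain ⟨j1, j2⟩ := int_inv (T := T) hc.1.le hc.2
    have j1' : IntegrableOn (fun t => 1 / (T - t)) (Ioo t₀ c) := j1.mono_set Ioo_subset_Icc_self
    have j3 : IntegrableOn (fun t => K * g₁ t) (Ioo t₀ c) := (hgi.mono_set hsubc).const_mul K
    have j4 : IntegrableOn (fun t => K * η₂ * (1 / (T - t))) (Ioo t₀ c) :=
      j1'.const_mul (K * η₂)
    have h1 : ∫ t in Ioo t₀ c, b t * (1 + L t)
        ≤ ∫ t in Ioo t₀ c, (K * g₁ t + K * η₂ * (1 / (T - t))) :=
      setIntegral_mono_on (hbL c hc) (j3.add j4) measurableSet_Ioo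
        fun t ht => hpt t (hsubc ht)
    refine h1.trans ?_
    rw [integral_add j3 j4, integral_const_mul, integral_const_mul]
    have h2 : ∫ t in Ioo t₀ c, g₁ t ≤ ∫ t in Ioo t₀ T, g₁ t :=
      setIntegral_mono_set hgi ((ae_restrict_iff' measurableSet_Ioo).2
        (Eventually.of_forall fun t ht => hg0 t ht)) hsubc.eventuallyLE
    have h3 : ∫ t in Ioo t₀ c, 1 / (T - t) ≤ Lf T c := by
      rw [← integral_Ioc_eq_integral_Ioo, ← intervalIntegral.integral_of_le hc.1.le, j2]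
      have : 0 ≤ Lf T t₀ := by
        unfold Lf
        have := Real.log_nonpos (by linarith [ht₀.2]) (show T - t₀ ≤ 1 by linarith)
        linarith
      linarith
    have h4 : 0 ≤ K * η₂ := by positivity
    gcongr
  · filter_upwards [hyp] with t ht htI
    have htT := hsub htI
    obtain ⟨h1, -, x, hx, hdx⟩ := ht htT
    refine ⟨x, e t, hx, he1 t htT, fun y hy hyR => ⟨?_, ?_⟩⟩
    · exact (hWle t htI y).trans (le_add_of_nonneg_left (ha0 t))
    · exact (hdx y hy hyR).trans (le_add_of_nonneg_right (hW0 t htI))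

/-- **One component, no hypothesis on the growth of the third derivatives.** -/
theorem two_rate (hT : 0 < T) (h : H459R3.NS.IsSol 0 T u p) {q C : ℝ} (hq : 1 ≤ q)
    (hC : ∀ t ∈ Ioo 0 T, Kt.GB (u t) (C * (T - t) ^ (-((3 * q - 1) / (2 * q)))))
    {a lam R : ℝ → ℝ}
    (he : ContDiffOn ℝ 1 e (Ioo 0 T)) (he1 : ∀ t ∈ Ioo 0 T, nrm (e t) = 1)
    (haq : IntegrableOn (fun t => a t ^ q) (Ioo 0 T))
    (hlam : MonotoneOn lam (Ioo 0 T))
    (hlami : IntegrableOn (fun t => lam t * (T - t) ^ (1 - (3 * q - 1) / (2 * q))) (Ioo 0 T))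
    (hR : ∀ t ∈ Ioo 0 T, 0 < R t)
    (hRi : IntegrableOn (fun t => (T - t) ^ (-(3 / 5 * ((3 * q - 1) / (2 * q))))
      * (1 + |Real.log (T - t)|) / R t) (Ioo 0 T))
    (hyp : ∀ᵐ t, t ∈ Ioo 0 T → TwoPt T ((3 * q - 1) / (2 * q)) u e a lam R t) :
    ∃ M, ∀ t ∈ Ico 0 T, H459R3.EU.dsq (u t) ≤ M := by
  have hC0 : 0 ≤ C := rate_nonneg hT hC
  rcases hq.eq_or_lt with h1 | h1
  · subst h1
    have e1 : (3 * 1 - 1 : ℝ) / (2 * 1) = 1 := by norm_num
    rw [e1] at hC hRi hyp hlami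
    obtain ⟨A, hA, hgrow⟩ := type_one_dsq hT h hC0 (fun t ht => by
      have := hC t ht
      rwa [Real.rpow_neg_one, ← div_eq_mul_inv] at this)
    have e2 : ∀ t : ℝ, (T - t) ^ ((1 : ℝ) - 1) = 1 := fun t => by
      rw [sub_self, Real.rpow_zero]
    refine two_poly hT h (C := A + 4 * C) (κ := 1) (k := Kt.Ck * C) le_rfl
      (fun t ht x => ?_) (fun t ht => ?_) he he1 (a := a) (lam := lam) (R := R) ?_ hlam ?_ hR hRi
      hyp
    · refine (vort_le_gb h ⟨ht.1.le, ht.2⟩ (hC t ht) x).trans ?_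
      have : 0 ≤ (T - t) ^ (-(1 : ℝ)) := Real.rpow_nonneg (by linarith [ht.2]) _
      nlinarith
    · refine (hgrow t ht).trans ?_
      have e3 : Real.exp (Kt.Ck * C * Lf T t) = (T - t) ^ (-(Kt.Ck * C)) := by
        rw [Real.rpow_def_of_pos (by linarith [ht.2])]
        congr 1
        unfold Lf
        ring
      rw [e3]
      have : 0 ≤ (T - t) ^ (-(Kt.Ck * C)) := Real.rpow_nonneg (by linarith [ht.2]) _
      nlinarith
    · simpa only [e2, mul_one, Real.rpow_one] using haq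
    · simpa only [e2, mul_one] using hlami
  · -- replace `a` by its absolute value
    have hae : ∀ᵐ t, t ∈ Ioo 0 T → 0 ≤ a t := by
      filter_upwards [hyp] with t ht htI
      exact (nrm_nonneg _).trans (ht htI).1
    refine two_fast hT h h1 hC he he1 (a := fun t => |a t|) (lam := lam) (R := R)
      (fun t => abs_nonneg _) ?_ hlam hlami hR ?_ ?_
    · refine haq.congr_fun_ae ?_
      refine (ae_restrict_iff' measurableSet_Ioo).2 ?_
      filter_upwards [hae] with t ht htI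
      rw [abs_of_nonneg (ht htI)]
    · have hm : Measurable fun t : ℝ => (1 + |Real.log (T - t)|)⁻¹ := by
        have h2 : Measurable fun t : ℝ => Real.log (T - t) :=
          Real.measurable_log.comp (measurable_const.sub measurable_id)
        exact (measurable_const.add (_root_.continuous_abs.measurable.comp h2)).inv
      have h3 := hRi.aestronglyMeasurable.mul hm.aestronglyMeasurable
      refine Integrable.mono' hRi (h3.congr (Eventually.of_forall fun t => ?_)) ?_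
      · simp only [Pi.mul_apply]
        have : 0 < 1 + |Real.log (T - t)| := by positivity
        field_simp
      · refine (ae_restrict_iff' measurableSet_Ioo).2 (Eventually.of_forall fun t ht => ?_)
        have hRt := hR t ht
        have h4 : 0 ≤ (T - t) ^ (-(3 / 5 * ((3 * q - 1) / (2 * q)))) :=
          Real.rpow_nonneg (by linarith [ht.2]) _
        rw [Real.norm_of_nonneg (by positivity)]
        have h5 : 1 ≤ 1 + |Real.log (T - t)| := by
          have := abs_nonneg (Real.log (T - t))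
          linarith
        gcongr
        exact le_mul_of_one_le_right h4 h5
    · filter_upwards [hyp] with t ht htI
      exact (ht htI).mono (le_abs_self _) htI.2

end Pool.Agent.Zk61.EU
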