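import Pool.Agent.Zk61.EU.OneG

/-!
# One component, with a bound everywhere
-/

open MeasureTheory Set Filter
open scoped ContDiff Topology

namespace Pool.Agent.Zk61.EU

open Pool.Agent.H708R2.EulerSign Pool.Agent.H708R2.EulerTypeI Pool.Agent.W786.Dir
  Pool.Agent.W786.Max

variable {T : ℝ} {u : ℝ → V → V} {p : ℝ → V → ℝ} {e : ℝ → V}

/-- A continuous periodic function has a maximum. -/
lemma exists_max_per {f : V → ℝ} (hf : Continuous f) (hp : H459R3.NS.Per f) :
    ∃ x, ∀ y, f y ≤ f x := by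
  have hne : (Icc (0 : V) 1).Nonempty := ⟨0, le_rfl, zero_le_one⟩
  obtain ⟨x, hx, hmax⟩ := (isCompact_Icc (a := (0 : V)) (b := 1)).exists_isMaxOn hne
    hf.continuousOn
  refine ⟨x, fun y => ?_⟩
  have hper : ∀ i, Function.Periodic f (Pi.single i 1 : V) := fun i x => hp i x
  have h1 : ∀ (i : Fin 3) (n : ℤ) (x : V), f (x - n • (Pi.single i 1 : V)) = f x := by
    intro i n x
    have := ((hper i).zsmul n) (x - n • (Pi.single i 1 : V))
    rw [sub_add_cancel] at this
    exact this.symm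
  set w : V := y - ⌊y 0⌋ • (Pi.single 0 1 : V) - ⌊y 1⌋ • (Pi.single 1 1 : V)
    - ⌊y 2⌋ • (Pi.single 2 1 : V) with hw
  have h2 : f w = f y := by
    rw [hw, h1, h1, h1]
  have h3 : w ∈ Icc (0 : V) 1 := by
    have h4 : ∀ i, w i = Int.fract (y i) := by
      intro i
      rw [← Int.self_sub_floor]
      fin_cases i <;> simp [hw]
    refine ⟨fun i => ?_, fun i => ?_⟩
    · rw [h4 i]
      exact Int.fract_nonneg _
    · rw [h4 i]
      exact (Int.fract_lt_one _).le
  have h5 := hmax h3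
  simp only [mem_ofPred_eq] at h5
  rwa [h2] at h5

lemma vort_cont_per (h : H459R3.NS.IsSol 0 T u p) {t : ℝ} (ht : t ∈ Ico 0 T) :
    Continuous (vort (u t)) ∧ H459R3.NS.Per (vort (u t)) := by
  have hA : ∀ i j, Continuous (fun x => grad (u t) x i j) ∧
      H459R3.NS.Per (fun x => grad (u t) x i j) := by
    intro i j
    simp only [grad_pd (sol_diff h ht)]
    exact ⟨((h.sp ht i).pd j).smooth.continuous, ((h.sp ht i).pd j).per⟩
  constructor
  · refine continuous_pi fun i => ?_
    simp only [vort]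
    fin_cases i
    · exact (hA 2 1).1.sub (hA 1 2).1
    · exact (hA 0 2).1.sub (hA 2 0).1
    · exact (hA 1 0).1.sub (hA 0 1).1
  · intro k x
    have h1 : ∀ i j, grad (u t) (x + Pi.single k 1) i j = grad (u t) x i j := fun i j =>
      (hA i j).2 k x
    simp only [vort, h1]

lemma exists_maxPt (h : H459R3.NS.IsSol 0 T u p) {t : ℝ} (ht : t ∈ Ico 0 T) :
    ∃ x, IsMaxPt u t x := by
  obtain ⟨hc, hp⟩ := vort_cont_per h ht
  refine exists_max_per (f := fun x => nrm (vort (u t) x)) ?_ fun i x => by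
    simp only [hp i x]
  have : ∀ i, Continuous fun x => vort (u t) x i := fun i => (continuous_apply i).comp hc
  simp only [nrm, dotProduct]
  exact (continuous_finsetSum _ fun i _ => (this i).mul (this i)).sqrt

lemma exists_compMax (h : H459R3.NS.IsSol 0 T u p) (e : ℝ → V) {t : ℝ} (ht : t ∈ Ico 0 T) :
    ∃ x, IsCompMax u e t x := by
  obtain ⟨hc, hp⟩ := vort_cont_per h ht
  refine exists_max_per (f := fun x => |vort (u t) x ⬝ᵥ e t|) ?_ fun i x => by
    simp only [hp i x]
  have : ∀ i, Continuous fun x => vort (u t) x i := fun i => (continuous_apply i).comp hc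
  simp only [dotProduct]
  exact (continuous_finsetSum _ fun i _ => (this i).mul continuous_const).abs

/-- The gradient of the component. -/
lemma pd_comp {v : V → V} (hv : Differentiable ℝ v) (w x : V) (j : Fin 3) :
    H459R3.NS.pd j (fun y => w ⬝ᵥ v y) x = ∑ i, w i * grad v x i j := by
  have h1 : ∀ i, HasFDerivAt (fun y => w i * v y i) (w i • fderiv ℝ (fun y => v y i) x) x :=
    fun i => ((hasFDerivAt_pi'.1 (hv x).hasFDerivAt i).differentiableAt.hasFDerivAt).const_mul (w i)
  have h2 : HasFDerivAt (fun y => w ⬝ᵥ v y) (∑ i, w i • fderiv ℝ (fun y => v y i) x) x := by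
    simp only [dotProduct]
    exact HasFDerivAt.fun_sum fun i _ => h1 i
  unfold H459R3.NS.pd
  rw [h2.fderiv, sum_apply]
  refine Finset.sum_congr rfl fun i _ => ?_
  rw [grad_pd hv]
  simp only [FunLike.coe_smul, Pi.smul_apply, smul_eq_mul, H459R3.NS.pd]

/-- A bound of the gradient of the component everywhere gives the conditions at two points and on
a disc. -/
lemma twoPt_of_all (h : H459R3.NS.IsSol 0 T u p) {C κ : ℝ} (hC : 0 ≤ C) {t : ℝ} (ht : t ∈ Ioo 0 T)
    (hω : ∀ x, nrm (vort (u t) x) ≤ C * (T - t) ^ (-κ)) {a : ℝ → ℝ} (he : nrm (e t) = 1)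
    (h1 : nrm (deriv e t) ≤ a t)
    (h2 : ∀ x j, |H459R3.NS.pd j (fun y => e t ⬝ᵥ u t y) x| ≤ a t) (lam R : ℝ → ℝ) :
    TwoPt T κ u e (fun t => (2 + 2 * C) * a t) lam R t := by
  have hI : t ∈ Ico 0 T := ⟨ht.1.le, ht.2⟩
  have ha0 : 0 ≤ a t := (nrm_nonneg _).trans h1
  have key : ∀ x w, |e t ⬝ᵥ (grad (u t) x).mulVec w| ≤ 2 * a t * nrm w := fun x w =>
    comp_grad_le (fun j => by
      rw [← pd_comp (sol_diff h hI)]
      exact h2 x j) w
  obtain ⟨z, hz⟩ := exists_compMax h e hI
  obtain ⟨x, hx⟩ := exists_maxPt h hI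
  have hCa : 0 ≤ C * a t := by positivity
  refine ⟨by nlinarith, ⟨z, hz, fun _ => ?_⟩, x, hx, fun y _ _ => ?_⟩
  · have h3 := key z (vort (u t) z)
    have h4 := hω z
    have h5 : 0 ≤ (T - t) ^ (-κ) := Real.rpow_nonneg (by linarith [ht.2]) _
    calc _ ≤ 2 * a t * nrm (vort (u t) z) := h3
      _ ≤ 2 * a t * (C * (T - t) ^ (-κ)) := by gcongr
      _ = 2 * C * a t * (T - t) ^ (-κ) := by ring
      _ ≤ (2 + 2 * C) * a t * (T - t) ^ (-κ) := by
          gcongr
          linarith
  · have h3 := key y (e t)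
    rw [he, mul_one] at h3
    simp only
    linarith

end Pool.Agent.Zk61.EU
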