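import Pool.Agent.W786.Dir6

/-!
# Periodic fields with Hölder continuous gradient
-/

open MeasureTheory Set Filter
open scoped ENNReal NNReal Topology

namespace Pool.Agent.Zk61.EU

open Pool.Agent.H708R2.EulerSign Pool.Agent.H708R2.EulerTypeI Pool.Agent.W786.Dir
  Pool.Agent.W786.Sv

variable {v : V → V} {N γ : ℝ}

/-- Hölder bound for the gradient. -/
def HG (v : V → V) (N γ : ℝ) : Prop :=
  ∀ x y i j, |grad v x i j - grad v y i j| ≤ N * nrm (x - y) ^ γ

lemma fderiv_eq_mulVec (v : V → V) (x w : V) : fderiv ℝ v x w = (grad v x).mulVec w := by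
  have h : w = ∑ j, w j • (Pi.single j 1 : V) := by
    ext i; simp [Finset.sum_apply, Pi.single_apply]
  ext i
  conv_lhs => rw [h]
  rw [map_sum, Finset.sum_apply]
  simp only [map_smul, Pi.smul_apply, smul_eq_mul, Matrix.mulVec, dotProduct, grad,
    Matrix.of_apply]
  exact Finset.sum_congr rfl fun j _ => mul_comm _ _

/-- A bound for the gradient of a periodic field. -/
lemma grad_le (hv : ContDiff ℝ 1 v) (hper : Periodic3 v) (hN : 0 ≤ N) (hγ : 0 < γ) (hγ1 : γ ≤ 1)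
    (h : HG v N γ) (x : V) (i j : Fin 3) : |grad v x i j| ≤ 7 * N := by
  set f : ℝ → ℝ := fun s => v (x + s • Pi.single j 1) i with hf
  have hpi := Real.pi_pos
  have hd : ∀ s, HasDerivAt f (grad v (x + s • Pi.single j 1) i j) s := by
    intro s
    have h1 : HasDerivAt (fun s : ℝ => x + s • (Pi.single j 1 : V)) (Pi.single j 1) s := by
      simpa using ((hasDerivAt_id s).smul_const (Pi.single j 1 : V)).const_add x
    have h2 : HasFDerivAt v (fderiv ℝ v (x + s • Pi.single j 1)) (x + s • Pi.single j 1) :=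
      ((hv.differentiable one_ne_zero) _).hasFDerivAt
    exact hasDerivAt_pi.1 (h2.comp_hasDerivAt s h1) i
  have hends : f 0 = f (2 * Real.pi) := by
    simp only [hf, zero_smul, add_zero]
    have h1 : (2 * Real.pi) • (Pi.single j 1 : V) = Pi.single j (2 * Real.pi) := by
      ext k
      by_cases hk : k = j
      · subst hk; simp
      · simp [hk]
    rw [h1, hper j x]
  obtain ⟨c, hc, hc2⟩ := exists_hasDerivAt_eq_zero (by positivity : (0 : ℝ) < 2 * Real.pi)
    (fun s _ => (hd s).continuousAt.continuousWithinAt) hends (fun s _ => hd s)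
  have h1 := h x (x + c • Pi.single j 1) i j
  rw [hc2, sub_zero] at h1
  have h2 : nrm (x - (x + c • Pi.single j 1)) = c := by
    rw [sub_add_cancel_left, nrm_neg, nrm_smul, nrm_single, mul_one, abs_of_pos hc.1]
  rw [h2] at h1
  have h3 : c ^ γ ≤ 7 := by
    rcases le_or_gt c 1 with h4 | h4
    · exact (Real.rpow_le_one hc.1.le h4 hγ.le).trans (by norm_num)
    · calc c ^ γ ≤ c ^ (1 : ℝ) := Real.rpow_le_rpow_of_exponent_le h4.le hγ1
        _ = c := Real.rpow_one c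
        _ ≤ 2 * Real.pi := hc.2.le
        _ ≤ 7 := by have := Real.pi_lt_d2; linarith
  calc |grad v x i j| ≤ N * c ^ γ := h1
    _ ≤ N * 7 := by gcongr
    _ = 7 * N := mul_comm _ _

lemma nrm_le_norm (w : V) : nrm w ≤ 2 * ‖w‖ := by
  have h : ∀ i, w i * w i ≤ ‖w‖ ^ 2 := by
    intro i
    have h1 := norm_le_pi_norm w i
    rw [← sq, ← sq_abs, ← Real.norm_eq_abs]
    gcongr
  have h1 : nrm w ^ 2 ≤ (2 * ‖w‖) ^ 2 := by
    rw [nrm_sq, dotProduct, Fin.sum_univ_three]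
    nlinarith [h 0, h 1, h 2, sq_nonneg ‖w‖]
  exact (le_abs_self _).trans (abs_le_of_sq_le_sq h1 (by positivity))

lemma fderiv_norm_le {B : ℝ} (hB : ∀ x i j, |grad v x i j| ≤ B) (x : V) :
    ‖fderiv ℝ v x‖ ≤ 3 * B := by
  have hB0 : 0 ≤ B := (abs_nonneg _).trans (hB 0 0 0)
  refine ContinuousLinearMap.opNorm_le_bound _ (by positivity) fun z => ?_
  rw [pi_norm_le_iff_of_nonneg (by positivity)]
  intro i
  rw [fderiv_eq_mulVec, Real.norm_eq_abs, Matrix.mulVec, dotProduct]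
  refine (Finset.abs_sum_le_sum_abs _ _).trans ?_
  calc ∑ j, |grad v x i j * z j| ≤ ∑ _j : Fin 3, B * ‖z‖ := by
        refine Finset.sum_le_sum fun j _ => ?_
        rw [abs_mul]
        have := norm_le_pi_norm z j
        rw [Real.norm_eq_abs] at this
        have := hB x i j
        gcongr
    _ = 3 * B * ‖z‖ := by simp; ring

/-- The oscillation of a periodic field. -/
lemma exists_osc : ∃ D : ℝ, 0 < D ∧ ∀ (v : V → V), ContDiff ℝ 1 v → Periodic3 v →
    ∀ B : ℝ, (∀ x i j, |grad v x i j| ≤ B) → ∀ x y, nrm (v y - v x) ≤ D * B := by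
  obtain ⟨D, hD⟩ := Metric.isBounded_iff.1 dom_bdd
  refine ⟨6 * (|D| + 1), by positivity, fun v hv hper B hB x y => ?_⟩
  have hB0 : 0 ≤ B := (abs_nonneg _).trans (hB 0 0 0)
  obtain ⟨g, hg, -⟩ := dom_exists_unique x
  obtain ⟨g', hg', -⟩ := dom_exists_unique y
  have e1 : (g +ᵥ x : V) = x + g := by rw [add_comm]; rfl
  have e2 : (g' +ᵥ y : V) = y + g' := by rw [add_comm]; rfl
  rw [e1] at hg
  rw [e2] at hg'
  have h1 : v x = v (x + g) := (hper.lat g.2 x).symm
  have h2 : v y = v (y + g') := (hper.lat g'.2 y).symm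
  rw [h1, h2]
  have h3 : ‖v (y + g') - v (x + g)‖ ≤ 3 * B * ‖(y + g') - (x + g)‖ :=
    Convex.norm_image_sub_le_of_norm_fderiv_le (𝕜 := ℝ) (s := univ)
      (fun z _ => (hv.differentiable one_ne_zero) z) (fun z _ => fderiv_norm_le hB z)
      convex_univ (mem_univ _) (mem_univ _)
  have h4 : ‖(y + (g' : V)) - (x + g)‖ ≤ |D| + 1 := by
    rw [← dist_eq_norm]
    exact (hD hg' hg).trans ((le_abs_self D).trans (by linarith))
  calc nrm (v (y + g') - v (x + g)) ≤ 2 * ‖v (y + g') - v (x + g)‖ := nrm_le_norm _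
    _ ≤ 2 * (3 * B * (|D| + 1)) := by
        refine mul_le_mul_of_nonneg_left (h3.trans ?_) (by norm_num)
        exact mul_le_mul_of_nonneg_left h4 (by positivity)
    _ = 6 * (|D| + 1) * B := by ring

/-- The constant of `exists_osc`. -/
noncomputable def Dc : ℝ := exists_osc.choose

lemma Dc_pos : 0 < Dc := exists_osc.choose_spec.1

lemma osc_le (hv : ContDiff ℝ 1 v) (hper : Periodic3 v) (hN : 0 ≤ N) (hγ : 0 < γ) (hγ1 : γ ≤ 1)
    (h : HG v N γ) (x y : V) : nrm (v y - v x) ≤ Dc * (7 * N) :=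
  exists_osc.choose_spec.2 v hv hper (7 * N) (grad_le hv hper hN hγ hγ1 h) x y

lemma quad_le {A : Matrix (Fin 3) (Fin 3) ℝ} {c : ℝ} (hA : ∀ i j, |A i j| ≤ c) {f : V}
    (hf : f ⬝ᵥ f = 1) : |f ⬝ᵥ A.mulVec f| ≤ 3 * c := by
  have hc : 0 ≤ c := (abs_nonneg _).trans (hA 0 0)
  have h1 : |f ⬝ᵥ A.mulVec f| ≤ ∑ i, ∑ j, |f i| * (c * |f j|) := by
    rw [dotProduct]
    refine (Finset.abs_sum_le_sum_abs _ _).trans (Finset.sum_le_sum fun i _ => ?_)
    rw [abs_mul, Matrix.mulVec, dotProduct, ← Finset.mul_sum]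
    refine mul_le_mul_of_nonneg_left ?_ (abs_nonneg _)
    refine (Finset.abs_sum_le_sum_abs _ _).trans (Finset.sum_le_sum fun j _ => ?_)
    rw [abs_mul]
    exact mul_le_mul_of_nonneg_right (hA i j) (abs_nonneg _)
  refine h1.trans ?_
  have h2 : |f 0| ^ 2 + |f 1| ^ 2 + |f 2| ^ 2 = 1 := by
    rw [sq_abs, sq_abs, sq_abs]
    simp only [dotProduct, Fin.sum_univ_three] at hf
    nlinarith
  have h3 : (|f 0| + |f 1| + |f 2|) ^ 2 ≤ 3 := by
    nlinarith [sq_nonneg (|f 0| - |f 1|), sq_nonneg (|f 1| - |f 2|), sq_nonneg (|f 0| - |f 2|)]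
  have h4 : ∑ i, ∑ j, |f i| * (c * |f j|) = c * (|f 0| + |f 1| + |f 2|) ^ 2 := by
    simp only [Fin.sum_univ_three]
    ring
  rw [h4]
  nlinarith

lemma quad_sub_le (h : HG v N γ) {f : V} (hf : f ⬝ᵥ f = 1) (x y : V) :
    |f ⬝ᵥ (grad v x).mulVec f - f ⬝ᵥ (grad v y).mulVec f| ≤ 3 * (N * nrm (x - y) ^ γ) := by
  have h1 := quad_le (A := grad v x - grad v y) (c := N * nrm (x - y) ^ γ)
    (fun i j => h x y i j) hf
  rwa [Matrix.sub_mulVec, dotProduct_sub] at h1

end Pool.Agent.Zk61.EU
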