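import Pool.Agent.W786.Dir2

/-!
# Compactly supported radial kernels on the plane and integration by parts
-/

open MeasureTheory Set Filter
open scoped ENNReal NNReal Topology

namespace Pool.Agent.Zk61.EU

open Pool.Agent.W786.Dir (hasDerivAt_maxpow)

/-- The plane. -/
abbrev W2 : Type := Fin 2 → ℝ

/-- Integration by parts with a compactly supported function. -/
lemma ibp2 {f g : W2 → ℝ} (hf : ContDiff ℝ 1 f) (hfc : HasCompactSupport f)
    (hg : ContDiff ℝ 1 g) (e : W2) :
    ∫ x, f x * fderiv ℝ g x e = - ∫ x, fderiv ℝ f x e * g x := by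
  have hf' : Continuous fun x => fderiv ℝ f x e :=
    (hf.continuous_fderiv one_ne_zero).clm_apply continuous_const
  have hg' : Continuous fun x => fderiv ℝ g x e :=
    (hg.continuous_fderiv one_ne_zero).clm_apply continuous_const
  have hfc' : HasCompactSupport fun x => fderiv ℝ f x e := hfc.fderiv_apply (𝕜 := ℝ) e
  refine integral_mul_fderiv_eq_neg_fderiv_mul_of_integrable ?_ ?_ ?_ ?_ ?_
  · exact (hf'.mul hg.continuous).integrable_of_hasCompactSupport hfc'.mul_right
  · exact (hf.continuous.mul hg').integrable_of_hasCompactSupport hfc.mul_right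
  · exact (hf.continuous.mul hg.continuous).integrable_of_hasCompactSupport hfc.mul_right
  · exact fun x _ => (hf.differentiable one_ne_zero).differentiableAt
  · exact fun x _ => (hg.differentiable one_ne_zero).differentiableAt

/-- The radial kernel `(1 - |z|²)₊ⁿ` on the plane. -/
noncomputable def P2 (n : ℕ) (z : W2) : ℝ := (max (1 - z ⬝ᵥ z) 0) ^ n

lemma dot2_nonneg (z : W2) : 0 ≤ z ⬝ᵥ z := by
  rw [dotProduct]
  exact Finset.sum_nonneg fun i _ => mul_self_nonneg _

lemma P2_nonneg (n : ℕ) (z : W2) : 0 ≤ P2 n z := pow_nonneg (le_max_right _ _) n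

lemma P2_zero_of {n : ℕ} {z : W2} (h : 1 ≤ z ⬝ᵥ z) : P2 (n + 1) z = 0 := by
  unfold P2
  rw [max_eq_right (by linarith), zero_pow (by omega)]

lemma P2_cont (n : ℕ) : Continuous (P2 n) := by
  unfold P2
  simp only [dotProduct]
  fun_prop

lemma P2_supp (n : ℕ) : HasCompactSupport (P2 (n + 1)) := by
  refine HasCompactSupport.intro (K := Metric.closedBall (0 : W2) 1) (isCompact_closedBall _ _) ?_
  intro z hz
  refine P2_zero_of ?_
  rw [mem_closedBall_zero_iff, not_le] at hz
  have h1 : ∃ i, 1 < ‖z i‖ := by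
    by_contra hcon
    push Not at hcon
    exact absurd ((pi_norm_le_iff_of_nonneg zero_le_one).2 hcon) (not_le.2 hz)
  obtain ⟨i, hi⟩ := h1
  have h2 : z i * z i ≤ z ⬝ᵥ z :=
    Finset.single_le_sum (f := fun i => z i * z i) (fun j _ => mul_self_nonneg (z j))
      (Finset.mem_univ i)
  have h3 : 1 < z i * z i := by
    rw [← sq, ← sq_abs, ← Real.norm_eq_abs]
    exact one_lt_pow₀ hi (by norm_num)
  linarith

/-- Scalar product with `z` as a continuous linear form. -/
noncomputable def dotL2 (z : W2) : W2 →L[ℝ] ℝ :=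
  ∑ i, z i • (ContinuousLinearMap.proj i : W2 →L[ℝ] ℝ)

@[simp] lemma dotL2_apply (z w : W2) : dotL2 z w = z ⬝ᵥ w := by
  simp [dotL2, dotProduct]

lemma dotSelf2_hasFDerivAt (z : W2) :
    HasFDerivAt (fun z : W2 => z ⬝ᵥ z) ((2 : ℝ) • dotL2 z) z := by
  have h : ∀ i : Fin 2, HasFDerivAt (fun x : W2 => x i * x i)
      (z i • (ContinuousLinearMap.proj i : W2 →L[ℝ] ℝ)
        + z i • (ContinuousLinearMap.proj i : W2 →L[ℝ] ℝ)) z := fun i =>
    ((ContinuousLinearMap.proj i : W2 →L[ℝ] ℝ).hasFDerivAt (x := z)).mul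
      ((ContinuousLinearMap.proj i : W2 →L[ℝ] ℝ).hasFDerivAt (x := z))
  have h2 : HasFDerivAt (fun z : W2 => ∑ i, z i * z i) _ z := HasFDerivAt.fun_sum fun i _ => h i
  refine h2.congr_fderiv ?_
  ext w
  simp [dotProduct, Fin.sum_univ_two]
  ring

lemma P2_hasFDerivAt (n : ℕ) (z : W2) :
    HasFDerivAt (P2 (n + 2)) ((-2 * (n + 2) * P2 (n + 1) z) • dotL2 z) z := by
  have h1 := (dotSelf2_hasFDerivAt z).const_sub 1
  have h2 := (hasDerivAt_maxpow n (1 - z ⬝ᵥ z)).comp_hasFDerivAt z h1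
  refine (h2.congr_fderiv ?_)
  ext w
  simp [P2]
  ring

lemma P2_fderiv (n : ℕ) (z w : W2) :
    fderiv ℝ (P2 (n + 2)) z w = -2 * (n + 2) * P2 (n + 1) z * (z ⬝ᵥ w) := by
  rw [(P2_hasFDerivAt n z).fderiv]
  simp

lemma P2_contDiff (n : ℕ) : ContDiff ℝ 1 (P2 (n + 2)) := by
  rw [contDiff_one_iff_hasFDerivAt]
  refine ⟨fun z => (-2 * (n + 2) * P2 (n + 1) z) • dotL2 z, ?_, P2_hasFDerivAt n⟩
  refine ((continuous_const.mul (P2_cont _))).smul ?_
  unfold dotL2
  fun_prop

lemma P2_integrable (n : ℕ) : Integrable (P2 (n + 1)) :=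
  (P2_cont _).integrable_of_hasCompactSupport (P2_supp n)

lemma P2_int_pos (n : ℕ) : 0 < ∫ z, P2 (n + 1) z := by
  refine (P2_cont _).integral_pos_of_hasCompactSupport_nonneg_nonzero (P2_supp n)
    (fun z => P2_nonneg _ z) (x := 0) ?_
  simp [P2]

/-- Differentiation of `r ↦ ∫ k(z) S(r z) dz`. -/
lemma param_deriv2 {k : W2 → ℝ} (hk : Continuous k) (hkc : HasCompactSupport k) {S : W2 → ℝ}
    (hS : ContDiff ℝ 1 S) (r : ℝ) :
    HasDerivAt (fun r : ℝ => ∫ z, k z * S (r • z))
      (∫ z, k z * fderiv ℝ S (r • z) z) r := by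
  have hc : Continuous fun q : ℝ × W2 => fderiv ℝ S (q.1 • q.2) q.2 := by
    have h1 : Continuous fun q : ℝ × W2 => fderiv ℝ S (q.1 • q.2) :=
      (hS.continuous_fderiv one_ne_zero).comp (by fun_prop)
    exact h1.clm_apply continuous_snd
  obtain ⟨M, hM⟩ := ((isCompact_closedBall r 1).prod hkc.isCompact).exists_bound_of_continuousOn
    hc.continuousOn
  refine (hasDerivAt_integral_of_dominated_loc_of_deriv_le (Metric.ball_mem_nhds r one_pos)
    (F := fun r z => k z * S (r • z))
    (F' := fun r z => k z * fderiv ℝ S (r • z) z)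
    (bound := fun z => ‖k z‖ * M) ?_ ?_ ?_ ?_ ?_ ?_).2
  · refine Eventually.of_forall fun r' => ?_
    have : Continuous fun z => k z * S (r' • z) := hk.mul (hS.continuous.comp (by fun_prop))
    exact this.aestronglyMeasurable
  · have : Continuous fun z => k z * S (r • z) := hk.mul (hS.continuous.comp (by fun_prop))
    exact this.integrable_of_hasCompactSupport hkc.mul_right
  · have h2 : Continuous fun z => fderiv ℝ S (r • z) z := by
      have h1 : Continuous fun z : W2 => fderiv ℝ S (r • z) :=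
        (hS.continuous_fderiv one_ne_zero).comp (by fun_prop)
      exact h1.clm_apply continuous_id
    exact (hk.mul h2).aestronglyMeasurable
  · refine Eventually.of_forall fun z r' hr' => ?_
    rw [norm_mul]
    by_cases hz : z ∈ tsupport k
    · gcongr
      exact hM (r', z) ⟨Metric.ball_subset_closedBall hr', hz⟩
    · rw [image_eq_zero_of_notMem_tsupport hz, norm_zero, zero_mul, zero_mul]
  · exact (hk.norm.integrable_of_hasCompactSupport hkc.norm).mul_const M
  · refine Eventually.of_forall fun z r' _ => ?_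
    have h1 : HasDerivAt (fun r : ℝ => r • z) z r' := by
      simpa using ((hasDerivAt_id r').smul_const z)
    have h2 : HasFDerivAt S (fderiv ℝ S (r' • z)) (r' • z) :=
      ((hS.differentiable one_ne_zero) _).hasFDerivAt
    exact (h2.comp_hasDerivAt r' h1).const_mul (k z)

lemma comp_sc {S : W2 → ℝ} (hS : ContDiff ℝ 1 S) (r : ℝ) :
    ContDiff ℝ 1 (fun z : W2 => S (r • z)) := hS.comp (by fun_prop)

lemma fderiv_comp_sc {S : W2 → ℝ} (hS : ContDiff ℝ 1 S) (r : ℝ) (z e : W2) :
    fderiv ℝ (fun z : W2 => S (r • z)) z e = r * fderiv ℝ S (r • z) e := by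
  have h1 : HasFDerivAt (fun z : W2 => r • z) (r • ContinuousLinearMap.id ℝ W2) z :=
    ((hasFDerivAt_id (𝕜 := ℝ) z).const_smul r)
  have h2 : HasFDerivAt S (fderiv ℝ S (r • z)) (r • z) :=
    ((hS.differentiable one_ne_zero) _).hasFDerivAt
  have h3 : HasFDerivAt (fun z : W2 => S (r • z)) _ z := h2.comp z h1
  rw [h3.fderiv]
  simp

lemma fderiv2_sum {S : W2 → ℝ} (x z : W2) :
    fderiv ℝ S x z = z 0 * fderiv ℝ S x (Pi.single 0 1) + z 1 * fderiv ℝ S x (Pi.single 1 1) := by
  conv_lhs => rw [show z = z 0 • (Pi.single 0 1 : W2) + z 1 • (Pi.single 1 1 : W2) by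
    ext i; fin_cases i <;> simp]
  rw [map_add, map_smul, map_smul, smul_eq_mul, smul_eq_mul]

end Pool.Agent.Zk61.EU
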