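import Pool.Agent.Zk61.EU.P2

/-!
# The logarithmic estimate for the strain of a plane field

For a field `(p, q)` on the plane, `s = ∂₀p - ∂₁q` at a point is controlled by the divergence
`∂₀p + ∂₁q`, the curl `∂₀q - ∂₁p` and the logarithm of the ratio of two radii.
-/

open MeasureTheory Set Filter
open scoped ENNReal NNReal Topology

namespace Pool.Agent.Zk61.EU

/-- Partial derivatives on the plane. -/
noncomputable def pd2 (f : W2 → ℝ) (i : Fin 2) (x : W2) : ℝ := fderiv ℝ f x (Pi.single i 1)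

lemma pd2_contDiff {f : W2 → ℝ} (hf : ContDiff ℝ 2 f) (i : Fin 2) : ContDiff ℝ 1 (pd2 f i) :=
  (hf.fderiv_right (m := 1) (by norm_num)).clm_apply contDiff_const

lemma pd2_symm {f : W2 → ℝ} (hf : ContDiff ℝ 2 f) (x : W2) (i j : Fin 2) :
    pd2 (pd2 f i) j x = pd2 (pd2 f j) i x := by
  have hd : DifferentiableAt ℝ (fderiv ℝ f) x :=
    ((hf.fderiv_right (m := 1) (by norm_num)).differentiable one_ne_zero) x
  have key : ∀ i j : Fin 2, pd2 (pd2 f i) j x
      = fderiv ℝ (fderiv ℝ f) x (Pi.single j 1) (Pi.single i 1) := by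
    intro i j
    have h1 : HasFDerivAt (fun x => fderiv ℝ f x (Pi.single i 1))
        ((fderiv ℝ (fderiv ℝ f) x).flip (Pi.single i 1)) x := by
      have h2 := hd.hasFDerivAt.clm_apply (hasFDerivAt_const (Pi.single i 1 : W2) x)
      refine h2.congr_fderiv ?_
      ext w
      simp
    show fderiv ℝ (fun x => fderiv ℝ f x (Pi.single i 1)) x (Pi.single j 1) = _
    rw [h1.fderiv]
    rfl
  rw [key, key]
  exact (hf.contDiffAt.isSymmSndFDerivAt (by simp)) (Pi.single j 1) (Pi.single i 1)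

/-- The kernel `∂ⱼ(P₃ zᵢ)`. -/
noncomputable def kap (i j : Fin 2) (z : W2) : ℝ :=
  -6 * P2 2 z * (z i * z j) + P2 3 z * (if i = j then 1 else 0)

lemma kap_symm (i j : Fin 2) (z : W2) : kap i j z = kap j i z := by
  unfold kap
  rw [mul_comm (z i)]
  simp only [eq_comm]

lemma kap_cont (i j : Fin 2) : Continuous (kap i j) := by
  unfold kap
  have h2 := P2_cont 2
  have h3 := P2_cont 3
  have hi : Continuous fun z : W2 => z i := continuous_apply i
  have hj : Continuous fun z : W2 => z j := continuous_apply j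
  exact ((continuous_const.mul h2).mul (hi.mul hj)).add (h3.mul continuous_const)

lemma kap_supp (i j : Fin 2) : HasCompactSupport (kap i j) := by
  unfold kap
  refine HasCompactSupport.add ?_ ?_
  · exact ((P2_supp 1).mul_left (f := fun _ => (-6 : ℝ))).mul_right
  · exact (P2_supp 2).mul_right

lemma kap_int (i j : Fin 2) {f : W2 → ℝ} (hf : Continuous f) :
    Integrable fun z => kap i j z * f z :=
  ((kap_cont i j).mul hf).integrable_of_hasCompactSupport (kap_supp i j).mul_right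

lemma ibp_kap {G : W2 → ℝ} (hG : ContDiff ℝ 1 G) (i j : Fin 2) (r : ℝ) :
    ∫ z, P2 3 z * z i * (r * pd2 G j (r • z)) = -∫ z, kap i j z * G (r • z) := by
  have c3 : ContDiff ℝ 1 (P2 3) := P2_contDiff 1
  have ci : ContDiff ℝ 1 (fun z : W2 => z i) :=
    (ContinuousLinearMap.proj (R := ℝ) (φ := fun _ : Fin 2 => ℝ) i).contDiff
  have ca : ContDiff ℝ 1 (fun z : W2 => P2 3 z * z i) := c3.mul ci
  have sa : HasCompactSupport (fun z : W2 => P2 3 z * z i) := (P2_supp 2).mul_right
  have h1 := ibp2 ca sa (comp_sc hG r) (Pi.single j 1)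
  have e1 : ∀ z, fderiv ℝ (fun z : W2 => G (r • z)) z (Pi.single j 1) = r * pd2 G j (r • z) :=
    fun z => fderiv_comp_sc hG r z _
  have e2 : ∀ z, fderiv ℝ (fun z : W2 => P2 3 z * z i) z (Pi.single j 1) = kap i j z := by
    intro z
    have h2 : fderiv ℝ (fun z : W2 => P2 3 z * z i) z = P2 3 z • fderiv ℝ (fun z : W2 => z i) z
        + z i • fderiv ℝ (P2 3) z :=
      fderiv_fun_mul ((c3.differentiable one_ne_zero) z) ((ci.differentiable one_ne_zero) z)
    have h3 : fderiv ℝ (fun z : W2 => z i) z (Pi.single j 1) = if i = j then 1 else 0 := by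
      have : HasFDerivAt (fun z : W2 => z i) (ContinuousLinearMap.proj i : W2 →L[ℝ] ℝ) z :=
        (ContinuousLinearMap.proj i : W2 →L[ℝ] ℝ).hasFDerivAt
      rw [this.fderiv]
      simp [Pi.single_apply]
    have h4 : fderiv ℝ (P2 3) z (Pi.single j 1) = -6 * P2 2 z * z j := by
      have := P2_fderiv 1 z (Pi.single j 1)
      rw [show P2 3 = P2 (1 + 2) from rfl, this]
      simp
      norm_num
    rw [h2]
    simp only [add_apply, FunLike.coe_smul, Pi.smul_apply, smul_eq_mul, h3, h4, kap]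
    ring
  simp only [e1, e2] at h1
  exact h1

lemma swap_kap {f : W2 → ℝ} (hf : ContDiff ℝ 2 f) (i j k : Fin 2) (r : ℝ) :
    ∫ z, kap i j z * pd2 f k (r • z) = ∫ z, kap i k z * pd2 f j (r • z) := by
  have h1 := ibp_kap (pd2_contDiff hf k) i j r
  have h2 := ibp_kap (pd2_contDiff hf j) i k r
  have h3 : ∀ z, pd2 (pd2 f k) j (r • z) = pd2 (pd2 f j) k (r • z) := fun z => pd2_symm hf _ k j
  simp only [h3] at h1
  rw [h1] at h2
  linarith

/-- The strain component, the divergence and the curl of the field `(p, q)`. -/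
noncomputable def str (p q : W2 → ℝ) (z : W2) : ℝ := pd2 p 0 z - pd2 q 1 z

lemma str_contDiff {p q : W2 → ℝ} (hp : ContDiff ℝ 2 p) (hq : ContDiff ℝ 2 q) :
    ContDiff ℝ 1 (str p q) := (pd2_contDiff hp 0).sub (pd2_contDiff hq 1)

/-- The main formula. -/
lemma planar_formula {p q : W2 → ℝ} (hp : ContDiff ℝ 2 p) (hq : ContDiff ℝ 2 q) (r : ℝ) :
    r * ∫ z, P2 3 z * fderiv ℝ (str p q) (r • z) z
      = 6 * ∫ z, P2 2 z * ((z 0 ^ 2 - z 1 ^ 2) * (pd2 p 0 (r • z) + pd2 q 1 (r • z))
          - 2 * (z 0 * z 1) * (pd2 q 0 (r • z) - pd2 p 1 (r • z))) := by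
  have cs := str_contDiff hp hq
  have cont : ∀ {f : W2 → ℝ}, Continuous f → Continuous fun z : W2 => f (r • z) :=
    fun hf => hf.comp (continuous_const_smul r)
  have cp : ∀ k, Continuous fun z : W2 => pd2 p k (r • z) :=
    fun k => cont (pd2_contDiff hp k).continuous
  have cq : ∀ k, Continuous fun z : W2 => pd2 q k (r • z) :=
    fun k => cont (pd2_contDiff hq k).continuous
  have cfd : ∀ j, Continuous fun z : W2 => pd2 (str p q) j (r • z) := fun j =>
    cont ((cs.continuous_fderiv one_ne_zero).clm_apply continuous_const)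
  have L : r * ∫ z, P2 3 z * fderiv ℝ (str p q) (r • z) z
      = (∫ z, P2 3 z * z 0 * (r * pd2 (str p q) 0 (r • z)))
        + ∫ z, P2 3 z * z 1 * (r * pd2 (str p q) 1 (r • z)) := by
    rw [← integral_add, ← integral_const_mul]
    · refine integral_congr_ae (Eventually.of_forall fun z => ?_)
      simp only [fderiv2_sum (S := str p q) (r • z) z, pd2]
      ring
    · exact (((P2_cont 3).mul (continuous_apply 0)).mul
        (continuous_const.mul (cfd 0))).integrable_of_hasCompactSupport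
        ((P2_supp 2).mul_right.mul_right)
    · exact (((P2_cont 3).mul (continuous_apply 1)).mul
        (continuous_const.mul (cfd 1))).integrable_of_hasCompactSupport
        ((P2_supp 2).mul_right.mul_right)
  rw [L, ibp_kap cs 0 0 r, ibp_kap cs 1 1 r]
  have e : ∀ i j, ∫ z, kap i j z * str p q (r • z)
      = (∫ z, kap i j z * pd2 p 0 (r • z)) - ∫ z, kap i j z * pd2 q 1 (r • z) := by
    intro i j
    rw [← integral_sub (kap_int i j (cp 0)) (kap_int i j (cq 1))]
    refine integral_congr_ae (Eventually.of_forall fun z => ?_)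
    simp only [str]
    ring
  rw [e, e]
  have s1 : ∫ z, kap 1 1 z * pd2 p 0 (r • z) = ∫ z, kap 0 1 z * pd2 p 1 (r • z) := by
    rw [swap_kap hp 1 1 0 r]
    simp only [kap_symm 1 0]
  have s2 : ∫ z, kap 0 0 z * pd2 q 1 (r • z) = ∫ z, kap 0 1 z * pd2 q 0 (r • z) :=
    swap_kap hq 0 0 1 r
  have R : 6 * ∫ z, P2 2 z * ((z 0 ^ 2 - z 1 ^ 2) * (pd2 p 0 (r • z) + pd2 q 1 (r • z))
          - 2 * (z 0 * z 1) * (pd2 q 0 (r • z) - pd2 p 1 (r • z)))
      = ((∫ z, kap 1 1 z * pd2 p 0 (r • z)) - (∫ z, kap 0 0 z * pd2 p 0 (r • z)))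
        + ((∫ z, kap 1 1 z * pd2 q 1 (r • z)) - (∫ z, kap 0 0 z * pd2 q 1 (r • z)))
        + (2 * (∫ z, kap 0 1 z * pd2 q 0 (r • z)) - 2 * ∫ z, kap 0 1 z * pd2 p 1 (r • z)) := by
    have i1 : Integrable fun z => kap 1 1 z * pd2 p 0 (r • z) - kap 0 0 z * pd2 p 0 (r • z) :=
      (kap_int 1 1 (cp 0)).sub (kap_int 0 0 (cp 0))
    have i2 : Integrable fun z => kap 1 1 z * pd2 q 1 (r • z) - kap 0 0 z * pd2 q 1 (r • z) :=
      (kap_int 1 1 (cq 1)).sub (kap_int 0 0 (cq 1))
    have i3 : Integrable fun z => 2 * (kap 0 1 z * pd2 q 0 (r • z))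
        - 2 * (kap 0 1 z * pd2 p 1 (r • z)) :=
      ((kap_int 0 1 (cq 0)).const_mul 2).sub ((kap_int 0 1 (cp 1)).const_mul 2)
    have i12 : Integrable fun z => (kap 1 1 z * pd2 p 0 (r • z) - kap 0 0 z * pd2 p 0 (r • z))
        + (kap 1 1 z * pd2 q 1 (r • z) - kap 0 0 z * pd2 q 1 (r • z)) := i1.add i2
    rw [← integral_sub (kap_int 1 1 (cp 0)) (kap_int 0 0 (cp 0)),
      ← integral_sub (kap_int 1 1 (cq 1)) (kap_int 0 0 (cq 1)), ← integral_const_mul,
      ← integral_const_mul, ← integral_const_mul,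
      ← integral_sub ((kap_int 0 1 (cq 0)).const_mul 2) ((kap_int 0 1 (cp 1)).const_mul 2),
      ← integral_add i1 i2, ← integral_add i12 i3]
    refine integral_congr_ae (Eventually.of_forall fun z => ?_)
    simp only [kap]
    norm_num
    ring
  rw [R, s1, s2]
  ring

section

variable {p q : W2 → ℝ} {β M h R δ : ℝ}

lemma sq_lt_one {z : W2} (hz : z ⬝ᵥ z < 1) : z 0 ^ 2 + z 1 ^ 2 < 1 := by
  simp only [dotProduct, Fin.sum_univ_two] at hz
  nlinarith

lemma in_disc {r : ℝ} (hr : 0 < r) (hrR : r ≤ R) {z : W2} (hz : z ⬝ᵥ z < 1) :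
    (r • z) ⬝ᵥ (r • z) < R ^ 2 := by
  rw [smul_dotProduct, dotProduct_smul, smul_eq_mul, smul_eq_mul]
  have h1 : r * (r * (z ⬝ᵥ z)) < r * (r * 1) := by gcongr
  nlinarith

/-- **The logarithmic estimate in a disc.** -/
theorem planar_bound (hp : ContDiff ℝ 2 p) (hq : ContDiff ℝ 2 q)
    (hd : ∀ z, z ⬝ᵥ z < R ^ 2 → |pd2 p 0 z + pd2 q 1 z| ≤ β)
    (hw : ∀ z, z ⬝ᵥ z < R ^ 2 → |pd2 q 0 z - pd2 p 1 z| ≤ β)
    (hpM : ∀ z, z ⬝ᵥ z < R ^ 2 → |p z| ≤ M) (hqM : ∀ z, z ⬝ᵥ z < R ^ 2 → |q z| ≤ M)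
    (hδ : 0 < δ) (hδR : δ ≤ R)
    (hs : ∀ z : W2, z ⬝ᵥ z < 1 → |str p q (δ • z) - str p q 0| ≤ h) :
    |str p q 0| ≤ h + 12 * ((∫ z, P2 2 z) / ∫ z, P2 3 z) * (β * Real.log (R / δ) + M / R) := by
  have c2 : 0 < ∫ z, P2 2 z := P2_int_pos 1
  have c3 : 0 < ∫ z, P2 3 z := P2_int_pos 2
  set I2 := ∫ z, P2 2 z with hI2
  set I3 := ∫ z, P2 3 z with hI3
  have hR : 0 < R := hδ.trans_le hδR
  have h00 : (0 : W2) ⬝ᵥ 0 < R ^ 2 := by simp only [dotProduct_zero]; positivity
  have hβ : 0 ≤ β := (abs_nonneg _).trans (hd 0 h00)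
  have hM : 0 ≤ M := (abs_nonneg _).trans (hpM 0 h00)
  set A : ℝ → ℝ := fun r => ∫ z, P2 3 z * str p q (r • z) with hA
  set A' : ℝ → ℝ := fun r => ∫ z, P2 3 z * fderiv ℝ (str p q) (r • z) z with hA'
  have cs := str_contDiff hp hq
  have hAd : ∀ r, HasDerivAt A (A' r) r := fun r => param_deriv2 (P2_cont 3) (P2_supp 2) cs r
  have far : ∀ r, 0 < r → r ≤ R → r * |A' r| ≤ 12 * β * I2 := by
    intro r hr hrR
    rw [← abs_of_pos hr, ← abs_mul, abs_of_pos hr, hA', planar_formula hp hq r, abs_mul,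
      abs_of_pos (by norm_num : (0 : ℝ) < 6)]
    have h1 : |∫ z, P2 2 z * ((z 0 ^ 2 - z 1 ^ 2) * (pd2 p 0 (r • z) + pd2 q 1 (r • z))
          - 2 * (z 0 * z 1) * (pd2 q 0 (r • z) - pd2 p 1 (r • z)))| ≤ 2 * β * I2 := by
      rw [hI2, ← integral_const_mul, ← Real.norm_eq_abs]
      refine norm_integral_le_of_norm_le ((P2_integrable 1).const_mul _)
        (Eventually.of_forall fun z => ?_)
      rw [Real.norm_eq_abs, abs_mul, abs_of_nonneg (P2_nonneg 2 z)]
      rcases lt_or_ge (z ⬝ᵥ z) 1 with hz | hz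
      · have hz1 := sq_lt_one hz
        have a1 : |z 0 ^ 2 - z 1 ^ 2| ≤ 1 := by
          rw [abs_le]
          constructor <;> nlinarith [sq_nonneg (z 0), sq_nonneg (z 1)]
        have a2 : |2 * (z 0 * z 1)| ≤ 1 := by
          rw [abs_le]
          constructor <;> nlinarith [sq_nonneg (z 0 - z 1), sq_nonneg (z 0 + z 1)]
        have a3 : |(z 0 ^ 2 - z 1 ^ 2) * (pd2 p 0 (r • z) + pd2 q 1 (r • z))
            - 2 * (z 0 * z 1) * (pd2 q 0 (r • z) - pd2 p 1 (r • z))| ≤ 2 * β := by
          refine (abs_sub _ _).trans ?_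
          rw [abs_mul, abs_mul]
          have hin := in_disc hr hrR hz
          have b1 := mul_le_mul a1 (hd (r • z) hin) (abs_nonneg _) zero_le_one
          have b2 := mul_le_mul a2 (hw (r • z) hin) (abs_nonneg _) zero_le_one
          linarith
        have := P2_nonneg 2 z
        calc _ ≤ P2 2 z * (2 * β) := mul_le_mul_of_nonneg_left a3 this
          _ = 2 * β * P2 (1 + 1) z := by ring
      · have e2 : P2 (1 + 1) z = 0 := P2_zero_of hz
        simp only [show P2 2 z = P2 (1 + 1) z from rfl, e2]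
        simp
    calc 6 * _ ≤ 6 * (2 * β * I2) := mul_le_mul_of_nonneg_left h1 (by norm_num)
      _ = 12 * β * I2 := by ring
  -- from `δ` to `R`
  have s2 : |A R - A δ| ≤ 12 * β * I2 * Real.log (R / δ) := by
    rcases hδR.lt_or_eq with hlt | heq
    · obtain ⟨c, hc, hc2⟩ := exists_ratio_hasDerivAt_eq_ratio_slope A A' hlt
        (fun r _ => (hAd r).continuousAt.continuousWithinAt) (fun r _ => hAd r)
        Real.log (fun r => r⁻¹)
        (fun r hr => (Real.hasDerivAt_log (hδ.trans_le hr.1).ne').continuousAt.continuousWithinAt)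
        (fun r hr => Real.hasDerivAt_log (hδ.trans hr.1).ne')
      have hcpos : 0 < c := hδ.trans hc.1
      have hlog : Real.log R - Real.log δ = Real.log (R / δ) := (Real.log_div hR.ne' hδ.ne').symm
      have hlog0 : 0 ≤ Real.log (R / δ) := Real.log_nonneg (by rw [le_div_iff₀ hδ]; linarith)
      rw [hlog] at hc2
      have h1 : A R - A δ = Real.log (R / δ) * (c * A' c) := by
        field_simp at hc2 ⊢
        linarith
      rw [h1, abs_mul, abs_of_nonneg hlog0, abs_mul, abs_of_pos hcpos]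
      have h2 := far c hcpos hc.2.le
      calc Real.log (R / δ) * (c * |A' c|) ≤ Real.log (R / δ) * (12 * β * I2) := by gcongr
        _ = _ := by ring
    · rw [heq, sub_self, abs_zero, div_self (heq ▸ hδ.ne'), Real.log_one, mul_zero]
  -- the average at the radius `R`
  have s3 : R * |A R| ≤ 12 * M * I2 := by
    have cont : ∀ {f : W2 → ℝ}, Continuous f → Continuous fun z : W2 => f (R • z) :=
      fun hf => hf.comp (continuous_const_smul R)
    have i1 : ∀ {f : W2 → ℝ}, Continuous f → Integrable fun z => P2 3 z * f (R • z) := fun hf =>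
      ((P2_cont 3).mul (cont hf)).integrable_of_hasCompactSupport (P2_supp 2).mul_right
    have key : ∀ (f : W2 → ℝ) (_ : ContDiff ℝ 2 f) (_ : ∀ z, z ⬝ᵥ z < R ^ 2 → |f z| ≤ M)
        (k : Fin 2),
        |R * ∫ z, P2 3 z * pd2 f k (R • z)| ≤ 6 * M * I2 := by
      intro f hf hfM k
      have hf1 : ContDiff ℝ 1 f := hf.of_le (by norm_num)
      have h1 := ibp2 (P2_contDiff 1) (P2_supp 2) (comp_sc hf1 R) (Pi.single k 1)
      have e1 : ∀ z, fderiv ℝ (fun z : W2 => f (R • z)) z (Pi.single k 1) = R * pd2 f k (R • z) :=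
        fun z => fderiv_comp_sc hf1 R z _
      simp only [e1] at h1
      have e2 : R * ∫ z, P2 3 z * pd2 f k (R • z) = ∫ z, P2 (1 + 2) z * (R * pd2 f k (R • z)) := by
        rw [← integral_const_mul]
        refine integral_congr_ae (Eventually.of_forall fun z => ?_)
        simp only [show P2 (1 + 2) z = P2 3 z from rfl]
        ring
      rw [e2, h1, abs_neg, hI2, ← integral_const_mul, ← Real.norm_eq_abs]
      refine norm_integral_le_of_norm_le ((P2_integrable 1).const_mul _)
        (Eventually.of_forall fun z => ?_)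
      rw [P2_fderiv 1 z, Real.norm_eq_abs]
      rcases lt_or_ge (z ⬝ᵥ z) 1 with hz | hz
      · have hz1 := sq_lt_one hz
        have a1 : |z ⬝ᵥ Pi.single k 1| ≤ 1 := by
          have : z ⬝ᵥ Pi.single k 1 = z k := by simp
          rw [this, abs_le]
          fin_cases k
          · constructor <;> simp <;> nlinarith [sq_nonneg (z 0), sq_nonneg (z 1)]
          · constructor <;> simp <;> nlinarith [sq_nonneg (z 0), sq_nonneg (z 1)]
        rw [abs_mul, abs_mul, abs_mul, abs_of_nonneg (P2_nonneg (1 + 1) z)]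
        have hp2 := P2_nonneg (1 + 1) z
        have e3 : |-2 * (((1 : ℕ) : ℝ) + 2)| = 6 := by norm_num
        rw [e3]
        calc 6 * P2 (1 + 1) z * |z ⬝ᵥ Pi.single k 1| * |f (R • z)|
            ≤ 6 * P2 (1 + 1) z * 1 * M := by
              gcongr
              exact hfM _ (in_disc hR le_rfl hz)
          _ = 6 * M * P2 (1 + 1) z := by ring
      · have e3 : P2 (1 + 1) z = 0 := P2_zero_of hz
        rw [e3]
        simp
    have e : R * A R = R * (∫ z, P2 3 z * pd2 p 0 (R • z)) - R * ∫ z, P2 3 z * pd2 q 1 (R • z) := by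
      rw [← mul_sub, ← integral_sub (i1 (pd2_contDiff hp 0).continuous)
        (i1 (pd2_contDiff hq 1).continuous)]
      congr 1
      refine integral_congr_ae (Eventually.of_forall fun z => ?_)
      simp only [str]
      ring
    rw [← abs_of_pos hR, ← abs_mul, abs_of_pos hR, e]
    refine (abs_sub _ _).trans ?_
    have := key p hp hpM 0
    have := key q hq hqM 1
    linarith
  -- near the point
  have s1 : |A δ - I3 * str p q 0| ≤ h * I3 := by
    have e : A δ - I3 * str p q 0 = ∫ z, P2 3 z * (str p q (δ • z) - str p q 0) := by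
      have i1 : Integrable fun z => P2 3 z * str p q (δ • z) :=
        ((P2_cont 3).mul (cs.continuous.comp (continuous_const_smul δ))).integrable_of_hasCompactSupport
          (P2_supp 2).mul_right
      have i2 : Integrable fun z => P2 3 z * str p q 0 := (P2_integrable 2).mul_const _
      rw [hI3, ← integral_mul_const, hA]
      simp only
      rw [← integral_sub i1 i2]
      refine integral_congr_ae (Eventually.of_forall fun z => ?_)
      ring
    rw [e, hI3, ← integral_const_mul, ← Real.norm_eq_abs]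
    refine norm_integral_le_of_norm_le ((P2_integrable 2).const_mul _)
      (Eventually.of_forall fun z => ?_)
    rw [Real.norm_eq_abs, abs_mul, abs_of_nonneg (P2_nonneg 3 z)]
    rcases lt_or_ge (z ⬝ᵥ z) 1 with hz | hz
    · rw [mul_comm]
      exact mul_le_mul_of_nonneg_right (hs z hz) (P2_nonneg 3 z)
    · have e3 : P2 (2 + 1) z = 0 := P2_zero_of hz
      simp only [show P2 3 z = P2 (2 + 1) z from rfl, e3]
      simp
  have tot : |I3 * str p q 0| ≤ h * I3 + 12 * I2 * (β * Real.log (R / δ) + M / R) := by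
    have h1 : |A R| ≤ 12 * M * I2 / R := by rw [le_div_iff₀ hR, mul_comm]; exact s3
    have h2 : |I3 * str p q 0| ≤ |A δ - I3 * str p q 0| + |A R - A δ| + |A R| := by
      have e : I3 * str p q 0 = -(A δ - I3 * str p q 0) + (-(A R - A δ) + A R) := by ring
      calc |I3 * str p q 0| = |-(A δ - I3 * str p q 0) + (-(A R - A δ) + A R)| := by rw [← e]
        _ ≤ |-(A δ - I3 * str p q 0)| + (|-(A R - A δ)| + |A R|) :=
          (abs_add_le _ _).trans (add_le_add le_rfl (abs_add_le _ _))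
        _ = _ := by rw [abs_neg, abs_neg]; ring
    refine h2.trans ((add_le_add (add_le_add s1 s2) h1).trans (le_of_eq ?_))
    ring
  rw [abs_mul, abs_of_pos c3] at tot
  have h5 : |str p q 0| ≤ (h * I3 + 12 * I2 * (β * Real.log (R / δ) + M / R)) / I3 := by
    rw [le_div_iff₀ c3, mul_comm]
    exact tot
  refine h5.trans (le_of_eq ?_)
  field_simp

end

end Pool.Agent.Zk61.EU
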