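import Pool.Agent.Zk61.EU.Slice

/-!
# The stretching rate at a maximum point of the vorticity
-/

open MeasureTheory Set Filter
open scoped ENNReal NNReal Topology

namespace Pool.Agent.Zk61.EU

open Pool.Agent.H708R2.EulerSign Pool.Agent.H708R2.EulerTypeI Pool.Agent.W786.Dir
  Pool.Agent.W786.Sv

variable {v : V → V} {N γ β Ω R : ℝ} {x e f : V}

/-- The logarithm of the Hölder norm, with the factor `1 + 1/γ`. -/
noncomputable def ell (γ N : ℝ) : ℝ := (1 + 1 / γ) * Real.log N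

lemma ell_nonneg (hγ : 0 < γ) (hN : 1 ≤ N) : 0 ≤ ell γ N := by
  unfold ell
  have := Real.log_nonneg hN
  positivity

/-- The constant of the estimate in space. -/
noncomputable def Ks : ℝ := 6 * ((∫ z, P 2 z) / ∫ z, P 3 z)

lemma Ks_pos : 0 < Ks := by
  have c2 : 0 < ∫ z, P 2 z := P_int_pos 1
  have c3 : 0 < ∫ z, P 3 z := P_int_pos 2
  unfold Ks
  positivity

/-- The constant of the estimate of the strain. -/
noncomputable def Cr : ℝ := 3 + Ks * (1 + 7 * Dc)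

lemma Cr_pos : 0 < Cr := by
  have := Ks_pos
  have := Dc_pos
  unfold Cr
  positivity

/-- The constant of the estimate in a plane. -/
noncomputable def Cp : ℝ := 6 + Kp * (1 + 7 * Dc)

lemma Cp_pos : 0 < Cp := by
  have := Kp_pos
  have := Dc_pos
  unfold Cp
  positivity

lemma scale_props (hγ : 0 < γ) (hN : 1 ≤ N) :
    0 < N ^ (-(1 / γ)) ∧ N ^ (-(1 / γ)) ≤ 1 ∧ N * (N ^ (-(1 / γ))) ^ γ = 1 ∧
      Real.log (N / N ^ (-(1 / γ))) = ell γ N := by
  have hN0 : 0 < N := by linarith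
  refine ⟨Real.rpow_pos_of_pos hN0 _, ?_, ?_, ?_⟩
  · exact Real.rpow_le_one_of_one_le_of_nonpos hN (by
      have : 0 < 1 / γ := by positivity
      linarith)
  · rw [← Real.rpow_mul hN0.le]
    have : -(1 / γ) * γ = -1 := by field_simp
    rw [this, Real.rpow_neg_one, mul_inv_cancel₀ hN0.ne']
  · rw [Real.log_div hN0.ne' (Real.rpow_pos_of_pos hN0 _).ne', Real.log_rpow hN0]
    unfold ell
    ring

/-- The strain everywhere. -/
theorem rate_le (hv : ContDiff ℝ 2 v) (hper : Periodic3 v) (hdiv : ∀ x, divergence v x = 0)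
    (hN : 1 ≤ N) (hγ : 0 < γ) (hγ1 : γ ≤ 1) (hHG : HG v N γ) (hΩ : ∀ y, nrm (vort v y) ≤ Ω)
    (he : e ⬝ᵥ e = 1) (x : V) :
    |e ⬝ᵥ (grad v x).mulVec e| ≤ Cr * (1 + Ω * ell γ N) := by
  have hN0 : 0 < N := by linarith
  have hΩ0 : 0 ≤ Ω := (nrm_nonneg _).trans (hΩ 0)
  obtain ⟨hδ, hδ1, hNδ, hlog⟩ := scale_props hγ hN
  set δ := N ^ (-(1 / γ)) with hδ'
  have hne : nrm e = 1 := by rw [nrm, he, Real.sqrt_one]
  have hv1 : ContDiff ℝ 1 v := hv.of_le (by norm_num)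
  have key := space_bound (x₀ := x) (e := e) (Ω := Ω) (M := Dc * (7 * N)) (R := N) (δ := δ)
    (h := 3 * (N * δ ^ γ)) hv hdiv hne.le hΩ
    (fun y => osc_le hv1 hper hN0.le hγ hγ1 hHG x y) hδ (hδ1.trans hN) (by
      intro z hz
      have h1 := quad_sub_le hHG he (x + δ • z) x
      refine h1.trans ?_
      have h2 : nrm (x + δ • z - x) ≤ δ := by
        rw [add_sub_cancel_left, nrm_smul, abs_of_pos hδ]
        exact mul_le_of_le_one_right hδ.le (nrm_lt_one hz).le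
      have h3 : nrm (x + δ • z - x) ^ γ ≤ δ ^ γ := Real.rpow_le_rpow (nrm_nonneg _) h2 hγ.le
      gcongr)
  rw [hNδ, hlog] at key
  have e1 : rate v e x = e ⬝ᵥ (grad v x).mulVec e := rfl
  rw [e1] at key
  refine key.trans ?_
  have e2 : Dc * (7 * N) / N = 7 * Dc := by field_simp
  rw [e2]
  have h1 := Ks_pos
  have h2 := Dc_pos
  have h3 := ell_nonneg hγ hN
  have h4 : 0 ≤ Ω * ell γ N := by positivity
  show 3 * 1 + Ks * (Ω * ell γ N + 7 * Dc) ≤ Cr * (1 + Ω * ell γ N)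
  unfold Cr
  nlinarith [mul_nonneg h1.le h4, mul_nonneg h1.le h2.le, mul_nonneg (mul_nonneg h1.le h2.le) h4]

/-- The strain at the centre of a disc. -/
theorem disc_strain (hv : ContDiff ℝ 2 v) (hper : Periodic3 v) (hdiv : ∀ x, divergence v x = 0)
    (hN : 1 ≤ N) (hγ : 0 < γ) (hγ1 : γ ≤ 1) (hHG : HG v N γ) (he : e ⬝ᵥ e = 1) (hR : 0 < R)
    {M : ℝ}
    (h1 : ∀ y, e ⬝ᵥ (y - x) = 0 → nrm (y - x) < R →
      |vort v y ⬝ᵥ e| ≤ β ∧ |e ⬝ᵥ (grad v y).mulVec e| ≤ β ∧ nrm (v y - v x) ≤ M)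
    (hf : f ⬝ᵥ f = 1) (hef : e ⬝ᵥ f = 0) :
    |f ⬝ᵥ (grad v x).mulVec f - cross e f ⬝ᵥ (grad v x).mulVec (cross e f)|
      ≤ Cp * (1 + M / R + β * (1 + ell γ N)) := by
  have hN0 : 0 < N := by linarith
  have h0 : nrm (x - x) < R := by rw [sub_self]; simpa [nrm] using hR
  have hx := h1 x (by simp) h0
  have hβ : 0 ≤ β := (abs_nonneg _).trans hx.1
  have hM : 0 ≤ M := (nrm_nonneg _).trans hx.2.2
  have hv1 : ContDiff ℝ 1 v := hv.of_le (by norm_num)
  obtain ⟨hδ, hδ1, hNδ, hlog⟩ := scale_props hγ hN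
  have h3 := ell_nonneg hγ hN
  have hK := Kp_pos
  have hD := Dc_pos
  have h4 : 0 ≤ β * ell γ N := by positivity
  have h5 : 0 ≤ M / R := by positivity
  set δ' := N ^ (-(1 / γ)) with hδ'
  -- the final arithmetic
  have fin : ∀ r : ℝ, r ≤ M / R + 7 * Dc → 6 + Kp * (β * ell γ N + r)
      ≤ Cp * (1 + M / R + β * (1 + ell γ N)) := by
    intro r hr
    calc 6 + Kp * (β * ell γ N + r) ≤ 6 + Kp * (β * ell γ N + (M / R + 7 * Dc)) := by gcongr
      _ ≤ Cp * (1 + M / R + β * (1 + ell γ N)) := by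
          unfold Cp
          nlinarith [mul_nonneg hK.le h4, mul_nonneg hK.le hD.le, mul_nonneg hK.le h5,
            mul_nonneg (mul_nonneg hK.le hD.le) h4, mul_nonneg hK.le hβ,
            mul_nonneg (mul_nonneg hK.le hD.le) hβ, mul_nonneg (mul_nonneg hK.le hD.le) h5]
  rcases le_or_gt R N with hRN | hRN
  · set δ := min R δ' with hδd
    have hδ0 : 0 < δ := lt_min hR hδ
    have key := disc_bound (x₀ := x) (β := β) (M := M) (R := R) (δ := δ) hv hdiv hN0.le hγ hHG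
      he hδ0 (min_le_left _ _) h1 hf hef
    have e1 : N * δ ^ γ ≤ 1 := by
      rw [← hNδ]
      have : δ ^ γ ≤ δ' ^ γ := Real.rpow_le_rpow hδ0.le (min_le_right _ _) hγ.le
      gcongr
    have e2 : Real.log (R / δ) ≤ ell γ N := by
      rcases le_total R δ' with h | h
      · rw [hδd, min_eq_left h, div_self hR.ne', Real.log_one]
        exact h3
      · rw [hδd, min_eq_right h, ← hlog]
        exact Real.log_le_log (by positivity) (by gcongr)
    have h6 : β * Real.log (R / δ) ≤ β * ell γ N := mul_le_mul_of_nonneg_left e2 hβ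
    refine key.trans ?_
    calc 6 * (N * δ ^ γ) + Kp * (β * Real.log (R / δ) + M / R)
        ≤ 6 * 1 + Kp * (β * ell γ N + M / R) := by gcongr
      _ = 6 + Kp * (β * ell γ N + M / R) := by ring
      _ ≤ _ := fin _ (by linarith)
  · have key := disc_bound (x₀ := x) (β := β) (M := Dc * (7 * N)) (R := N) (δ := δ') hv hdiv hN0.le
      hγ hHG he hδ (hδ1.trans hN)
      (fun y hy hyN => ⟨(h1 y hy (hyN.trans hRN)).1, (h1 y hy (hyN.trans hRN)).2.1,
        osc_le hv1 hper hN0.le hγ hγ1 hHG x y⟩) hf hef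
    rw [hNδ, hlog] at key
    refine key.trans ?_
    have e2 : Dc * (7 * N) / N = 7 * Dc := by field_simp
    rw [e2]
    calc 6 * 1 + Kp * (β * ell γ N + 7 * Dc) = 6 + Kp * (β * ell γ N + 7 * Dc) := by ring
      _ ≤ _ := fin _ (by linarith)

/-- The constant of the growth rate. -/
noncomputable def Cg : ℝ := 2 + Cp + 2 * Cr

lemma Cg_pos : 0 < Cg := by
  have := Cp_pos
  have := Cr_pos
  unfold Cg
  positivity

/-- **The stretching at a maximum point**, from the data on a disc. -/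
theorem stretch_max (hv : ContDiff ℝ 2 v) (hper : Periodic3 v) (hdiv : ∀ x, divergence v x = 0)
    (hN : 1 ≤ N) (hγ : 0 < γ) (hγ1 : γ ≤ 1) (hHG : HG v N γ)
    (hmax : ∀ y, nrm (vort v y) ≤ nrm (vort v x)) (h1 : 1 ≤ nrm (vort v x)) (he : e ⬝ᵥ e = 1)
    (hb : |vort v x ⬝ᵥ e| ≤ β) (hd : |e ⬝ᵥ (grad v x).mulVec e| ≤ β) {m : ℝ} (hm : 0 ≤ m)
    (hs : ∀ f, f ⬝ᵥ f = 1 → e ⬝ᵥ f = 0 →
      |f ⬝ᵥ (grad v x).mulVec f - cross e f ⬝ᵥ (grad v x).mulVec (cross e f)|
        ≤ Cp * (1 + m + β * (1 + ell γ N))) :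
    vort v x ⬝ᵥ (grad v x).mulVec (vort v x)
      ≤ Cg * (1 + m + β * (1 + ell γ N)) * (vort v x ⬝ᵥ vort v x) := by
  have hβ : 0 ≤ β := (abs_nonneg _).trans hb
  have h3 := ell_nonneg hγ hN
  have hCp := Cp_pos
  have hCr := Cr_pos
  set n := nrm (vort v x) with hn
  have key := stretch_frame (A := grad v x) (hdiv x) he (w := vort v x) (β := β)
    (S := Cp * (1 + m + β * (1 + ell γ N))) (σ := Cr * (1 + n * ell γ N)) (by positivity) hb hd hs
    (fun h hh => rate_le hv hper hdiv hN hγ hγ1 hHG hmax hh x)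
  refine key.trans ?_
  rw [← nrm_sq, ← hn]
  have h5 : 1 + n * ell γ N ≤ n * (1 + ell γ N) := by nlinarith
  have h6 : 2 * (Cr * (1 + n * ell γ N)) * β * n ≤ 2 * (Cr * (n * (1 + ell γ N))) * β * n := by
    gcongr
  have h7 : 0 ≤ β * (1 + ell γ N) := by positivity
  have h8 : β ≤ β * (1 + ell γ N) := le_mul_of_one_le_right hβ (by linarith)
  have h9 : n ^ 2 * ((3 * β + Cp * (1 + m + β * (1 + ell γ N))) / 2)
      + 2 * (Cr * (n * (1 + ell γ N))) * β * n
      = n ^ 2 * ((3 * β + Cp * (1 + m + β * (1 + ell γ N))) / 2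
        + 2 * Cr * (β * (1 + ell γ N))) := by
    ring
  calc _ ≤ n ^ 2 * ((3 * β + Cp * (1 + m + β * (1 + ell γ N))) / 2)
      + 2 * (Cr * (n * (1 + ell γ N))) * β * n := by gcongr
    _ = _ := h9
    _ ≤ n ^ 2 * (Cg * (1 + m + β * (1 + ell γ N))) := by
        refine mul_le_mul_of_nonneg_left ?_ (sq_nonneg n)
        unfold Cg
        nlinarith [mul_nonneg hCp.le h7, mul_nonneg hCr.le h7, mul_nonneg hCp.le hm,
          mul_nonneg hCr.le hm]
    _ = _ := by ring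

end Pool.Agent.Zk61.EU
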