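import Pool.Agent.W786.Dir4

/-!
# The logarithmic estimate for the strain in space
-/

open MeasureTheory Set Filter
open scoped ENNReal NNReal Topology

namespace Pool.Agent.Zk61.EU

open Pool.Agent.H708R2.EulerSign Pool.Agent.H708R2.EulerTypeI Pool.Agent.W786.Dir

variable {v : V → V} {x₀ e : V} {Ω M h R δ : ℝ}

/-- **The logarithmic estimate in space.** -/
theorem space_bound (hv : ContDiff ℝ 2 v) (hdiv : ∀ x, divergence v x = 0) (he : nrm e ≤ 1)
    (hΩ : ∀ y, nrm (vort v y) ≤ Ω) (hM : ∀ y, nrm (v y - v x₀) ≤ M) (hδ : 0 < δ) (hδR : δ ≤ R)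
    (hs : ∀ z : V, z ⬝ᵥ z < 1 → |rate v e (x₀ + δ • z) - rate v e x₀| ≤ h) :
    |rate v e x₀| ≤ h + 6 * ((∫ z, P 2 z) / ∫ z, P 3 z) * (Ω * Real.log (R / δ) + M / R) := by
  have c2 : 0 < ∫ z, P 2 z := P_int_pos 1
  have c3 : 0 < ∫ z, P 3 z := P_int_pos 2
  set I2 := ∫ z, P 2 z with hI2
  set I3 := ∫ z, P 3 z with hI3
  have hR : 0 < R := hδ.trans_le hδR
  have hΩ0 : 0 ≤ Ω := (nrm_nonneg _).trans (hΩ 0)
  have hM0 : 0 ≤ M := (nrm_nonneg _).trans (hM 0)
  set A : ℝ → ℝ := fun r => ∫ z, P 3 z * rate v e (x₀ + r • z) with hA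
  set A' : ℝ → ℝ := fun r => ∫ z, P 3 z * fderiv ℝ (rate v e) (x₀ + r • z) z with hA'
  have cs := rate_contDiff hv e
  have hAd : ∀ r, HasDerivAt A (A' r) r := fun r => param_deriv (P_cont 3) (P_supp 2) cs x₀ r
  have far : ∀ r, 0 < r → r * |A' r| ≤ 6 * Ω * I2 := by
    intro r hr
    rw [← abs_of_pos hr, ← abs_mul, abs_of_pos hr, hA', rate_formula hv hdiv e x₀ r, abs_mul,
      abs_of_pos (by norm_num : (0 : ℝ) < 6)]
    have h1 : |∫ z, (z ⬝ᵥ e) * P 2 z * (vort v (x₀ + r • z) ⬝ᵥ cross z e)| ≤ Ω * I2 := by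
      rw [hI2, ← integral_const_mul, ← Real.norm_eq_abs]
      refine norm_integral_le_of_norm_le ((P_integrable 1).const_mul _)
        (Eventually.of_forall fun z => ?_)
      rw [Real.norm_eq_abs, abs_mul, abs_mul, abs_of_nonneg (P_nonneg 2 z)]
      rcases lt_or_ge (z ⬝ᵥ z) 1 with hz | hz
      · have hz1 := (nrm_lt_one hz).le
        have b1 : |z ⬝ᵥ e| ≤ 1 := (dot_le _ _).trans (mul_le_one₀ hz1 (nrm_nonneg _) he)
        have b2 : nrm (cross z e) ≤ 1 :=
          (nrm_cross_le _ _).trans (mul_le_one₀ hz1 (nrm_nonneg _) he)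
        have b3 : |vort v (x₀ + r • z) ⬝ᵥ cross z e| ≤ Ω * 1 :=
          (dot_le _ _).trans (mul_le_mul (hΩ _) b2 (nrm_nonneg _) hΩ0)
        have hp := P_nonneg 2 z
        calc |z ⬝ᵥ e| * P 2 z * |vort v (x₀ + r • z) ⬝ᵥ cross z e| ≤ 1 * P 2 z * (Ω * 1) := by
              gcongr
          _ = Ω * P (1 + 1) z := by ring
      · have e2 : P (1 + 1) z = 0 := P_zero_of hz
        simp only [show P 2 z = P (1 + 1) z from rfl, e2]
        simp
    calc 6 * _ ≤ 6 * (Ω * I2) := mul_le_mul_of_nonneg_left h1 (by norm_num)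
      _ = 6 * Ω * I2 := by ring
  -- from `δ` to `R`
  have s2 : |A R - A δ| ≤ 6 * Ω * I2 * Real.log (R / δ) := by
    rcases hδR.lt_or_eq with hlt | heq
    · obtain ⟨c, hc, hc2⟩ := exists_ratio_hasDerivAt_eq_ratio_slope A A' hlt
        (fun r _ => (hAd r).continuousAt.continuousWithinAt) (fun r _ => hAd r)
        Real.log (fun r => r⁻¹)
        (fun r hr => (Real.hasDerivAt_log (hδ.trans_le hr.1).ne').continuousAt.continuousWithinAt)
        (fun r hr => Real.hasDerivAt_log (hδ.trans hr.1).ne')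
      have hcpos : 0 < c := hδ.trans hc.1
      have hlog : Real.log R - Real.log δ = Real.log (R / δ) := (Real.log_div hR.ne' hδ.ne').symm
      have hlog0 : 0 ≤ Real.log (R / δ) := Real.log_nonneg (by rw [le_div_iff₀ hδ]; linarith)
      rw [hlog] at hc2
      have h1 : A R - A δ = Real.log (R / δ) * (c * A' c) := by
        field_simp at hc2 ⊢
        linarith
      rw [h1, abs_mul, abs_of_nonneg hlog0, abs_mul, abs_of_pos hcpos]
      have h2 := far c hcpos
      calc Real.log (R / δ) * (c * |A' c|) ≤ Real.log (R / δ) * (6 * Ω * I2) := by gcongr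
        _ = _ := by ring
    · rw [heq, sub_self, abs_zero, div_self (heq ▸ hδ.ne'), Real.log_one, mul_zero]
  -- the average at the radius `R`
  have s3 : R * |A R| ≤ 6 * M * I2 := by
    have hvj : ∀ j, ContDiff ℝ 1 fun y => v y j := fun j =>
      (contDiff_pi.1 hv j).of_le (by norm_num)
    set w : V → ℝ := fun y => ∑ j, e j * v y j with hw
    have cw : ContDiff ℝ 1 w := ContDiff.sum fun j _ => contDiff_const.mul (hvj j)
    set D : V → ℝ := fun z => w (x₀ + R • z) - w x₀ with hD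
    have cD : ContDiff ℝ 1 D := (comp_aff cw x₀ R).sub contDiff_const
    have dD : ∀ z, fderiv ℝ D z e = R * rate v e (x₀ + R • z) := by
      intro z
      have h1 : fderiv ℝ D z = fderiv ℝ (fun z => w (x₀ + R • z)) z := fderiv_sub_const _
      rw [h1, fderiv_comp_aff cw, smul_eq_mul]
      congr 1
      have h2 : HasFDerivAt v (fderiv ℝ v (x₀ + R • z)) (x₀ + R • z) :=
        ((hv.differentiable two_ne_zero) _).hasFDerivAt
      have h3 : HasFDerivAt w (∑ j, e j • ((ContinuousLinearMap.proj j : V →L[ℝ] ℝ) ∘L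
          fderiv ℝ v (x₀ + R • z))) (x₀ + R • z) :=
        HasFDerivAt.fun_sum fun j _ => (hasFDerivAt_pi'.1 h2 j).const_mul (e j)
      rw [h3.fderiv]
      have h4 : fderiv ℝ v (x₀ + R • z) e = ∑ k, e k • fderiv ℝ v (x₀ + R • z) (Pi.single k 1) := by
        conv_lhs => rw [show e = ∑ k, e k • (Pi.single k 1 : V) by
          ext i; simp [Finset.sum_apply, Pi.single_apply]]
        rw [map_sum]
        simp
      simp only [FunLike.coe_sum, Finset.sum_apply, FunLike.coe_smul, Pi.smul_apply,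
        ContinuousLinearMap.comp_apply, smul_eq_mul, h4, rate, dotProduct, Matrix.mulVec, grad,
        Matrix.of_apply]
      refine Finset.sum_congr rfl fun j _ => ?_
      simp [mul_comm]
    have h1 : R * ∫ z, P 3 z * rate v e (x₀ + R • z) = -∫ z, fderiv ℝ (P 3) z e * D z := by
      rw [← ibp (P_contDiff 1) (P_supp 2) cD e, ← integral_const_mul]
      refine integral_congr_ae (Eventually.of_forall fun z => ?_)
      simp only [dD]
      ring
    rw [← abs_of_pos hR, ← abs_mul, abs_of_pos hR, hA, h1, abs_neg, hI2, ← integral_const_mul,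
      ← Real.norm_eq_abs]
    refine norm_integral_le_of_norm_le ((P_integrable 1).const_mul _)
      (Eventually.of_forall fun z => ?_)
    rw [Real.norm_eq_abs, abs_mul, show P 3 = P (1 + 2) from rfl, P_fderiv 1 z e]
    rcases lt_or_ge (z ⬝ᵥ z) 1 with hz | hz
    · have hz1 := (nrm_lt_one hz).le
      have b1 : |z ⬝ᵥ e| ≤ 1 := (dot_le _ _).trans (mul_le_one₀ hz1 (nrm_nonneg _) he)
      have b2 : |D z| ≤ M := by
        have e1 : D z = e ⬝ᵥ (v (x₀ + R • z) - v x₀) := by
          simp only [hD, hw, dotProduct, Pi.sub_apply, Fin.sum_univ_three]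
          ring
        rw [e1]
        refine (dot_le _ _).trans ?_
        calc nrm e * nrm (v (x₀ + R • z) - v x₀) ≤ 1 * M :=
              mul_le_mul he (hM _) (nrm_nonneg _) zero_le_one
          _ = M := one_mul M
      have e3 : |-2 * (((1 : ℕ) : ℝ) + 2) * P (1 + 1) z * (z ⬝ᵥ e)| = 6 * P 2 z * |z ⬝ᵥ e| := by
        rw [abs_mul, abs_mul, abs_of_nonneg (P_nonneg (1 + 1) z)]
        norm_num
      rw [e3]
      have hp := P_nonneg 2 z
      calc 6 * P 2 z * |z ⬝ᵥ e| * |D z| ≤ 6 * P 2 z * 1 * M := by gcongr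
        _ = 6 * M * P (1 + 1) z := by ring
    · have e3 : P (1 + 1) z = 0 := P_zero_of hz
      rw [e3]
      simp
  -- near the point
  have s1 : |A δ - I3 * rate v e x₀| ≤ h * I3 := by
    have e1 : A δ - I3 * rate v e x₀ = ∫ z, P 3 z * (rate v e (x₀ + δ • z) - rate v e x₀) := by
      have i1 : Integrable fun z => P 3 z * rate v e (x₀ + δ • z) :=
        ((P_cont 3).mul (cs.continuous.comp (by fun_prop))).integrable_of_hasCompactSupport
          (P_supp 2).mul_right
      have i2 : Integrable fun z => P 3 z * rate v e x₀ := (P_integrable 2).mul_const _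
      rw [hI3, ← integral_mul_const, hA]
      simp only
      rw [← integral_sub i1 i2]
      refine integral_congr_ae (Eventually.of_forall fun z => ?_)
      ring
    rw [e1, hI3, ← integral_const_mul, ← Real.norm_eq_abs]
    refine norm_integral_le_of_norm_le ((P_integrable 2).const_mul _)
      (Eventually.of_forall fun z => ?_)
    rw [Real.norm_eq_abs, abs_mul, abs_of_nonneg (P_nonneg 3 z)]
    rcases lt_or_ge (z ⬝ᵥ z) 1 with hz | hz
    · rw [mul_comm]
      exact mul_le_mul_of_nonneg_right (hs z hz) (P_nonneg 3 z)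
    · have e3 : P (2 + 1) z = 0 := P_zero_of hz
      simp only [show P 3 z = P (2 + 1) z from rfl, e3]
      simp
  have tot : |I3 * rate v e x₀| ≤ h * I3 + 6 * I2 * (Ω * Real.log (R / δ) + M / R) := by
    have h1 : |A R| ≤ 6 * M * I2 / R := by rw [le_div_iff₀ hR, mul_comm]; exact s3
    have h2 : |I3 * rate v e x₀| ≤ |A δ - I3 * rate v e x₀| + |A R - A δ| + |A R| := by
      have e1 : I3 * rate v e x₀ = -(A δ - I3 * rate v e x₀) + (-(A R - A δ) + A R) := by ring
      calc |I3 * rate v e x₀| = |-(A δ - I3 * rate v e x₀) + (-(A R - A δ) + A R)| := by rw [← e1]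
        _ ≤ |-(A δ - I3 * rate v e x₀)| + (|-(A R - A δ)| + |A R|) :=
          (abs_add_le _ _).trans (add_le_add le_rfl (abs_add_le _ _))
        _ = _ := by rw [abs_neg, abs_neg]; ring
    refine h2.trans ((add_le_add (add_le_add s1 s2) h1).trans (le_of_eq ?_))
    ring
  rw [abs_mul, abs_of_pos c3] at tot
  have h5 : |rate v e x₀| ≤ (h * I3 + 6 * I2 * (Ω * Real.log (R / δ) + M / R)) / I3 := by
    rw [le_div_iff₀ c3, mul_comm]
    exact tot
  refine h5.trans (le_of_eq ?_)
  field_simp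

end Pool.Agent.Zk61.EU
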