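import Pool.Agent.Zk61.EU.Planar
import Pool.Agent.Zk61.EU.Space
import Pool.Agent.Zk61.EU.Alg
import Pool.Agent.Zk61.EU.Osc

/-!
# The strain at the centre of a disc
-/

open MeasureTheory Set Filter
open scoped ENNReal NNReal Topology

namespace Pool.Agent.Zk61.EU

open Pool.Agent.H708R2.EulerSign Pool.Agent.H708R2.EulerTypeI Pool.Agent.W786.Dir
  Pool.Agent.W786.Sv

variable {v : V → V} {N γ β M R δ : ℝ} {x₀ e f g a : V}

/-- Points of a plane. -/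
def pl (x₀ f g : V) (z : W2) : V := x₀ + z 0 • f + z 1 • g

/-- The component `a · (v - v(x₀))` on a plane. -/
noncomputable def sl (v : V → V) (x₀ f g a : V) (z : W2) : ℝ := a ⬝ᵥ (v (pl x₀ f g z) - v x₀)

lemma pl_hasFDerivAt (x₀ f g : V) (z : W2) :
    HasFDerivAt (pl x₀ f g) ((ContinuousLinearMap.proj 0 : W2 →L[ℝ] ℝ).smulRight f
      + (ContinuousLinearMap.proj 1 : W2 →L[ℝ] ℝ).smulRight g) z := by
  have h0 : HasFDerivAt (fun z : W2 => z 0 • f)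
      ((ContinuousLinearMap.proj 0 : W2 →L[ℝ] ℝ).smulRight f) z :=
    ((ContinuousLinearMap.proj 0 : W2 →L[ℝ] ℝ).hasFDerivAt (x := z)).smul_const f
  have h1 : HasFDerivAt (fun z : W2 => z 1 • g)
      ((ContinuousLinearMap.proj 1 : W2 →L[ℝ] ℝ).smulRight g) z :=
    ((ContinuousLinearMap.proj 1 : W2 →L[ℝ] ℝ).hasFDerivAt (x := z)).smul_const g
  exact (h0.const_add x₀).add h1

lemma pl_contDiff (x₀ f g : V) : ContDiff ℝ 2 (pl x₀ f g) := by
  unfold pl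
  fun_prop

lemma sl_contDiff (hv : ContDiff ℝ 2 v) (x₀ f g a : V) : ContDiff ℝ 2 (sl v x₀ f g a) := by
  unfold sl
  simp only [dotProduct]
  have h1 : ContDiff ℝ 2 (fun z => v (pl x₀ f g z)) := hv.comp (pl_contDiff x₀ f g)
  exact ContDiff.sum fun i _ => contDiff_const.mul ((contDiff_pi.1 h1 i).sub contDiff_const)

lemma sl_pd (hv : ContDiff ℝ 2 v) (z : W2) :
    pd2 (sl v x₀ f g a) 0 z = a ⬝ᵥ (grad v (pl x₀ f g z)).mulVec f ∧
      pd2 (sl v x₀ f g a) 1 z = a ⬝ᵥ (grad v (pl x₀ f g z)).mulVec g := by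
  have h1 : HasFDerivAt v (fderiv ℝ v (pl x₀ f g z)) (pl x₀ f g z) :=
    ((hv.differentiable two_ne_zero) _).hasFDerivAt
  have h2 := h1.comp z (pl_hasFDerivAt x₀ f g z)
  have h3 : HasFDerivAt (fun z => ∑ i, a i * (v (pl x₀ f g z) i - v x₀ i))
      (∑ i, a i • ((ContinuousLinearMap.proj i : V →L[ℝ] ℝ) ∘L
        ((fderiv ℝ v (pl x₀ f g z)) ∘L ((ContinuousLinearMap.proj 0 : W2 →L[ℝ] ℝ).smulRight f
          + (ContinuousLinearMap.proj 1 : W2 →L[ℝ] ℝ).smulRight g)))) z :=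
    HasFDerivAt.fun_sum fun i _ => ((hasFDerivAt_pi'.1 h2 i).sub_const (v x₀ i)).const_mul (a i)
  have h4 : fderiv ℝ (sl v x₀ f g a) z = _ := h3.fderiv
  constructor
  · unfold pd2
    rw [h4]
    simp [fderiv_eq_mulVec, dotProduct]
  · unfold pd2
    rw [h4]
    simp [fderiv_eq_mulVec, dotProduct]

lemma pl_plane (hF : Fr e f g) (z : W2) : e ⬝ᵥ (pl x₀ f g z - x₀) = 0 := by
  have h : pl x₀ f g z - x₀ = z 0 • f + z 1 • g := by unfold pl; abel
  rw [h, dotProduct_add, dotProduct_smul, dotProduct_smul, hF.ef, hF.eg]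
  simp

lemma pl_nrm (hF : Fr e f g) (z : W2) : nrm (pl x₀ f g z - x₀) ^ 2 = z ⬝ᵥ z := by
  have h : pl x₀ f g z - x₀ = z 0 • f + z 1 • g := by unfold pl; abel
  have hgf : g ⬝ᵥ f = 0 := by rw [dotProduct_comm]; exact hF.fg
  rw [nrm_sq, h, add_dotProduct, dotProduct_add, dotProduct_add, smul_dotProduct, smul_dotProduct,
    dotProduct_smul, dotProduct_smul, smul_dotProduct, smul_dotProduct, dotProduct_smul,
    dotProduct_smul, hF.ff, hF.gg, hF.fg, hgf]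
  simp only [dotProduct, Fin.sum_univ_two, smul_eq_mul]
  ring

/-- The constant of the planar estimate. -/
noncomputable def Kp : ℝ := 12 * ((∫ z, P2 2 z) / ∫ z, P2 3 z)

lemma Kp_pos : 0 < Kp := by
  have c2 : 0 < ∫ z, P2 2 z := P2_int_pos 1
  have c3 : 0 < ∫ z, P2 3 z := P2_int_pos 2
  unfold Kp
  positivity

/-- **The strain in the plane at the centre of a disc.** -/
theorem disc_bound (hv : ContDiff ℝ 2 v) (hdiv : ∀ x, divergence v x = 0) (hN : 0 ≤ N)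
    (hγ : 0 < γ) (hHG : HG v N γ) (he : e ⬝ᵥ e = 1) (hδ : 0 < δ) (hδR : δ ≤ R)
    (h1 : ∀ y, e ⬝ᵥ (y - x₀) = 0 → nrm (y - x₀) < R →
      |vort v y ⬝ᵥ e| ≤ β ∧ |e ⬝ᵥ (grad v y).mulVec e| ≤ β ∧ nrm (v y - v x₀) ≤ M)
    (hf : f ⬝ᵥ f = 1) (hef : e ⬝ᵥ f = 0) :
    |f ⬝ᵥ (grad v x₀).mulVec f - cross e f ⬝ᵥ (grad v x₀).mulVec (cross e f)|
      ≤ 6 * (N * δ ^ γ) + Kp * (β * Real.log (R / δ) + M / R) := by
  have hF := fr_cross he hf hef
  set g := cross e f with hg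
  have hR : 0 < R := hδ.trans_le hδR
  have hin : ∀ z : W2, z ⬝ᵥ z < R ^ 2 → nrm (pl x₀ f g z - x₀) < R := by
    intro z hz
    rw [← pl_nrm (x₀ := x₀) hF z] at hz
    exact lt_of_pow_lt_pow_left₀ 2 hR.le hz
  have hp := sl_contDiff hv x₀ f g f
  have hq := sl_contDiff hv x₀ f g g
  have hs0 : ∀ z, str (sl v x₀ f g f) (sl v x₀ f g g) z
      = f ⬝ᵥ (grad v (pl x₀ f g z)).mulVec f - g ⬝ᵥ (grad v (pl x₀ f g z)).mulVec g := by
    intro z
    unfold str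
    rw [(sl_pd hv z).1, (sl_pd hv z).2]
  have hpl0 : pl x₀ f g 0 = x₀ := by simp [pl]
  have hnn : ∀ b : V, b ⬝ᵥ b = 1 → nrm b = 1 := by
    intro b hb
    rw [nrm, hb, Real.sqrt_one]
  have key := planar_bound (p := sl v x₀ f g f) (q := sl v x₀ f g g) (β := β) (M := M)
    (h := 6 * (N * δ ^ γ)) (R := R) (δ := δ) hp hq ?_ ?_ ?_ ?_ hδ hδR ?_
  · rw [hs0, hpl0] at key
    exact key
  · intro z hz
    rw [(sl_pd hv z).1, (sl_pd hv z).2]
    have h2 := (h1 _ (pl_plane hF z) (hin z hz)).2.1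
    have h3 := hF.trace (grad v (pl x₀ f g z))
    have h4 : (grad v (pl x₀ f g z)).trace = 0 := hdiv _
    rw [h4] at h3
    have h5 : f ⬝ᵥ (grad v (pl x₀ f g z)).mulVec f + g ⬝ᵥ (grad v (pl x₀ f g z)).mulVec g
        = -(e ⬝ᵥ (grad v (pl x₀ f g z)).mulVec e) := by linarith
    rw [h5, abs_neg]
    exact h2
  · intro z hz
    rw [(sl_pd hv z).1, (sl_pd hv z).2, cv_frame he hf hef]
    exact (h1 _ (pl_plane hF z) (hin z hz)).1
  · intro z hz
    refine (dot_le _ _).trans ?_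
    rw [hnn f hf, one_mul]
    exact (h1 _ (pl_plane hF z) (hin z hz)).2.2
  · intro z hz
    refine (dot_le _ _).trans ?_
    rw [hnn g hF.gg, one_mul]
    exact (h1 _ (pl_plane hF z) (hin z hz)).2.2
  · intro z hz
    rw [hs0, hs0, hpl0]
    have hnz : nrm (pl x₀ f g (δ • z) - x₀) ≤ δ := by
      have h2 := pl_nrm (x₀ := x₀) hF (δ • z)
      rw [smul_dotProduct, dotProduct_smul, smul_eq_mul, smul_eq_mul] at h2
      have h3 : nrm (pl x₀ f g (δ • z) - x₀) ^ 2 ≤ δ ^ 2 := by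
        rw [h2]
        have : δ * (δ * (z ⬝ᵥ z)) ≤ δ * (δ * 1) := by gcongr
        nlinarith
      exact (le_abs_self _).trans (abs_le_of_sq_le_sq h3 hδ.le)
    have hnp : nrm (pl x₀ f g (δ • z) - x₀) ^ γ ≤ δ ^ γ :=
      Real.rpow_le_rpow (nrm_nonneg _) hnz hγ.le
    have a1 := quad_sub_le hHG hf (pl x₀ f g (δ • z)) x₀
    have a2 := quad_sub_le hHG hF.gg (pl x₀ f g (δ • z)) x₀
    have a3 : N * nrm (pl x₀ f g (δ • z) - x₀) ^ γ ≤ N * δ ^ γ := by gcongr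
    rw [abs_le] at a1 a2 ⊢
    constructor <;> linarith [a1.1, a1.2, a2.1, a2.2]

end Pool.Agent.Zk61.EU
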