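import Pool.Agent.Zk61.EU.Kato

/-!
# Energy and the supremum of the velocity
-/

open MeasureTheory Set Filter
open scoped ContDiff Topology

namespace Pool.Agent.Zk61.EU.Kt

open H459R3.NS H459R3.EU

variable {T : ℝ} {u : ℝ → V → V} {p : ℝ → V → ℝ}

lemma int_shift {f : V → ℝ} (hf : SP f) (c : V) : ∫ x in cube, f (x + c) = ∫ x in cube, f x := by
  let g : Iso := ⟨Equiv.refl _, fun _ => 1, fun _ => Or.inl rfl, -c⟩
  have h := g.integral_comp hf
  have e : ∀ x, g.inv x = x + c := by
    intro x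
    funext k
    simp [Iso.inv, g]
  simpa only [e] using h

lemma scalar_lip {f : V → ℝ} (hf : SP f) {L : ℝ} (hL : ∀ x j, |pd j f x| ≤ L) (x y : V) :
    |f y - f x| ≤ 3 * L * ‖y - x‖ := by
  have hL0 : 0 ≤ L := (abs_nonneg _).trans (hL 0 0)
  have hd : ∀ z, ‖fderiv ℝ f z‖ ≤ 3 * L := by
    intro z
    refine ContinuousLinearMap.opNorm_le_bound _ (by positivity) fun w => ?_
    have h1 : w = ∑ j, w j • (Pi.single j 1 : V) := by
      ext i; simp [Finset.sum_apply, Pi.single_apply]
    rw [Real.norm_eq_abs]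
    conv_lhs => rw [h1]
    rw [map_sum]
    refine (Finset.abs_sum_le_sum_abs _ _).trans ?_
    calc ∑ j, |fderiv ℝ f z (w j • Pi.single j 1)| ≤ ∑ _j : Fin 3, ‖w‖ * L := by
          refine Finset.sum_le_sum fun j _ => ?_
          rw [map_smul, smul_eq_mul, abs_mul]
          have a1 := norm_le_pi_norm w j
          rw [Real.norm_eq_abs] at a1
          have a2 : |fderiv ℝ f z (Pi.single j 1)| ≤ L := hL z j
          gcongr
      _ = 3 * L * ‖w‖ := by simp; ring
  have := Convex.norm_image_sub_le_of_norm_fderiv_le (𝕜 := ℝ) (s := univ)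
    (fun z _ => (hf.smooth.differentiable (by simp)) z) (fun z _ => hd z)
      convex_univ (mem_univ x) (mem_univ y)
  rwa [Real.norm_eq_abs] at this

/-- The supremum from the `L²` norm and the gradient. -/
theorem sup_interp {f : V → ℝ} (hf : SP f) {L E r : ℝ} (hL : ∀ x j, |pd j f x| ≤ L)
    (hE : ∫ x in cube, f x ^ 2 ≤ E) (hr : 0 < r) (hr2 : r ≤ 1 / 2) (x : V) :
    |f x| ≤ 3 * L * r + Real.sqrt (E / (2 * r) ^ 3) := by
  have hL0 : 0 ≤ L := (abs_nonneg _).trans (hL 0 0)
  by_contra hcon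
  push Not at hcon
  set m := |f x| - 3 * L * r with hm
  have hsq : 0 ≤ Real.sqrt (E / (2 * r) ^ 3) := Real.sqrt_nonneg _
  have hm0 : 0 < m := by linarith
  set c : V := x - fun _ => 1 / 2 with hc
  set B : Set V := Icc (fun _ => 1 / 2 - r) (fun _ => 1 / 2 + r) with hB
  have hBc : B ⊆ cube := by
    intro y hy
    refine ⟨fun i => ?_, fun i => ?_⟩
    · have := hy.1 i
      simp only [Pi.zero_apply]
      simp only at this
      linarith
    · have := hy.2 i
      simp only [Pi.one_apply]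
      simp only at this
      linarith
  have hlow : ∀ y ∈ B, m ^ 2 ≤ f (y + c) ^ 2 := by
    intro y hy
    have h1 : ‖y + c - x‖ ≤ r := by
      rw [pi_norm_le_iff_of_nonneg hr.le]
      intro i
      have h2 := hy.1 i
      have h3 := hy.2 i
      simp only at h2 h3
      have e : (y + c - x) i = y i - 1 / 2 := by
        simp only [hc, Pi.add_apply, Pi.sub_apply]; ring
      rw [e, Real.norm_eq_abs, abs_le]
      constructor <;> linarith
    have h2 := scalar_lip hf hL x (y + c)
    have h3 : 3 * L * ‖y + c - x‖ ≤ 3 * L * r := by gcongr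
    have h4 : m ≤ |f (y + c)| := by
      have := abs_sub_abs_le_abs_sub (f x) (f (y + c))
      rw [abs_sub_comm] at this
      linarith
    rw [← sq_abs (f (y + c))]
    gcongr
  have hsp : SP (fun y => f y * f y) := hf.mul hf
  have hint : ∫ y in cube, f (y + c) ^ 2 = ∫ y in cube, f y ^ 2 := by
    have := int_shift hsp c
    simpa only [sq] using this
  have hcont : Continuous fun y => f (y + c) ^ 2 :=
    ((hf.smooth.continuous).comp (by fun_prop)).pow 2
  have hcI : IntegrableOn (fun y => f (y + c) ^ 2) cube :=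
    hcont.continuousOn.integrableOn_compact isCompact_Icc
  have hvol : volume.real B = (2 * r) ^ 3 := by
    rw [measureReal_def, hB, Real.volume_Icc_pi]
    have e : (1 / 2 + r) - (1 / 2 - r) = 2 * r := by ring
    simp only [e, Finset.prod_const, Finset.card_univ, Fintype.card_fin]
    rw [ENNReal.toReal_pow, ENNReal.toReal_ofReal (by positivity)]
  have h1 : m ^ 2 * (2 * r) ^ 3 ≤ E := by
    calc m ^ 2 * (2 * r) ^ 3 = ∫ _y in B, m ^ 2 := by
          rw [setIntegral_const, hvol, smul_eq_mul, mul_comm]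
      _ ≤ ∫ y in B, f (y + c) ^ 2 := by
          refine setIntegral_mono_on ?_ (hcI.mono_set hBc) measurableSet_Icc hlow
          exact integrableOn_const (by
            rw [hB]
            exact (isCompact_Icc.measure_lt_top).ne)
      _ ≤ ∫ y in cube, f (y + c) ^ 2 :=
          setIntegral_mono_set hcI (Eventually.of_forall fun y => sq_nonneg _)
            hBc.eventuallyLE
      _ ≤ E := by rw [hint]; exact hE
  have h2 : m ≤ Real.sqrt (E / (2 * r) ^ 3) := by
    refine Real.le_sqrt_of_sq_le ?_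
    rw [le_div_iff₀ (by positivity)]
    exact h1
  linarith

/-- Conservation of energy. -/
theorem energy_eq (h : IsSol 0 T u p) {t : ℝ} (ht : t ∈ Ico 0 T) : energy (u t) = energy (u 0) := by
  have hE : ContinuousOn (fun s => energy (u s)) (Icc 0 t) :=
    h.energy_continuousOn.mono fun s hs => ⟨hs.1, hs.2.trans_lt ht.2⟩
  have h1 := intervalIntegral.integral_eq_sub_of_hasDerivAt_of_le (f' := fun _ => (0 : ℝ)) ht.1 hE
    (fun s hs => by
      have := h.energy_hasDerivAt ⟨hs.1, hs.2.trans ht.2⟩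
      simpa using this) (by simp)
  simp at h1
  linarith

/-- **The velocity at a singularity with a rate.** -/
theorem vel_le (h : IsSol 0 T u p) {C₁ κ : ℝ} (hκ : 0 ≤ κ) {t : ℝ} (ht : t ∈ Ico 0 T)
    (ht1 : T - t ≤ 1) (hC : GB (u t) (C₁ * (T - t) ^ (-κ))) (x : V) (i : Fin 3) :
    |u t x i| ≤ (3 * C₁ + Real.sqrt (energy (u 0))) * (T - t) ^ (-(3 / 5 * κ)) := by
  have hTt : 0 < T - t := by linarith [ht.2]
  set s := T - t with hs
  have hE : ∫ x in cube, (fun y => u t y i) x ^ 2 ≤ energy (u 0) := by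
    rw [← energy_eq h ht]
    exact Finset.single_le_sum (f := fun i => ∫ x in cube, u t x i ^ 2)
      (fun _ _ => integral_nonneg fun _ => sq_nonneg _) (Finset.mem_univ i)
  have hr0 : 0 < s ^ (2 / 5 * κ) := Real.rpow_pos_of_pos hTt _
  have hr1 : s ^ (2 / 5 * κ) ≤ 1 := Real.rpow_le_one hTt.le ht1 (by positivity)
  have hC0 : 0 ≤ C₁ * s ^ (-κ) := (abs_nonneg _).trans (hC 0 0 0)
  have hC1 : 0 ≤ C₁ := by
    rcases le_or_gt 0 C₁ with h0 | h0
    · exact h0
    · exact absurd hC0 (not_le.2 (mul_neg_of_neg_of_pos h0 (Real.rpow_pos_of_pos hTt _)))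
  have key := sup_interp (h.sp ht i) (L := C₁ * s ^ (-κ)) (E := energy (u 0))
    (r := s ^ (2 / 5 * κ) / 2) (fun x j => hC x i j) hE (by positivity) (by linarith) x
  refine key.trans ?_
  have e1 : 3 * (C₁ * s ^ (-κ)) * (s ^ (2 / 5 * κ) / 2) = 3 / 2 * C₁ * s ^ (-(3 / 5 * κ)) := by
    have : s ^ (-(3 / 5 * κ)) = s ^ (-κ) * s ^ (2 / 5 * κ) := by
      rw [← Real.rpow_add hTt]
      congr 1
      ring
    rw [this]
    ring
  have e2 : Real.sqrt (energy (u 0) / (2 * (s ^ (2 / 5 * κ) / 2)) ^ 3)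
      = Real.sqrt (energy (u 0)) * s ^ (-(3 / 5 * κ)) := by
    have h1 : (2 * (s ^ (2 / 5 * κ) / 2)) ^ 3 = (s ^ (3 / 5 * κ)) ^ 2 := by
      rw [mul_div_cancel₀ _ (two_ne_zero), ← Real.rpow_natCast, ← Real.rpow_natCast,
        ← Real.rpow_mul hTt.le, ← Real.rpow_mul hTt.le]
      congr 1
      push_cast
      ring
    rw [h1, Real.sqrt_div' _ (sq_nonneg _), Real.sqrt_sq (Real.rpow_nonneg hTt.le _),
      Real.rpow_neg hTt.le, div_eq_mul_inv]
  rw [e1, e2]
  have h3 : 0 ≤ s ^ (-(3 / 5 * κ)) := Real.rpow_nonneg hTt.le _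
  nlinarith [mul_nonneg hC1 h3]

end Pool.Agent.Zk61.EU.Kt
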